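import Pool.Agent.H914R2.KDefs2

/-!
# Invariant classes on the square of a variety: definitions
-/

open CategoryTheory AlgebraicGeometry

universe u v w

namespace Pool.Agent.H447

section Alg

variable {K : Type*} [Field K] {A : Type*} [Ring A] [Algebra K A] {C : Type*} [Ring C]
  [Algebra K C]

/-- The automorphism `φ` acts on the element `a` by the scalar `c`. -/
def ActsBy (φ : A ≃ₐ[K] A) (c : K) (a : A) : Prop := φ a = c • a

/-- The automorphisms `φ` of `A` and `φ₂` of `C` preserve the degrees, they are compatible with the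
homomorphisms `p` and `q` from `A` to `C`, and `φ` multiplies the orientation `tr` by the `n`-th
power of the nonzero scalar `c`. -/
structure IsSquareAut (grA : ℕ → Submodule K A) (grC : ℕ → Submodule K C) (p q : A →ₐ[K] C)
    (tr : A →ₗ[K] K) (n : ℕ) (φ : A ≃ₐ[K] A) (φ₂ : C ≃ₐ[K] C) (c : K) : Prop where
  ne_zero : c ≠ 0
  gr : ∀ i, ∀ a ∈ grA i, φ a ∈ grA i
  gr₂ : ∀ i, ∀ a ∈ grC i, φ₂ a ∈ grC i
  fst : ∀ a, φ₂ (p a) = p (φ a)
  snd : ∀ a, φ₂ (q a) = q (φ a)
  tr : ∀ a, tr (φ a) = c ^ n * tr a

end Alg

open Pool.Agent.H914 VarClass Obj WeilCohomology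

variable {k : Type u} [Field k] {𝒱 : VarClass k} {ops : CycleOps 𝒱}

/-- Operators `g`, indexed by `Γ`, acting on the cohomology of `X` and of `X × X` by automorphisms
of graded algebras compatible with the two projections from `X × X` to `X`, such that `g` acts on
the top degree of the cohomology of `X` by the `n`-th power of a nonzero scalar `χ g`, where
`n = dim X`. (In the intended use: `Γ` is the Galois group of a field of definition of `X`, and
`χ` is the inverse of the cyclotomic character.) -/
structure SquareAction (W : WeilCohomology.{u, v} ops) (X : 𝒱.Obj) (Γ : Type w) where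
  /-- the action on the cohomology of `X` -/
  act : Γ → (W.H X ≃ₐ[W.K] W.H X)
  /-- the action on the cohomology of `X × X` -/
  act₂ : Γ → (W.H (X.prod X) ≃ₐ[W.K] W.H (X.prod X))
  /-- the character -/
  χ : Γ → W.K
  aut : ∀ g, IsSquareAut (W.gr X) (W.gr (X.prod X)) (W.map (fst X X)) (W.map (snd X X)) (W.tr X)
    X.dim (act g) (act₂ g) (χ g)

/-- The Tate conjecture for `X × X` in codimension `j`: every class of degree `2 j` on `X × X` on
which all `g` act by `χ g ^ j` (that is, which is invariant after the `j`-th Tate twist) is a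
`K`-linear combination of classes of algebraic cycles of codimension `j`. -/
def TateOnSquare {W : WeilCohomology.{u, v} ops} {X : 𝒱.Obj} {Γ : Type w}
    (A : SquareAction W X Γ) (j : ℕ) : Prop :=
  ∀ a ∈ W.gr (X.prod X) (2 * j), (∀ g, ActsBy (A.act₂ g) (A.χ g ^ j) a) →
    a ∈ spanCycles W (X.prod X) j

end Pool.Agent.H447
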