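import Pool.Agent.H447R3.DegA
import Pool.Agent.H914R2.Sl2Rep
import Pool.Agent.H914R2.GConv2

/-!
# Surjectivity of the Lefschetz operators on an algebra of operators
-/

open Polynomial Finset

namespace Pool.Agent.H447

open Pool.Agent.H914

section Sl2

variable {K : Type*} [Field K] [CharZero K] {V : Type*} [AddCommGroup V] [Module K V]

omit [CharZero K] in
/-- The representation of `sl(2)` on the operators. -/
lemma sl2_dbl {h e f : Module.End K V} (t : Sl2 h e f) :
    Sl2 (LinearMap.mulLeft K h - LinearMap.mulRight K h) (dbl e) (dbl f) := by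
  constructor
  · apply LinearMap.ext
    intro Y
    simp only [dbl, LinearMap.sub_apply, Module.End.mul_apply, LinearMap.add_apply,
      LinearMap.mulLeft_apply, LinearMap.mulRight_apply]
    have := t.ef
    calc e * (f * Y + Y * f) + (f * Y + Y * f) * e - (f * (e * Y + Y * e) + (e * Y + Y * e) * f)
        = (e * f - f * e) * Y - Y * (e * f - f * e) := by noncomm_ring
      _ = _ := by rw [this]
  · apply LinearMap.ext
    intro Y
    have h2 : (2 * dbl e) Y = 2 * (e * Y + Y * e) := by
      rw [two_mul, LinearMap.add_apply, dbl_apply, two_mul]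
    rw [h2]
    simp only [dbl, LinearMap.sub_apply, Module.End.mul_apply, LinearMap.add_apply,
      LinearMap.mulLeft_apply, LinearMap.mulRight_apply]
    have := t.he
    calc h * (e * Y + Y * e) - (e * Y + Y * e) * h - (e * (h * Y - Y * h) + (h * Y - Y * h) * e)
        = (h * e - e * h) * Y + Y * (h * e - e * h) := by noncomm_ring
      _ = _ := by rw [this]; noncomm_ring
  · apply LinearMap.ext
    intro Y
    have h2 : (-(2 * dbl f)) Y = -(2 * (f * Y + Y * f)) := by
      rw [LinearMap.neg_apply, two_mul, LinearMap.add_apply, dbl_apply, two_mul]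
    rw [h2]
    simp only [dbl, LinearMap.sub_apply, Module.End.mul_apply, LinearMap.add_apply,
      LinearMap.mulLeft_apply, LinearMap.mulRight_apply]
    have := t.hf
    calc h * (f * Y + Y * f) - (f * Y + Y * f) * h - (f * (h * Y - Y * h) + (h * Y - Y * h) * f)
        = (h * f - f * h) * Y + Y * (h * f - f * h) := by noncomm_ring
      _ = _ := by rw [this]; noncomm_ring

/-- Injectivity of the powers of the raising operator. -/
lemma e_pow_inj [Module.Finite K V] {H e f : Module.End K V} (t : Sl2 H e f) {x : V} {c : ℕ}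
    (hx : H x = -(c : K) • x) (h0 : (e ^ c) x = 0) : x = 0 := by
  apply f_pow_inj t.neg_swap (c := c)
  · rw [LinearMap.neg_apply, hx, neg_smul, neg_neg]
  · rw [neg_pow, Module.End.mul_apply, h0, map_zero]

/-- The action on the string of a highest weight vector. -/
lemma e_pow_f_pow {H e f : Module.End K V} (t : Sl2 H e f) {w : V} {M : ℕ}
    (hw : H w = (M : K) • w) (hew : e w = 0) {k : ℕ} (hk : k ≤ M) :
    ∀ r ≤ k, ∃ c : ℚ, c ≠ 0 ∧ (e ^ r) ((f ^ k) w) = (c : K) • (f ^ (k - r)) w := by
  have key : ∀ l : ℕ, e ((f ^ (l + 1)) w) = (((l : K) + 1) * ((M : K) - l)) • (f ^ l) w := by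
    intro l
    have h1 := Sl2.f_e_pow t.neg_swap (v := w) (μ := (M : K)) (by
      rw [LinearMap.neg_apply, hew, neg_zero]) (by rw [LinearMap.neg_apply, hw, neg_smul]) l
    have e1 : ∀ p : ℕ, ((-f) ^ p) w = ((-1 : K) ^ p) • (f ^ p) w := by
      intro p
      induction p with
      | zero => simp
      | succ p ih =>
        rw [pow_succ', Module.End.mul_apply, ih, LinearMap.neg_apply, map_smul, pow_succ',
          pow_succ' f, Module.End.mul_apply, neg_one_mul, neg_smul]
    rw [e1, e1, LinearMap.neg_apply, map_smul, pow_succ, mul_neg_one, neg_smul, neg_neg,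
      smul_comm] at h1
    have h2 : ((-1 : K) ^ l) ≠ 0 := pow_ne_zero _ (by norm_num)
    exact smul_right_injective V h2 h1
  intro r
  induction r with
  | zero => intro _; exact ⟨1, one_ne_zero, by simp⟩
  | succ r ih =>
    intro hr
    obtain ⟨c, hc, hcr⟩ := ih (by omega)
    obtain ⟨l, hl⟩ : ∃ l, k - r = l + 1 := ⟨k - r - 1, by omega⟩
    refine ⟨c * ((l + 1 : ℕ) * ((M - l : ℕ) : ℚ)), ?_, ?_⟩
    · apply mul_ne_zero hc
      apply mul_ne_zero
      · exact_mod_cast Nat.succ_ne_zero l
      · have : M - l ≠ 0 := by omega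
        exact_mod_cast this
    · rw [pow_succ', Module.End.mul_apply, hcr, map_smul, hl, key, smul_smul,
        show k - (r + 1) = l by omega]
      congr 1
      rw [Rat.cast_mul, Rat.cast_mul, Rat.cast_natCast, Rat.cast_natCast,
        Nat.cast_sub (show l ≤ M by omega)]
      push_cast
      ring

/-- **Surjectivity of the powers of the raising operator** on a rational structure stable under
the two operators. -/
theorem exists_preimage [Module.Finite K V] {H e f : Module.End K V} (t : Sl2 H e f)
    {P : ℤ → V → Prop} (hP0 : ∀ d, P d 0) (hPadd : ∀ {d x y}, P d x → P d y → P d (x + y))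
    (hPsmul : ∀ (q : ℚ) {d x}, P d x → P d ((q : K) • x))
    (hPe : ∀ {d x}, P d x → P (d + 1) (e x)) (hPf : ∀ {d x}, P d x → P (d - 1) (f x))
    (hPH : ∀ {d x}, P d x → H x = ((2 * d : ℤ) : K) • x) (m : ℕ) {y : V} (hy : P m y) :
    ∃ z, P (-m) z ∧ (e ^ (2 * m)) z = y := by
  have hPep : ∀ (r : ℕ) {d x}, P d x → P (d + r) ((e ^ r) x) := by
    intro r
    induction r with
    | zero => intro d x hx; simpa using hx
    | succ r ih =>
      intro d x hx
      rw [pow_succ', Module.End.mul_apply]
      have := hPe (ih hx)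
      rwa [add_assoc, ← Nat.cast_succ] at this
  have hPfp : ∀ (r : ℕ) {d x}, P d x → P (d - r) ((f ^ r) x) := by
    intro r
    induction r with
    | zero => intro d x hx; simpa using hx
    | succ r ih =>
      intro d x hx
      rw [pow_succ', Module.End.mul_apply]
      have := hPf (ih hx)
      rwa [sub_sub, ← Nat.cast_succ] at this
  have key : ∀ s : ℕ, ∀ y, P m y → (e ^ s) y = 0 → ∃ z, P (-m) z ∧ (e ^ (2 * m)) z = y := by
    intro s
    induction s with
    | zero =>
      intro y _ h0
      refine ⟨0, hP0 _, ?_⟩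
      rw [map_zero]
      simpa using h0.symm
    | succ s ih =>
      intro y hy h0
      set w := (e ^ s) y with hw
      have hwP : P (m + s) w := hPep s hy
      have hHw : H w = ((2 * m + 2 * s : ℕ) : K) • w := by
        rw [hPH hwP]
        congr 1
        push_cast; ring
      have hew : e w = 0 := by rw [hw, ← Module.End.mul_apply, ← pow_succ']; exact h0
      obtain ⟨c₁, hc₁, h1⟩ := e_pow_f_pow t hHw hew (k := 2 * m + s) (by omega) (2 * m) (by omega)
      obtain ⟨c₂, hc₂, h2⟩ := e_pow_f_pow t hHw hew (k := s) (by omega) s le_rfl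
      rw [Nat.add_sub_cancel_left] at h1
      rw [Nat.sub_self, pow_zero, Module.End.one_apply] at h2
      have hfs : P m ((f ^ s) w) := by
        have := hPfp s hwP
        rwa [add_sub_cancel_right] at this
      obtain ⟨z', hz', hz''⟩ := ih (y + ((-c₂⁻¹ : ℚ) : K) • (f ^ s) w)
        (hPadd hy (hPsmul _ hfs)) (by
          rw [map_add, map_smul, h2, smul_smul, ← Rat.cast_mul, neg_mul, inv_mul_cancel₀ hc₂,
            Rat.cast_neg, Rat.cast_one, neg_one_smul, ← hw, add_neg_cancel])
      refine ⟨z' + ((c₂⁻¹ * c₁⁻¹ : ℚ) : K) • (f ^ (2 * m + s)) w, hPadd hz' (hPsmul _ ?_), ?_⟩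
      · have := hPfp (2 * m + s) hwP
        rwa [show (m : ℤ) + s - ((2 * m + s : ℕ) : ℤ) = -m by push_cast; ring] at this
      · rw [map_add, map_smul, h1, hz'', smul_smul, ← Rat.cast_mul, mul_assoc,
          inv_mul_cancel₀ hc₁, mul_one, add_assoc, ← add_smul, Rat.cast_neg, neg_add_cancel,
          zero_smul, add_zero]
  obtain ⟨N, hN⟩ := t.nil_e
  exact key N y hy (by rw [hN, LinearMap.zero_apply])

end Sl2

section Ops

variable {K : Type*} [Field K] [CharZero K] {V : Type*} [AddCommGroup V] [Module K V]
variable {gr : ℕ → Submodule K V} {n : ℕ} {L : Module.End K V}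

lemma weight_dbl (h : DirectSum.IsInternal gr) {d : ℤ} {x : Module.End K V}
    (hx : IsHom gr d x) :
    (LinearMap.mulLeft K (wt h n) - LinearMap.mulRight K (wt h n)) x = (d : K) • x := by
  rw [LinearMap.sub_apply, LinearMap.mulLeft_apply, LinearMap.mulRight_apply, hx.wt_comm h n,
    add_sub_cancel_left]

/-- Injectivity of the second power of the Lefschetz operator on the operators of degree `-2`. -/
lemma dbl_inj [Module.Finite K V] (h : DirectSum.IsInternal gr) {f : Module.End K V}
    (t : Sl2 (wt h n) L f) {x : Module.End K V} (hx : IsHom gr (-2) x)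
    (h0 : (dbl L ^ 2) x = 0) : x = 0 := by
  apply e_pow_inj (sl2_dbl t) (c := 2) _ h0
  rw [weight_dbl h hx]
  congr 1
  push_cast; ring

/-- Operators acting on the strings by prescribed scalars. -/
lemma exists_string_op [Module.Finite K V] (h : DirectSum.IsInternal gr) (hL : IsHom gr 2 L)
    (hbd : ∀ i, 2 * n + 1 ≤ i → gr i = ⊥) (hHL : HardLef gr n L) (c : ℕ → ℕ → K)
    (hc0 : ∀ i, c i 0 = 0) (hc1 : ∀ i ≤ n, c i (n - i + 1) = 0) :
    ∃ T : Module.End K V, IsHom gr (-2) T ∧ ∀ i ≤ n, ∀ a ∈ gr i, (L ^ (n - i + 1)) a = 0 → ∀ j,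
      T ((L ^ j) a) = c i j • (L ^ (j - 1)) a := by
  obtain ⟨Φ, hΦh, hΦ⟩ := exists_isLam h hL hbd hHL
  refine ⟨∑ i ∈ range (n + 1), ∑ j ∈ range (n - i + 1), c i j • (Φ * eij h L Φ i j), ?_, ?_⟩
  · apply IsHom.sum
    intro i _
    apply IsHom.sum
    intro j _
    apply IsHom.smul
    have h1 : IsHom gr 0 (eij h L Φ i j) := by
      unfold eij
      have h2 := (isHom_one (gr := gr)).sub (by simpa using hL.mul hΦh)
      have h3 : IsHom gr 0 (proj h i) := isHom_scal h _
      have h4 := (hL.pow j).mul ((h2.mul h3).mul (hΦh.pow j))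
      have e : (j : ℤ) * 2 + (0 + 0 + (j : ℤ) * (-2)) = 0 := by ring
      rw [e] at h4
      exact h4
    simpa using hΦh.mul h1
  · intro i hi a ha hp j
    by_cases hj : j ≤ n - i
    · rw [LinearMap.sum_apply, Finset.sum_eq_single i]
      · rw [LinearMap.sum_apply, Finset.sum_eq_single j]
        · rw [LinearMap.smul_apply, Module.End.mul_apply, eij_apply h hL hΦ hi ha hp hj,
            if_pos ⟨rfl, rfl⟩]
          rcases Nat.eq_zero_or_pos j with rfl | h0
          · rw [hc0, zero_smul, zero_smul]
          · have := (hΦ i hi a ha hp).2 (j - 1) (by omega)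
            rw [show j - 1 + 1 = j by omega] at this
            rw [this]
        · intro j' _ hj'
          rw [LinearMap.smul_apply, Module.End.mul_apply, eij_apply h hL hΦ hi ha hp hj,
            if_neg (by tauto), map_zero, smul_zero]
        · intro h'; exact absurd (Finset.mem_range.2 (by omega)) h'
      · intro i' _ hi'
        rw [LinearMap.sum_apply]
        apply Finset.sum_eq_zero
        intro j' _
        rw [LinearMap.smul_apply, Module.End.mul_apply, eij_apply h hL hΦ hi ha hp hj,
          if_neg (by tauto), map_zero, smul_zero]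
      · intro h'; exact absurd (Finset.mem_range.2 (by omega)) h'
    · rw [L_pow_gt hp (by omega), map_zero]
      by_cases hj1 : j = n - i + 1
      · rw [hj1, hc1 i hi, zero_smul]
      · rw [L_pow_gt hp (by omega), smul_zero]

end Ops

end Pool.Agent.H447
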