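import Pool.Agent.H447R3.FgC

/-!
# The strong Tate conjecture for all products from finitely many products
-/

open CategoryTheory AlgebraicGeometry Finset

universe u v w

namespace Pool.Agent.H447

open Pool.Agent.H914 VarClass Obj WeilCohomology

variable {k : Type u} [Field k] {𝒱 : VarClass k} {ops : CycleOps 𝒱}
  {W : WeilCohomology.{u, v} ops} {ι : Type w} {X : ι → 𝒱.Obj} {f : ∀ i, X i ⟶ X i}

lemma span_pull {Y Z : 𝒱.Obj} (p : Z ⟶ Y) {j : ℕ} {a : W.H Y} (ha : a ∈ spanCycles W Y j) :
    W.map p a ∈ spanCycles W Z j := by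
  rw [spanCycles_eq] at ha
  induction ha using Submodule.span_induction with
  | mem a ha =>
    obtain ⟨z, hz, rfl⟩ := ha
    rw [← W.cl_pull]
    exact mem_span_cl (ops.pull_mem p hz)
  | zero => rw [map_zero]; exact Submodule.zero_mem _
  | add x y _ _ hx hy => rw [map_add]; exact Submodule.add_mem _ hx hy
  | smul c x _ hx => rw [map_smul]; exact Submodule.smul_mem _ _ hx

lemma span_mul {Y : 𝒱.Obj} {j l : ℕ} {a b : W.H Y} (ha : a ∈ spanCycles W Y j)
    (hb : b ∈ spanCycles W Y l) : a * b ∈ spanCycles W Y ((j + l : ℕ) : ℤ) := by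
  rw [spanCycles_eq] at ha hb
  induction ha using Submodule.span_induction with
  | mem a ha =>
    obtain ⟨z, hz, rfl⟩ := ha
    induction hb using Submodule.span_induction with
    | mem b hb =>
      obtain ⟨z', hz', rfl⟩ := hb
      rw [← W.cl_mul]
      exact mem_span_cl (ops.mul_mem hz hz')
    | zero => rw [mul_zero]; exact Submodule.zero_mem _
    | add x y _ _ hx hy => rw [mul_add]; exact Submodule.add_mem _ hx hy
    | smul c x _ hx => rw [mul_smul_comm]; exact Submodule.smul_mem _ _ hx
  | zero => rw [zero_mul]; exact Submodule.zero_mem _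
  | add x y _ _ hx hy => rw [add_mul]; exact Submodule.add_mem _ hx hy
  | smul c x _ hx => rw [smul_mul_assoc]; exact Submodule.smul_mem _ _ hx

/-- The word `s` gives Tate classes. -/
def IsTateWord (L : Letters W X f) (q : ℕ) (s : Multiset L.Λ) : Prop :=
  TateWord (fun x => L.deg x.1 x.2) (fun x => L.ev x.1 x.2) q s

/-- **The strong Tate conjecture for all products follows from finitely many products.** -/
theorem strongTate_of_letters (L : Letters W X f) {q N : ℕ}
    (hN : ∀ s, IsTateWord L q s → N < Multiset.card s →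
      ∃ t u, s = t + u ∧ t ≠ 0 ∧ u ≠ 0 ∧ IsTateWord L q t ∧ IsTateWord L q u)
    (hT : ∀ i l, l.length < N → StrongTate W (listProd X i l) (listMap X f i l) q) (i : ι)
    (l : List ι) : StrongTate W (listProd X i l) (listMap X f i l) q := by
  classical
  -- monomials
  have hmon : ∀ n : ℕ, ∀ s : Multiset L.Λ, Multiset.card s ≤ n → IsTateWord L q s →
      ∀ (j : ℕ), L.D s = 2 * j → ∀ i l a, IsMon L i l a s →
        a ∈ spanCycles W (listProd X i l) j := by
    intro n
    induction n with
    | zero =>
      intro s hs _ j _ i l a ha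
      have := ha.card
      omega
    | succ n ih =>
      intro s hs hS j hj i l a ha
      by_cases hsN : N < Multiset.card s
      · obtain ⟨t, u, rfl, ht0, hu0, ht, hu⟩ := hN s hS hsN
        have h1 := Multiset.card_pos.2 ht0
        have h2 := Multiset.card_pos.2 hu0
        rw [Multiset.card_add] at hs
        obtain ⟨i₁, l₁, b, i₂, l₂, c, p, r, ε, hb, hc, rfl⟩ := ha.split t u rfl ht0 hu0
        obtain ⟨j₁, hj₁, hA₁⟩ := ht
        obtain ⟨j₂, hj₂, hA₂⟩ := hu
        have hj₁' : L.D t = 2 * j₁ := hj₁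
        have hj₂' : L.D u = 2 * j₂ := hj₂
        have hb' := ih t (by omega) ⟨j₁, hj₁, hA₁⟩ j₁ hj₁' i₁ l₁ b hb
        have hc' := ih u (by omega) ⟨j₂, hj₂, hA₂⟩ j₂ hj₂' i₂ l₂ c hc
        rw [L.D_add] at hj
        obtain rfl : j = j₁ + j₂ := by omega
        exact Submodule.smul_mem _ _ (span_mul (span_pull p hb') (span_pull r hc'))
      · have hcard := ha.card
        apply hT i l (by omega) j a
        · rw [← hj]; exact ha.gr
        · obtain ⟨j', hj', m, hm, hA⟩ := hS
          have hj' : L.D s = 2 * j' := hj'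
          have hA : L.A s ^ m = _ := hA
          obtain rfl : j' = j := by omega
          refine IsPoleVector.iff.2 ⟨m, hm, ?_⟩
          rw [← hA]
          exact ha.gen.pow m
  intro j a ha hP
  set F := (W.map (listMap X f i l)).toLinearMap with hF
  set good : Set (W.H (listProd X i l)) := {v | ∃ s, IsMon L i l v s ∧ L.D s = 2 * j ∧
    IsTateWord L q s} with hgood
  set bad : Set (W.H (listProd X i l)) := {v | ∃ s, IsMon L i l v s ∧ L.D s = 2 * j ∧
    ¬ IsTateWord L q s} with hbad
  have hdec : ∀ x, proj (W.isInternal (listProd X i l)) (2 * j) x ∈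
      Submodule.span W.K good ⊔ Submodule.span W.K bad := by
    intro x
    have hx : x ∈ Submodule.span W.K {a | ∃ s, IsMon L i l a s} := by rw [span_mon]; trivial
    induction hx using Submodule.span_induction with
    | mem x hx =>
      obtain ⟨s, hs⟩ := hx
      by_cases hD : L.D s = 2 * j
      · have h1 := hs.gr
        rw [hD] at h1
        rw [proj_same _ h1]
        by_cases hS : IsTateWord L q s
        · exact Submodule.mem_sup_left (Submodule.subset_span ⟨s, hs, hD, hS⟩)
        · exact Submodule.mem_sup_right (Submodule.subset_span ⟨s, hs, hD, hS⟩)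
      · rw [proj_ne _ hs.gr hD]
        exact Submodule.zero_mem _
    | zero => rw [map_zero]; exact Submodule.zero_mem _
    | add x y _ _ hx hy => rw [map_add]; exact Submodule.add_mem _ hx hy
    | smul c x _ hx => rw [map_smul]; exact Submodule.smul_mem _ _ hx
  have h1 := hdec a
  rw [proj_same _ ha] at h1
  obtain ⟨g, hg, b, hb, rfl⟩ := Submodule.mem_sup.1 h1
  have hgspan : g ∈ spanCycles W (listProd X i l) j := by
    refine Submodule.span_le.2 ?_ hg
    rintro v ⟨s, hs, hD, hS⟩
    exact hmon _ s le_rfl hS j hD i l v hs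
  have hgP : g ∈ poleSpace (W.gr (listProd X i l) (2 * j)) F q j := by
    refine Submodule.span_le.2 ?_ hg
    rintro v ⟨s, hs, hD, hS⟩
    obtain ⟨j', hj', m, hm, hA⟩ := hS
    have hj' : L.D s = 2 * j' := hj'
    have hA : L.A s ^ m = _ := hA
    obtain rfl : j' = j := by omega
    refine mem_poleSpace.2 ⟨by rw [← hD]; exact hs.gr, IsPoleVector.iff.2 ⟨m, hm, ?_⟩⟩
    rw [← hA]
    exact hs.gen.pow m
  have hbP : b ∈ poleSpace (W.gr (listProd X i l) (2 * j)) F q j := by
    have h2 : g + b ∈ poleSpace (W.gr (listProd X i l) (2 * j)) F q j := mem_poleSpace.2 ⟨ha, hP⟩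
    have h3 := Submodule.sub_mem _ h2 hgP
    rwa [add_sub_cancel_left] at h3
  have hb0 : b = 0 := by
    refine eq_zero_of_bad (F := F) (q := q) (j := j) (s := bad) ?_ hb (mem_poleSpace.1 hbP).2
    rintro v ⟨s, hs, hD, hS⟩
    refine ⟨L.A s, hs.gen, ?_⟩
    intro m hm hA
    exact hS ⟨j, hD, m, hm, hA⟩
  rw [hb0, add_zero]
  exact hgspan

end Pool.Agent.H447
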