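import Pool.Agent.H447R3.ChDefs
import Pool.Agent.H447R3.FgD

/-!
# The Tate conjecture for products of varieties with diagonalizable Galois action
-/

open CategoryTheory AlgebraicGeometry Finset

universe u v w x

namespace Pool.Agent.H447

open Pool.Agent.H914 VarClass Obj WeilCohomology

section Alg

variable {K : Type*} [Field K] {V : Type*} [AddCommGroup V] [Module K V] {Γ : Type*}

/-- A simultaneous eigenvector which is a combination of simultaneous eigenvectors for other
systems of eigenvalues is zero. -/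
lemma eq_zero_of_other (T : Γ → Module.End K V) (F : Filter Γ) (c₀ : Γ → K) {s : Set V}
    (hs : ∀ v ∈ s, ∃ c : Γ → K, (¬ ∀ᶠ g in F, c g = c₀ g) ∧ ∀ᶠ g in F, T g v = c g • v) {b : V}
    (hb : b ∈ Submodule.span K s) (hT : ∀ᶠ g in F, T g b = c₀ g • b) : b = 0 := by
  classical
  have key : ∀ l : List V,
      (∀ v ∈ l, ∃ c : Γ → K, (¬ ∀ᶠ g in F, c g = c₀ g) ∧ ∀ᶠ g in F, T g v = c g • v) →
      ∀ b : V, b = l.sum → (∀ᶠ g in F, T g b = c₀ g • b) → b = 0 := by
    intro l
    induction hn : l.length generalizing l with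
    | zero =>
      intro _ b hb _
      rw [List.length_eq_zero_iff.1 hn] at hb
      simpa using hb
    | succ n ih =>
      intro hl b hb hT
      obtain ⟨v, l', rfl⟩ : ∃ v l', l = v :: l' := by
        cases l with
        | nil => simp at hn
        | cons v l' => exact ⟨v, l', rfl⟩
      obtain ⟨c, hc, hv⟩ := hl v List.mem_cons_self
      have hl' : ∀ w ∈ l', ∃ c : Γ → K, (¬ ∀ᶠ g in F, c g = c₀ g) ∧
          ∀ᶠ g in F, T g w = c g • w := fun w hw => hl w (List.mem_cons_of_mem _ hw)
      choose! d hd hdw using hl'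
      have hall : ∀ᶠ g in F, ∀ w ∈ {w | w ∈ l'}, T g w = d w g • w :=
        (Filter.eventually_all_finite (List.finite_toSet l')).2 hdw
      have hfreq : ∃ᶠ g in F, c g ≠ c₀ g := by
        rw [Filter.not_eventually] at hc
        exact hc
      obtain ⟨g, hg, ⟨hvg, hbg⟩, hwg⟩ := (hfreq.and_eventually ((hv.and hT).and hall)).exists
      have hsub : T g b - c g • b = (l'.map (fun w => T g w - c g • w)).sum := by
        rw [hb, List.sum_cons, map_add, hvg, smul_add]
        have h1 : ∀ m : List V, (m.map (fun w => T g w - c g • w)).sum =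
            T g m.sum - c g • m.sum := by
          intro m
          induction m with
          | nil => simp
          | cons w m ihm =>
            rw [List.map_cons, List.sum_cons, List.sum_cons, ihm, map_add, smul_add]
            abel
        rw [h1]
        abel
      have h2 : T g b - c g • b = (c₀ g - c g) • b := by rw [hbg, sub_smul]
      have h3 : (c₀ g - c g) • b = 0 := by
        apply ih (l'.map (fun w => T g w - c g • w)) (by simpa using hn) ?_ _ (by rw [← h2, hsub])
        · filter_upwards [hT] with h hh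
          rw [map_smul, hh, smul_smul, smul_smul, mul_comm]
        · intro w' hw'
          obtain ⟨w, hw, rfl⟩ := List.mem_map.1 hw'
          refine ⟨d w, hd w hw, ?_⟩
          filter_upwards [hdw w hw] with h hh
          rw [hwg w hw, ← sub_smul, map_smul, hh, smul_smul, smul_smul, mul_comm]
      exact (smul_eq_zero.1 h3).resolve_left (sub_ne_zero.2 (Ne.symm hg))
  obtain ⟨l, hl, hlb⟩ : ∃ l : List V,
      (∀ v ∈ l, ∃ c : Γ → K, (¬ ∀ᶠ g in F, c g = c₀ g) ∧ ∀ᶠ g in F, T g v = c g • v) ∧
      b = l.sum := by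
    clear hT
    induction hb using Submodule.span_induction with
    | mem v hv => exact ⟨[v], by simpa using hs v hv, by simp⟩
    | zero => exact ⟨[], by simp, by simp⟩
    | add x y _ _ hx hy =>
      obtain ⟨l, hl, rfl⟩ := hx
      obtain ⟨m, hm, rfl⟩ := hy
      refine ⟨l ++ m, ?_, by simp⟩
      intro v hv
      rcases List.mem_append.1 hv with h | h
      · exact hl v h
      · exact hm v h
    | smul t x _ hx =>
      obtain ⟨l, hl, rfl⟩ := hx
      refine ⟨l.map (fun v => t • v), ?_, by rw [List.smul_sum]⟩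
      intro v' hv'
      obtain ⟨v, hv, rfl⟩ := List.mem_map.1 hv'
      obtain ⟨c, hc, hcv⟩ := hl v hv
      refine ⟨c, hc, ?_⟩
      filter_upwards [hcv] with g hg
      rw [map_smul, hg, smul_comm]
  exact key l hl b hlb hT

end Alg

variable {k : Type u} [Field k] {𝒱 : VarClass k} {ops : CycleOps 𝒱}

/-- A multiset of pairs of a degree and a system of eigenvalues: the sum of the degrees is even,
say `2 j`, and the product of the eigenvalues is `χ ^ j`. -/
def CharWord {K : Type*} [Field K] {Γ : Type*} {Λ : Type*} (F : Filter Γ) (χ : Γ → K)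
    (deg : Λ → ℕ) (ev : Λ → Γ → K) (s : Multiset Λ) : Prop :=
  ∃ j, (s.map deg).sum = 2 * j ∧ ∀ᶠ g in F, (s.map (fun x => ev x g)).prod = χ g ^ j

lemma charWord_sub {K : Type*} [Field K] {Γ : Type*} {Λ : Type*} (F : Filter Γ) (χ : Γ → K)
    (hχ : ∀ g, χ g ≠ 0) (deg : Λ → ℕ) (ev : Λ → Γ → K) (t u : Multiset Λ)
    (ht : CharWord F χ deg ev t) (hs : CharWord F χ deg ev (t + u)) : CharWord F χ deg ev u := by
  obtain ⟨j, hj, hA⟩ := ht
  obtain ⟨j', hj', hA'⟩ := hs
  rw [Multiset.map_add, Multiset.sum_add] at hj'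
  refine ⟨j' - j, by omega, ?_⟩
  filter_upwards [hA, hA'] with g h0 h1
  rw [Multiset.map_add, Multiset.prod_add, h0] at h1
  have h2 : χ g ^ j' = χ g ^ j * χ g ^ (j' - j) := by
    rw [← pow_add]
    congr 1
    omega
  rw [h2] at h1
  exact mul_left_cancel₀ (pow_ne_zero _ (hχ g)) h1

/-- **The Tate conjecture for all products from boundedly many factors, diagonalizable case.** -/
theorem tate_characters (W : WeilCohomology.{u, v} ops) {Γ : Type x} (F : Filter Γ) (χ : Γ → W.K)
    (hχ : ∀ g, χ g ≠ 0) (C : Set (ℕ × (Γ → W.K))) (hC : C.Finite) :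
    ∃ N : ℕ, ∀ {ι : Type w} (X : ι → 𝒱.Obj) (A : ProductAction W X Γ),
      SpannedByEigenclasses A F C → (∀ i l, l.length < N → TateOnProduct A F χ i l) →
      ∀ i l, TateOnProduct A F χ i l := by
  classical
  have : Finite C := hC.to_subtype
  obtain ⟨N, hN⟩ := dickson (Λ := C) (CharWord F χ (fun p => p.1.1) (fun p => p.1.2))
    (fun t u => charWord_sub F χ hχ _ _ t u)
  refine ⟨N, ?_⟩
  intro ι X A hspan hT i l
  have hex : ∀ i, ∃ (n : ℕ) (v : Fin n → W.H (X i)) (p : Fin n → C),
      (∀ a, IsEigenclass A F i (p a).1 (v a)) ∧ Submodule.span W.K (Set.range v) = ⊤ ∧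
        ∀ a, v a ≠ 0 := by
    intro i
    obtain ⟨v, hv, hsp, hli⟩ := Submodule.exists_fun_fin_finrank_span_eq W.K
      {v : W.H (X i) | ∃ p ∈ C, IsEigenclass A F i p v}
    choose p hp hpv using hv
    exact ⟨_, v, fun a => ⟨p a, hp a⟩, hpv, by rw [hsp]; exact hspan i, fun a => hli.ne_zero a⟩
  choose n v p hv hsp hne using hex
  let L : Letters W X (fun i => 𝟙 (X i)) :=
    { n := n
      vec := v
      deg := fun i a => (p i a).1.1
      ev := fun _ _ => 1
      mem := fun i a => (hv i a).1
      gen := fun i a => ⟨1, by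
        rw [pow_one, map_one, LinearMap.sub_apply, Module.End.one_apply]
        change W.map (𝟙 (X i)) (v i a) - v i a = 0
        rw [W.map_id, sub_self]⟩
      span := hsp
      ne_zero := hne }
  let r : L.Λ → C := fun y => p y.1 y.2
  let Tw : Multiset L.Λ → Prop := fun s =>
    CharWord F χ (fun p : C => p.1.1) (fun p => p.1.2) (s.map r)
  have hTw : ∀ s, Tw s ↔ ∃ j, L.D s = 2 * j ∧
      ∀ᶠ g in F, (s.map (fun y => (r y).1.2 g)).prod = χ g ^ j := by
    intro s
    change (∃ j, ((s.map r).map _).sum = 2 * j ∧ ∀ᶠ g in F, ((s.map r).map _).prod = _) ↔ _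
    simp only [Multiset.map_map]
    rfl
  have hEig : ∀ {i l a s}, IsMon L i l a s → ∀ᶠ g in F, A.op i l g a =
      (s.map (fun y => (r y).1.2 g)).prod • a := by
    intro i l a s h
    induction h with
    | one i x =>
      filter_upwards [(hv i x).2] with g hg
      rw [Multiset.map_singleton, Multiset.prod_singleton]
      exact hg
    | cons i j l x a s _ ih =>
      filter_upwards [(hv i x).2, ih] with g hg ihg
      have h1 : A.op i (j :: l) g (W.map (fst (X i) (listProd X j l)) (L.vec i x) *
          W.map (snd (X i) (listProd X j l)) a) =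
          W.map (fst (X i) (listProd X j l)) (A.op i [] g (L.vec i x)) *
            W.map (snd (X i) (listProd X j l)) (A.op j l g a) :=
        A.op_cons i j l g (L.vec i x) a
      have h2 : A.op i [] g (L.vec i x) = (r ⟨i, x⟩).1.2 g • L.vec i x := hg
      rw [Multiset.map_cons, Multiset.prod_cons]
      refine h1.trans ?_
      rw [h2, ihg, map_smul, map_smul, smul_mul_smul_comm]
      rfl
  -- monomials
  have hmon : ∀ n : ℕ, ∀ s : Multiset L.Λ, Multiset.card s ≤ n → Tw s →
      ∀ (j : ℕ), L.D s = 2 * j → ∀ i l a, IsMon L i l a s →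
        a ∈ spanCycles W (listProd X i l) j := by
    intro n
    induction n with
    | zero =>
      intro s hs _ j _ i l a ha
      have := ha.card
      omega
    | succ n ih =>
      intro s hs hS j hj i l a ha
      by_cases hsN : N < Multiset.card s
      · obtain ⟨t', u', htu, ht0, hu0, ht, hu⟩ := hN _ hS (by rwa [Multiset.card_map])
        obtain ⟨t, u, rfl, rfl, rfl⟩ := exists_lift r s t' u' htu
        have ht0' : t ≠ 0 := by rintro rfl; exact ht0 (Multiset.map_zero _)
        have hu0' : u ≠ 0 := by rintro rfl; exact hu0 (Multiset.map_zero _)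
        have h1 := Multiset.card_pos.2 ht0'
        have h2 := Multiset.card_pos.2 hu0'
        rw [Multiset.card_add] at hs
        obtain ⟨i₁, l₁, b, i₂, l₂, c, p', r', ε, hb, hc, rfl⟩ := ha.split t u rfl ht0' hu0'
        obtain ⟨j₁, hj₁, _⟩ := (hTw t).1 ht
        obtain ⟨j₂, hj₂, _⟩ := (hTw u).1 hu
        have hb' := ih t (by omega) ht j₁ hj₁ i₁ l₁ b hb
        have hc' := ih u (by omega) hu j₂ hj₂ i₂ l₂ c hc
        rw [L.D_add] at hj
        obtain rfl : j = j₁ + j₂ := by omega
        exact Submodule.smul_mem _ _ (span_mul (span_pull p' hb') (span_pull r' hc'))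
      · have hcard := ha.card
        apply hT i l (by omega) j a
        · rw [← hj]; exact ha.gr
        · obtain ⟨j', hj', hA⟩ := (hTw s).1 hS
          obtain rfl : j' = j := by omega
          change ∀ᶠ g in F, A.op i l g a = (χ ^ j') g • a
          filter_upwards [hEig ha, hA] with g h3 h4
          rw [h3, h4, Pi.pow_apply]
  intro j a ha hP
  set good : Set (W.H (listProd X i l)) := {v | ∃ s, IsMon L i l v s ∧ L.D s = 2 * j ∧ Tw s}
    with hgood
  set bad : Set (W.H (listProd X i l)) := {v | ∃ s, IsMon L i l v s ∧ L.D s = 2 * j ∧ ¬ Tw s}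
    with hbad
  have hdec : ∀ x, proj (W.isInternal (listProd X i l)) (2 * j) x ∈
      Submodule.span W.K good ⊔ Submodule.span W.K bad := by
    intro x
    have hx : x ∈ Submodule.span W.K {a | ∃ s, IsMon L i l a s} := by rw [span_mon]; trivial
    induction hx using Submodule.span_induction with
    | mem x hx =>
      obtain ⟨s, hs⟩ := hx
      by_cases hD : L.D s = 2 * j
      · have h1 := hs.gr
        rw [hD] at h1
        rw [proj_same _ h1]
        by_cases hS : Tw s
        · exact Submodule.mem_sup_left (Submodule.subset_span ⟨s, hs, hD, hS⟩)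
        · exact Submodule.mem_sup_right (Submodule.subset_span ⟨s, hs, hD, hS⟩)
      · rw [proj_ne _ hs.gr hD]
        exact Submodule.zero_mem _
    | zero => rw [map_zero]; exact Submodule.zero_mem _
    | add x y _ _ hx hy => rw [map_add]; exact Submodule.add_mem _ hx hy
    | smul c x _ hx => rw [map_smul]; exact Submodule.smul_mem _ _ hx
  have h1 := hdec a
  rw [proj_same _ ha] at h1
  obtain ⟨g, hg, b, hb, rfl⟩ := Submodule.mem_sup.1 h1
  have hgspan : g ∈ spanCycles W (listProd X i l) j := by
    refine Submodule.span_le.2 ?_ hg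
    rintro v ⟨s, hs, hD, hS⟩
    exact hmon _ s le_rfl hS j hD i l v hs
  have hgP : ∀ᶠ γ in F, A.op i l γ g = χ γ ^ j • g := by
    clear hP h1 ha hgspan
    induction hg using Submodule.span_induction with
    | mem v hv =>
      obtain ⟨s, hs, hD, hS⟩ := hv
      obtain ⟨j', hj', hA⟩ := (hTw s).1 hS
      obtain rfl : j' = j := by omega
      filter_upwards [hEig hs, hA] with γ h3 h4
      rw [h3, h4]
    | zero => exact Filter.Eventually.of_forall fun γ => by rw [map_zero, smul_zero]
    | add x y _ _ hx hy =>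
      filter_upwards [hx, hy] with γ h3 h4
      rw [map_add, h3, h4, smul_add]
    | smul c x _ hx =>
      filter_upwards [hx] with γ h3
      rw [map_smul, h3, smul_comm]
  have hb0 : b = 0 := by
    refine eq_zero_of_other (T := fun γ => A.op i l γ) (F := F) (c₀ := fun γ => χ γ ^ j)
      (s := bad) ?_ hb ?_
    · rintro v ⟨s, hs, hD, hS⟩
      refine ⟨fun γ => (s.map (fun y => (r y).1.2 γ)).prod, ?_, hEig hs⟩
      intro hcon
      exact hS ((hTw s).2 ⟨j, hD, hcon⟩)
    · have hP' : ∀ᶠ γ in F, A.op i l γ (g + b) = χ γ ^ j • (g + b) := hP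
      filter_upwards [hP', hgP] with γ h2 h3
      rw [map_add, h3, smul_add] at h2
      exact add_left_cancel h2
  rw [hb0, add_zero]
  exact hgspan

end Pool.Agent.H447
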