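import Pool.Agent.H447R3.FgDefs
import Mathlib.Order.Filter.Basic

/-!
# Diagonalizable actions on the cohomology of products: definitions
-/

open CategoryTheory AlgebraicGeometry

universe u v w x

namespace Pool.Agent.H447

section Alg

variable {K : Type*} [Field K] {V : Type*} [AddCommGroup V] [Module K V] {Γ : Type*}

/-- All `g` in some member of the filter `F` act on the vector `a` by the scalar `c g`. -/
def ActsLocally (T : Γ → Module.End K V) (F : Filter Γ) (c : Γ → K) (a : V) : Prop :=
  ∀ᶠ g in F, T g a = c g • a

variable (K) in
/-- The vectors in the set `s` generate the vector space `V`. -/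
def Generates (s : Set V) : Prop := Submodule.span K s = ⊤

variable {A B C : Type*} [Ring A] [Algebra K A] [Ring B] [Algebra K B] [Ring C] [Algebra K C]

/-- The operator `T` maps the exterior product `p a * q b` to the exterior product of `R a` and
`S b`. -/
def IsExterior (p : A →ₐ[K] C) (q : B →ₐ[K] C) (R : Module.End K A) (S : Module.End K B)
    (T : Module.End K C) : Prop :=
  ∀ a b, T (p a * q b) = p (R a) * q (S b)

end Alg

open Pool.Agent.H914 VarClass Obj WeilCohomology

variable {k : Type u} [Field k] {𝒱 : VarClass k} {ops : CycleOps 𝒱} {ι : Type w}

/-- Linear operators `op i l g`, indexed by `g : Γ`, on the cohomology of the products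
`listProd X i l` of the varieties `X i`, compatible with the Künneth formula: `g` maps the exterior
product of `a` and `b` to the exterior product of the images of `a` and `b`. (In the intended use:
`Γ` is the Galois group of a field of definition of the varieties `X i`.) -/
structure ProductAction (W : WeilCohomology.{u, v} ops) (X : ι → 𝒱.Obj) (Γ : Type x) where
  /-- the operators -/
  op : ∀ (i : ι) (l : List ι), Γ → Module.End W.K (W.H (listProd X i l))
  op_cons : ∀ (i j : ι) (l : List ι) (g : Γ), IsExterior (W.map (fst (X i) (listProd X j l)))
    (W.map (snd (X i) (listProd X j l))) (op i [] g) (op j l g) (op i (j :: l) g)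

variable {W : WeilCohomology.{u, v} ops} {X : ι → 𝒱.Obj} {Γ : Type x}

/-- The Tate conjecture in all codimensions for the product `listProd X i l`: for all `j` every
class of degree `2 j` on which all `g` in some member of the filter `F` act by `χ g ^ j` is a
`K`-linear combination of classes of algebraic cycles of codimension `j`. (In the intended use: `F`
is the filter of neighbourhoods of `1` in a Galois group, `χ` is the inverse of the cyclotomic
character, and these classes are the classes which are invariant under an open subgroup after the
`j`-th Tate twist.) -/
def TateOnProduct (A : ProductAction W X Γ) (F : Filter Γ) (χ : Γ → W.K) (i : ι) (l : List ι) :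
    Prop :=
  ∀ j : ℕ, ∀ a ∈ W.gr (listProd X i l) (2 * j), ActsLocally (A.op i l) F (χ ^ j) a →
    a ∈ spanCycles W (listProd X i l) j

/-- The vector `v` in the cohomology of `X i` is homogeneous of degree `p.1` and all `g` in some
member of the filter `F` act on it by the scalar `p.2 g`. -/
def IsEigenclass (A : ProductAction W X Γ) (F : Filter Γ) (i : ι) (p : ℕ × (Γ → W.K))
    (v : W.H (X i)) : Prop :=
  v ∈ W.gr (X i) p.1 ∧ ActsLocally (A.op i []) F p.2 v

/-- The cohomology of each `X i` is spanned by homogeneous vectors on which all `g` in some member
of the filter `F` act by scalars, where the degrees and the scalars are taken from the set `C`. -/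
def SpannedByEigenclasses (A : ProductAction W X Γ) (F : Filter Γ) (C : Set (ℕ × (Γ → W.K))) :
    Prop :=
  ∀ i, Generates W.K {v : W.H (X i) | ∃ p ∈ C, IsEigenclass A F i p v}

end Pool.Agent.H447
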