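import Pool.Agent.H447R3.SimA
import Pool.Agent.H447R3.DegB
import Pool.Agent.H914R2.GFrob
import Pool.Agent.H914R2.GMain

/-!
# The conjecture D for the square of a variety with simple spectrum
-/

open CategoryTheory AlgebraicGeometry Finset

universe u v

namespace Pool.Agent.H447

open Pool.Agent.H914 VarClass Obj WeilCohomology

variable {k : Type u} [Field k] {𝒱 : VarClass k} {ops : CycleOps 𝒱}
  {W : WeilCohomology.{u, v} ops} {X Y : 𝒱.Obj}

/-- Traces of products with homogeneous components. -/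
lemma tr_mul_proj {i j : ℕ} {a : W.H X} (ha : a ∈ W.gr X i) (b : W.H X) (hij : i + j = 2 * X.dim) :
    W.tr X (a * proj (W.isInternal X) j b) = W.tr X (a * b) := by
  refine gr_induction (W.isInternal X)
    (p := fun b => W.tr X (a * proj (W.isInternal X) j b) = W.tr X (a * b)) ?_ ?_ b
  · intro l b hb
    by_cases hl : l = j
    · subst hl
      rw [proj_same _ hb]
    · rw [proj_ne _ hb hl, mul_zero, map_zero, W.tr_eq_zero (W.mul_mem ha hb) (by omega)]
  · intro b b' hb hb'
    rw [map_add, mul_add, mul_add, map_add, map_add, hb, hb']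

lemma tr_proj_mul {i : ℕ} {c : W.H X} (hc : c ∈ W.gr X i) (b : W.H X) (j : ℕ) :
    W.tr X (proj (W.isInternal X) j b * c) = if j + i = 2 * X.dim then W.tr X (b * c) else 0 := by
  refine gr_induction (W.isInternal X)
    (p := fun b => W.tr X (proj (W.isInternal X) j b * c) =
      if j + i = 2 * X.dim then W.tr X (b * c) else 0) ?_ ?_ b
  · intro l b hb
    by_cases hl : l = j
    · subst hl
      rw [proj_same _ hb]
      split_ifs with h
      · rfl
      · exact W.tr_eq_zero (W.mul_mem hb hc) h
    · rw [proj_ne _ hb hl, zero_mul, map_zero]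
      split_ifs with h
      · rw [W.tr_eq_zero (W.mul_mem hb hc) (by omega)]
      · rfl
  · intro b b' hb hb'
    rw [map_add, add_mul, map_add, hb, hb', add_mul, map_add]
    split_ifs <;> simp

/-- The span of the algebraic classes. -/
def algSpan (W : WeilCohomology.{u, v} ops) (X : 𝒱.Obj) : Submodule W.K (W.H X) :=
  Submodule.span W.K (⋃ j, algClasses W X j)

lemma proj_algSpan {γ : W.H X} (hγ : γ ∈ algSpan W X) (i : ℕ) :
    ∃ q : ℕ, (i = 2 * q ∧ proj (W.isInternal X) i γ ∈ spanCycles W X q) ∨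
      proj (W.isInternal X) i γ = 0 := by
  rcases Nat.even_or_odd i with ⟨q, hq⟩ | hodd
  · refine ⟨q, Or.inl ⟨by omega, ?_⟩⟩
    rw [algSpan] at hγ
    induction hγ using Submodule.span_induction with
    | mem x hx =>
      obtain ⟨j, z, hz, rfl⟩ := Set.mem_iUnion.1 hx
      by_cases hj : 2 * j = i
      · have : j = q := by omega
        subst this
        rw [← hj, proj_same _ (W.cl_mem hz)]
        exact mem_span_cl hz
      · rw [proj_ne _ (W.cl_mem hz) hj]
        exact Submodule.zero_mem _
    | zero => rw [map_zero]; exact Submodule.zero_mem _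
    | add x y _ _ hx hy => rw [map_add]; exact Submodule.add_mem _ hx hy
    | smul a x _ hx => rw [map_smul]; exact Submodule.smul_mem _ _ hx
  · refine ⟨0, Or.inr ?_⟩
    rw [algSpan] at hγ
    induction hγ using Submodule.span_induction with
    | mem x hx =>
      obtain ⟨j, z, hz, rfl⟩ := Set.mem_iUnion.1 hx
      apply proj_ne _ (W.cl_mem hz)
      rintro rfl
      exact (Nat.not_even_iff_odd.2 hodd) (even_two_mul j)
    | zero => rw [map_zero]
    | add x y _ _ hx hy => rw [map_add, hx, hy, add_zero]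
    | smul a x _ hx => rw [map_smul, hx, smul_zero]

/-- Under the conjecture D the pairing is nondegenerate on the span of the algebraic classes. -/
lemma eq_zero_of_orth (hX : HomEqNum W X) {γ : W.H X} (hγ : γ ∈ algSpan W X)
    (h0 : ∀ c ∈ algSpan W X, W.tr X (c * γ) = 0) : γ = 0 := by
  have h1 : ∀ i, proj (W.isInternal X) i γ = 0 := by
    intro i
    obtain ⟨q, ⟨rfl, hq⟩ | h⟩ := proj_algSpan hγ i
    · by_cases hqn : q ≤ X.dim
      · apply HomEqNumIn.span (p := X.dim - q) (by omega) (hX q hqn) hq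
        intro w hw
        rw [tr_mul_proj (W.cl_mem hw) γ (by omega)]
        exact h0 _ (Submodule.subset_span (Set.mem_iUnion.2 ⟨_, w, hw, rfl⟩))
      · have := proj_mem (W.isInternal X) (2 * q) γ
        rw [W.gr_eq_bot X _ (by omega)] at this
        exact (Submodule.mem_bot _).1 this
    · exact h
  have h2 := congrArg (fun F => F γ) (sum_proj (W.isInternal X) (W_hbd (W := W) (X := X)))
  rw [LinearMap.sum_apply, Finset.sum_eq_zero (fun i _ => h1 i), Module.End.one_apply] at h2
  exact h2.symm

lemma mem_transcendental {t : W.H X} : t ∈ transcendental W X ↔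
    ∀ j, ∀ c ∈ algClasses W X j, W.tr X (t * c) = 0 := by
  rw [← Tpart_eq]
  rfl

/-- The cohomology is spanned by algebraic and transcendental classes. -/
lemma exists_decomp (hX : HomEqNum W X) (v : W.H X) :
    ∃ a ∈ algSpan W X, v - a ∈ transcendental W X := by
  obtain ⟨a, ha, ha'⟩ := exists_rep_of_orth (bil W X) (algSpan W X) (algSpan W X)
    (W.tr X ∘ₗ LinearMap.mulLeft W.K v) (by
      intro γ hγ h0
      rw [eq_zero_of_orth hX hγ (fun c hc => h0 c hc), map_zero])
  refine ⟨a, ha, mem_transcendental.2 ?_⟩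
  intro j c hc
  have h1 := ha' c (Submodule.subset_span (Set.mem_iUnion.2 ⟨j, hc⟩))
  rw [bil_apply, LinearMap.comp_apply, LinearMap.mulLeft_apply] at h1
  rw [sub_mul, map_sub, h1, sub_self]

lemma par_transcendental {t : W.H X} (ht : t ∈ transcendental W X) :
    par (W.isInternal X) t ∈ transcendental W X := by
  rw [par, scal_eq_sum (W.isInternal X) (W_hbd (W := W) (X := X)), LinearMap.sum_apply]
  apply Submodule.sum_mem
  intro i _
  rw [LinearMap.smul_apply]
  apply Submodule.smul_mem
  rw [mem_transcendental]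
  rintro j c ⟨z, hz, rfl⟩
  rw [tr_proj_mul (W.cl_mem hz)]
  split_ifs
  · exact mem_transcendental.1 ht j _ ⟨z, hz, rfl⟩
  · rfl

/-- A numerically trivial correspondence of degree zero kills the algebraic classes. -/
lemma kills_alg (hX : HomEqNum W X) {z : (X.prod X).Cycles} (hz : (X.prod X).IsCyc X.dim z)
    (hnum : ∀ w, (X.prod X).IsCyc X.dim w → (X.prod X).V.degCycle (ops.mul z w) = 0) {l : ℕ}
    {c : W.H X} (hc : c ∈ algClasses W X l) : W.corr (W.cl _ z) c = 0 := by
  have h1 := corr_alg (r := 0) hz hc (by omega) (Nat.zero_le _)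
  rw [Nat.sub_zero] at h1
  obtain ⟨y, hy, hy'⟩ := h1
  rw [← hy']
  by_cases hl : l ≤ X.dim
  · apply hX l hl y hy
    intro w hw
    have h2 := tr_mul_cl (W := W) hy hw (by omega)
    obtain ⟨x, hx, rfl⟩ := hc
    have hcyc : (X.prod X).IsCyc X.dim
        (ops.mul (ops.pull (fst X X) x) (ops.pull (snd X X) w)) := by
      have := ops.mul_mem (ops.pull_mem (fst X X) hx) (ops.pull_mem (snd X X) hw)
      rwa [show l + (X.dim - l) = X.dim by omega] at this
    have h3 := tr_mul_cl (W := W) hz hcyc (by rw [dim_prod])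
    rw [hnum _ hcyc, Rat.cast_zero, W.cl_mul, W.cl_pull, W.cl_pull, ← mul_assoc, ← W.tr_push,
      ← corr_apply, ← hy'] at h3
    rw [h3] at h2
    exact_mod_cast h2.symm
  · have := W.cl_mem hy
    rw [W.gr_eq_bot X _ (by omega)] at this
    exact (Submodule.mem_bot _).1 this

/-- The transpose of a numerically trivial cycle is numerically trivial. -/
lemma num_swap (W : WeilCohomology.{u, v} ops) {z : (X.prod X).Cycles}
    (hz : (X.prod X).IsCyc X.dim z)
    (hnum : ∀ w, (X.prod X).IsCyc X.dim w → (X.prod X).V.degCycle (ops.mul z w) = 0)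
    (w : (X.prod X).Cycles) (hw : (X.prod X).IsCyc X.dim w) :
    (X.prod X).V.degCycle (ops.mul (ops.pull (swap X X) z) w) = 0 := by
  have h1 := tr_mul_cl (W := W) (ops.pull_mem (swap X X) hz) hw (by rw [dim_prod])
  have h2 := tr_mul_cl (W := W) hz (ops.pull_mem (swap X X) hw) (by rw [dim_prod])
  rw [hnum _ (ops.pull_mem _ hw), Rat.cast_zero, W.cl_pull, ← tr_swap (X := X) (Y := X),
    map_mul (W.map (swap X X)), map_swap_swap, ← W.cl_pull, h1] at h2
  exact_mod_cast h2

/-- **The conjecture D in the middle codimension on `X × X`**, for a variety `X` satisfying the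
conjecture D with an endomorphism acting like a Frobenius with simple spectrum on the
transcendental cohomology. -/
theorem homEqNumIn_mid {D : X.Cycles} (hD : X.IsCyc 1 D) (hHL : HardLefschetz W X D)
    (hX : HomEqNum W X) {f : X ⟶ X} {q : ℕ} (hq : 0 < q)
    (hF : FrobeniusOnCycles W (X.prod X) (squareMap f) q) (hS : SimpleSpectrum W X f) :
    HomEqNumIn W (X.prod X) X.dim := by
  intro z hz hnum
  rw [dim_prod, Nat.add_sub_cancel] at hnum
  by_cases h1 : (1 : W.H X) = 0
  · have h2 : (1 : W.H (X.prod X)) = 0 := by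
      rw [← map_one (W.map (fst X X)), h1, map_zero]
    rw [← one_mul (W.cl (X.prod X) z), h2, zero_mul]
  obtain ⟨b, hbalg, hb0⟩ := exists_top (W := W) hD hHL h1
  have hbex : ∃ b : W.H X, W.tr X b ≠ 0 := ⟨b, hb0⟩
  obtain ⟨zb, hzb, hzb'⟩ := hbalg
  obtain ⟨mb, hmb1, hmb⟩ := frob_single hF hbex hzb
  rw [hzb'] at hmb
  obtain ⟨mz, hmz1, hmz⟩ := frob_square hF hz
  set M := mb * mz with hM
  have hM1 : 1 ≤ M := Nat.one_le_iff_ne_zero.2 (mul_ne_zero (by omega) (by omega))
  set ψ : X ⟶ X := iter f M with hψ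
  set Q : W.K := (q : W.K) ^ (M * X.dim) with hQ
  have hQ0 : Q ≠ 0 := pow_ne_zero _ (by exact_mod_cast hq.ne')
  have hψb : W.map ψ b = Q • b := by
    have := hmb mz
    exact this
  have hψz : W.map (squareMap ψ) (W.cl _ z) = Q • W.cl _ z := by
    have := hmz mb
    rw [mul_comm mz mb] at this
    exact this
  set G : Module.End W.K (W.H X) := (W.map ψ).toLinearMap with hG
  have hδ : ∀ a, W.tr X (W.map ψ a) = Q * W.tr X a := by
    intro a
    refine tr_map_of_top (b := b) ?_ hb0 hψb a
    rw [← hzb']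
    exact W.cl_mem hzb
  set T : Module.End W.K (W.H X) := W.corr (W.cl _ z) with hT
  have hcomm : T * G = G * T := by
    apply LinearMap.ext
    intro a
    have h2 := corr_squareMap hδ (W.cl _ z) a
    rw [hψz, corr_smul, LinearMap.smul_apply] at h2
    change W.corr (W.cl _ z) (W.map ψ a) = W.map ψ (W.corr (W.cl _ z) a)
    exact smul_right_injective _ hQ0 h2
  have hkill : ∀ a ∈ algSpan W X, T a = 0 := by
    intro a ha
    rw [algSpan] at ha
    induction ha using Submodule.span_induction with
    | mem x hx =>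
      obtain ⟨j, hj⟩ := Set.mem_iUnion.1 hx
      exact kills_alg hX hz hnum hj
    | zero => rw [map_zero]
    | add x y _ _ hx hy => rw [map_add, hx, hy, add_zero]
    | smul a x _ hx => rw [map_smul, hx, smul_zero]
  have himage : ∀ x, T x ∈ transcendental W X := by
    intro x
    rw [mem_transcendental]
    intro j c hc
    rw [hT, tr_corr_swap (W.cl_mem hz), ← W.cl_pull, kills_alg hX (ops.pull_mem _ hz)
      (num_swap W hz hnum) hc, mul_zero, map_zero]
  have hropG : ROp W X 0 G := rop_map ψ
  have hropGk : ∀ i : ℕ, ROp W X 0 (G ^ i) := fun i =>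
    rop_opAlg.cast (rop_opAlg.pow hropG i) (by simp)
  have htr : ∀ i : ℕ, LinearMap.trace W.K (W.H X) (par (W.isInternal X) * (T * G ^ i)) = 0 := by
    intro i
    obtain ⟨Y, ⟨r, hr, w, hw, hY⟩ | ⟨hd, -⟩, hYG⟩ := hropGk i
    · obtain rfl : r = X.dim := by omega
      rw [← hYG, hY, hT, str_eq_deg (by omega) hz hw, hnum _ (ops.pull_mem _ hw), Rat.cast_zero]
    · omega
  obtain ⟨hst, hsq⟩ := hS
  set A := (W.map f).toLinearMap.restrict hst with hA
  have hApow : ∀ (i : ℕ) (y : transcendental W X), ((A ^ i) y : W.H X) =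
      ((W.map f).toLinearMap ^ i) y := fun i y => restrict_pow hst i y
  have hGM : G = (W.map f).toLinearMap ^ M := by
    apply LinearMap.ext
    intro a
    exact map_iter f M a
  have hstG : ∀ a ∈ transcendental W X, G a ∈ transcendental W X := fun a ha => by
    rw [hGM, ← hApow M ⟨a, ha⟩]; exact Subtype.mem _
  have hAG : A ^ M = G.restrict hstG := by
    apply LinearMap.ext
    intro y
    apply Subtype.ext
    rw [hApow]
    change _ = G y
    rw [hGM]
  have hsimple : HasSimple (G.restrict hstG) := by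
    rw [← hAG]
    exact ⟨(A ^ M).charpoly, hsq M hM1, LinearMap.charpoly_natDegree _,
      fun R hR => charpoly_dvd_of_squarefree (hsq M hM1) hR⟩
  have hT0 := eq_zero_on (W.isInternal X) (by
      have := rop_opAlg.hom hropG
      simpa using this) hstG himage
    (fun x hx => par_transcendental hx) hcomm hsimple htr
  apply corr_inj
  apply LinearMap.ext
  intro v
  rw [LinearMap.zero_apply]
  obtain ⟨a, ha, hva⟩ := exists_decomp hX v
  have h3 : T v = T (v - a) + T a := by rw [← map_add, sub_add_cancel]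
  change T v = 0
  rw [h3, hkill a ha, hT0 _ hva, add_zero]

/-- The conjecture D in codimension `n + 1` on `X × X` implies D for `X`. -/
theorem homEqNum_of_square {D : X.Cycles} (hD : X.IsCyc 1 D) (hHL : HardLefschetz W X D)
    (h : HomEqNumIn W (X.prod X) (X.dim + 1)) : HomEqNum W X := by
  intro j hj z hz hnum
  by_cases h1 : (1 : W.H X) = 0
  · rw [← one_mul (W.cl X z), h1, zero_mul]
  obtain ⟨b, hbalg, hb0⟩ := exists_top (W := W) hD hHL h1
  have hdp : ∀ i, X.IsCyc i (divPow ops D i X.V.fundCycle) := by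
    intro i
    have := divPow_mem (ops := ops) hD i X.V.fundCycle_mem
    rwa [zero_add] at this
  have htop : W.tr X ((LinearMap.mulLeft W.K (W.cl X D) ^ X.dim) 1) ≠ 0 := by
    intro h0
    have hmem : (LinearMap.mulLeft W.K (W.cl X D) ^ X.dim) 1 ∈ W.gr X (2 * X.dim) := by
      have := W.cl_mem (hdp X.dim)
      rwa [cl_divPow, W.cl_fund] at this
    have h2 := eq_zero_of_top hmem h0
    apply h1
    exact (hHL 0 (Nat.zero_le _)).1 1 (W.one_mem X) (by rw [Nat.sub_zero]; exact h2)
  have hpw : ∀ i, (LinearMap.mulLeft W.K (W.cl X D) ^ i) 1 = W.cl X D ^ i := by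
    intro i
    rw [LinearMap.pow_mulLeft, LinearMap.mulLeft_apply, mul_one]
  rcases Nat.eq_zero_or_pos j with rfl | hj0
  · have h2 := W.cl_mem hz
    rw [mul_zero, W.gr_zero, Submodule.mem_span_singleton] at h2
    obtain ⟨s, hs⟩ := h2
    have h3 := tr_mul_cl (W := W) hz (hdp X.dim) (by omega)
    rw [hnum _ (by rw [Nat.sub_zero]; exact hdp X.dim), Rat.cast_zero, ← hs, smul_mul_assoc,
      one_mul, map_smul, cl_divPow, W.cl_fund, smul_eq_mul] at h3
    rcases mul_eq_zero.1 h3 with h4 | h4
    · rw [← hs, h4, zero_smul]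
    · exact absurd h4 htop
  · set e := X.dim + 1 - j with he
    set E := divPow ops D e X.V.fundCycle with hE
    have hclE : W.cl X E = W.cl X D ^ e := by rw [hE, cl_divPow, W.cl_fund, hpw]
    have hEc : X.IsCyc e E := hdp e
    set Z := ops.mul (ops.pull (fst X X) z) (ops.pull (snd X X) E) with hZ
    have hZc : (X.prod X).IsCyc (X.dim + 1) Z := by
      have := ops.mul_mem (ops.pull_mem (fst X X) hz) (ops.pull_mem (snd X X) hEc)
      rwa [show j + e = X.dim + 1 by omega] at this
    have hcl0 : W.cl _ Z = 0 := by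
      apply h Z hZc
      intro w hw
      rw [dim_prod] at hw
      have h2 := tr_mul_cl (W := W) hZc hw (by rw [dim_prod]; omega)
      have hYc : X.IsCyc (X.dim - j) (ops.push (fst X X) (ops.mul (ops.pull (snd X X) E) w)) := by
        apply ops.push_mem _ (ops.mul_mem (ops.pull_mem (snd X X) hEc) hw)
        rw [dim_prod]
        omega
      have h3 := tr_mul_cl (W := W) hz hYc (by omega)
      rw [hnum _ hYc, Rat.cast_zero, W.even_comm (W.cl_mem hz), W.cl_push, W.tr_push,
        ← W.even_comm (W.map_mem (fst X X) (W.cl_mem hz)), ← W.cl_pull, W.cl_mul, ← mul_assoc,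
        ← W.cl_mul] at h3
      rw [← hZ] at h3
      rw [h3] at h2
      exact_mod_cast h2.symm
    apply W.nondeg
    intro a
    have h4 : W.tr X (W.cl X z * a) * W.tr X (W.cl X E * W.cl X D ^ (j - 1)) = 0 := by
      rw [← W.tr_prod (X := X) (Y := X), map_mul (W.map (fst X X)), map_mul (W.map (snd X X)),
        mul_assoc, ← mul_assoc (W.map (fst X X) a),
        ← W.even_comm (W.map_mem (snd X X) (W.cl_mem hEc)), ← mul_assoc, ← mul_assoc,
        ← W.cl_pull, ← W.cl_pull, ← W.cl_mul, ← hZ, hcl0, zero_mul, zero_mul, map_zero]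
    rcases mul_eq_zero.1 h4 with h5 | h5
    · exact h5
    · exfalso
      apply htop
      rw [hpw, ← h5, hclE, ← pow_add, show e + (j - 1) = X.dim by omega]

/-- **D for the square of a variety with simple spectrum.** -/
theorem simple_tfae {D : X.Cycles} (hD : X.IsCyc 1 D) (hHL : HardLefschetz W X D)
    {f : X ⟶ X} {q : ℕ} (hq : 0 < q)
    (hF : FrobeniusOnCycles W (X.prod X) (squareMap f) q) (hS : SimpleSpectrum W X f) :
    List.TFAE [HomEqNum W (X.prod X), HomEqNumIn W (X.prod X) (X.dim + 1),
      HomEqNum W X ∧ LefschetzB W X D] := by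
  have h12 : HomEqNum W (X.prod X) ↔
      HomEqNumIn W (X.prod X) X.dim ∧ HomEqNumIn W (X.prod X) (X.dim + 1) :=
    (d_tfae hD hHL).out 0 1
  have h13 : HomEqNum W (X.prod X) ↔ HomEqNumIn W (X.prod X) X.dim ∧ LefschetzB W X D :=
    (d_tfae hD hHL).out 0 2
  tfae_have 1 → 2 := fun h => (h12.1 h).2
  tfae_have 2 → 3 := fun h => ⟨homEqNum_of_square hD hHL h, lefschetzB_of_homEqNumIn hD hHL h⟩
  tfae_have 3 → 1 := fun h => h13.2 ⟨homEqNumIn_mid hD hHL h.1 hq hF hS, h.2⟩
  tfae_finish

end Pool.Agent.H447
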