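import Pool.Agent.H447R3.PoDefs

/-!
# Gram matrices
-/

open Finset

namespace Pool.Agent.H447

section Gram

variable {K : Type*} [Field K] {E : Type*} [AddCommGroup E] [Module K E]
  {B : E →ₗ[K] E →ₗ[K] K}

/-- A linear relation between the rows. -/
lemma coeff_zero {r : ℕ} {u u' : Fin r → E}
    (hG : (Matrix.of fun i l => B (u i) (u' l)).det ≠ 0) {c : Fin r → K}
    (h : ∀ l, B (∑ i, c i • u i) (u' l) = 0) : c = 0 := by
  apply Matrix.eq_zero_of_vecMul_eq_zero hG
  ext l
  rw [Matrix.vecMul, dotProduct, Pi.zero_apply, ← h l, map_sum, LinearMap.sum_apply]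
  apply Finset.sum_congr rfl
  intro i _
  rw [map_smul, LinearMap.smul_apply, smul_eq_mul]
  rfl

lemma gram_indep {r : ℕ} {u u' : Fin r → E}
    (hG : (Matrix.of fun i l => B (u i) (u' l)).det ≠ 0) : LinearIndependent K u := by
  rw [Fintype.linearIndependent_iff]
  intro g hg i
  have := coeff_zero hG (c := g) (fun l => by rw [hg, map_zero, LinearMap.zero_apply])
  rw [this]
  rfl

/-- A nonsingular Gram matrix of the size of the dimension. -/
lemma gram_nondeg {r : ℕ} {u u' : Fin r → E}
    (hG : (Matrix.of fun i l => B (u i) (u' l)).det ≠ 0) {U : Submodule K E} [Module.Finite K U]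
    (hU : Module.finrank K U ≤ r) (hu : ∀ i, u i ∈ U) :
    Submodule.span K (Set.range u) = U ∧ ∀ x ∈ U, (∀ l, B x (u' l) = 0) → x = 0 := by
  have hle : Submodule.span K (Set.range u) ≤ U := by
    rw [Submodule.span_le]
    rintro _ ⟨i, rfl⟩
    exact hu i
  have hspan : Submodule.span K (Set.range u) = U := by
    apply Submodule.eq_of_le_of_finrank_le hle
    rw [finrank_span_eq_card (gram_indep hG), Fintype.card_fin]
    exact hU
  refine ⟨hspan, ?_⟩
  intro x hx h
  rw [← hspan, Submodule.mem_span_range_iff_exists_fun] at hx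
  obtain ⟨c, rfl⟩ := hx
  rw [coeff_zero hG h]
  simp

lemma gram_flip {r : ℕ} {u u' : Fin r → E}
    (hG : (Matrix.of fun i l => B (u i) (u' l)).det ≠ 0) :
    (Matrix.of fun i l => B.flip (u' i) (u l)).det ≠ 0 := by
  rw [← Matrix.det_transpose] at hG
  exact hG

/-- Existence of a nonsingular Gram matrix. -/
lemma exists_gram {s s' : Set E} [Module.Finite K (Submodule.span K s)]
    (h : ∀ x ∈ Submodule.span K s, (∀ y ∈ s', B x y = 0) → x = 0) :
    ∃ u u' : Fin (Module.finrank K (Submodule.span K s)) → E, (∀ i, u i ∈ s) ∧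
      (∀ i, u' i ∈ s') ∧ (Matrix.of fun i l => B (u i) (u' l)).det ≠ 0 := by
  classical
  set U := Submodule.span K s with hU
  obtain ⟨u, hus, huspan, hui⟩ : ∃ f : Fin (Module.finrank K U) → E, (∀ i, f i ∈ s) ∧
      Submodule.span K (Set.range f) = U ∧ LinearIndependent K f :=
    Submodule.exists_fun_fin_finrank_span_eq K s
  set res : E → Module.Dual K U := fun y => (B.flip y) ∘ₗ U.subtype with hres
  set Φ : Set (Module.Dual K U) := res '' s' with hΦ
  have htop : Submodule.span K Φ = ⊤ := by
    by_contra hne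
    obtain ⟨ψ, hψ0, hψ⟩ := Submodule.exists_dual_map_eq_bot_of_lt_top (lt_top_iff_ne_top.2 hne)
      inferInstance
    obtain ⟨x, hx⟩ := (Module.evalEquiv K U).surjective ψ
    have hx0 : x = 0 := by
      have h1 := h x x.2 (by
        intro y hy
        have h2 : ψ (res y) = 0 := by
          have h3 : ψ (res y) ∈ Submodule.map ψ (Submodule.span K Φ) :=
            Submodule.mem_map_of_mem (Submodule.subset_span ⟨y, hy, rfl⟩)
          rw [hψ] at h3
          exact (Submodule.mem_bot _).1 h3
        rw [← hx] at h2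
        exact h2)
      exact Subtype.ext h1
    apply hψ0
    rw [← hx, hx0, map_zero]
  obtain ⟨φ, hφs, hφspan, hφi⟩ := Submodule.exists_fun_fin_finrank_span_eq K Φ
  have hdim : Module.finrank K (Submodule.span K Φ) = Module.finrank K U := by
    rw [htop, finrank_top]
    exact Subspace.dual_finrank_eq
  choose y hys hy using hφs
  refine ⟨u, fun i => y (Fin.cast hdim.symm i), hus, fun i => hys _, ?_⟩
  intro h0
  obtain ⟨v, hv0, hv⟩ := Matrix.exists_vecMul_eq_zero_iff.2 h0
  have huU : ∀ i, u i ∈ U := fun i => Submodule.subset_span (hus i)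
  set x : U := ∑ i, v i • (⟨u i, huU i⟩ : U) with hx
  have hxφ : ∀ l, φ l x = 0 := by
    intro l
    have h1 := congrFun hv (Fin.cast hdim l)
    rw [Matrix.vecMul, dotProduct, Pi.zero_apply] at h1
    rw [hx, map_sum, ← h1]
    apply Finset.sum_congr rfl
    intro i _
    rw [map_smul, smul_eq_mul, ← hy l]
    congr 1
  have hx0 : x = 0 := by
    apply Subtype.ext
    apply h x x.2
    intro z hz
    have h1 : res z ∈ Submodule.span K (Set.range φ) := by
      rw [hφspan]
      exact Submodule.subset_span ⟨z, hz, rfl⟩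
    have h2 : ∀ ψ ∈ Submodule.span K (Set.range φ), ψ x = 0 := by
      intro ψ hψ
      induction hψ using Submodule.span_induction with
      | mem ψ hψ =>
        obtain ⟨l, rfl⟩ := hψ
        exact hxφ l
      | zero => rfl
      | add a b _ _ ha hb => rw [LinearMap.add_apply, ha, hb, add_zero]
      | smul c a _ ha => rw [LinearMap.smul_apply, ha, smul_zero]
    exact h2 _ h1
  apply hv0
  rw [Fintype.linearIndependent_iff] at hui
  ext i
  apply hui v _ i
  have h3 := congrArg U.subtype hx0
  rw [hx, map_sum, map_zero] at h3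
  exact h3

end Gram

end Pool.Agent.H447
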