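import Pool.Agent.H447R3.FgDefs
import Pool.Agent.H447R3.PoA
import Pool.Agent.H914R2.Graded

/-!
# Linear algebra for the strong Tate conjecture for products
-/

open CategoryTheory AlgebraicGeometry Finset

namespace Pool.Agent.H447

open Pool.Agent.H914

section Alg

variable {K : Type*} [Field K] {V : Type*} [AddCommGroup V] [Module K V]

/-- The vector `a` is a generalized eigenvector of `F` for the eigenvalue `α` (or zero). -/
def GenEig (F : Module.End K V) (α : K) (a : V) : Prop :=
  ∃ N : ℕ, ((F - algebraMap K (Module.End K V) α) ^ N) a = 0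

lemma genEig_iff {F : Module.End K V} {α : K} {a : V} :
    GenEig F α a ↔ a ∈ F.maxGenEigenspace α := by
  rw [Module.End.mem_maxGenEigenspace]
  rfl

lemma GenEig.pow {F : Module.End K V} {α : K} {a : V} (h : GenEig F α a) (e : ℕ) :
    GenEig (F ^ e) (α ^ e) a := by
  obtain ⟨N, hN⟩ := h
  refine ⟨N, ?_⟩
  have := kill_pow F α (m := 1) (N := N) (a := a) (by rwa [pow_one]) e
  rwa [one_mul] at this

lemma IsPoleVector.iff {F : Module.End K V} {q j : ℕ} {a : V} :
    IsPoleVector F q j a ↔ ∃ m ≥ 1, GenEig (F ^ m) ((q : K) ^ (m * j)) a := Iff.rfl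

variable {V₁ : Type*} [AddCommGroup V₁] [Module K V₁] {V₂ : Type*} [AddCommGroup V₂] [Module K V₂]

/-- Products of generalized eigenvectors. -/
lemma GenEig.bilin {F₁ : Module.End K V₁} {F₂ : Module.End K V₂} {F : Module.End K V}
    {B : V₁ →ₗ[K] V₂ →ₗ[K] V} (hB : ∀ v a, F (B v a) = B (F₁ v) (F₂ a)) {α β : K} {v : V₁} {a : V₂}
    (hv : GenEig F₁ α v) (ha : GenEig F₂ β a) : GenEig F (α * β) (B v a) := by
  obtain ⟨N, hN⟩ := hv
  obtain ⟨M, hM⟩ := ha
  have key : ∀ n N M : ℕ, N + M ≤ n → ∀ v a,
      ((F₁ - algebraMap K (Module.End K V₁) α) ^ N) v = 0 →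
      ((F₂ - algebraMap K (Module.End K V₂) β) ^ M) a = 0 →
      ((F - algebraMap K (Module.End K V) (α * β)) ^ n) (B v a) = 0 := by
    intro n
    induction n with
    | zero =>
      intro N M hNM v a hv ha
      obtain rfl : N = 0 := by omega
      rw [pow_zero, Module.End.one_apply] at hv
      rw [hv, map_zero, LinearMap.zero_apply, map_zero]
    | succ n ih =>
      intro N M hNM v a hv ha
      rcases Nat.eq_zero_or_pos N with rfl | hN
      · rw [pow_zero, Module.End.one_apply] at hv
        rw [hv, map_zero, LinearMap.zero_apply, map_zero]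
      rcases Nat.eq_zero_or_pos M with rfl | hM
      · rw [pow_zero, Module.End.one_apply] at ha
        rw [ha, map_zero, map_zero]
      have h1 : (F - algebraMap K (Module.End K V) (α * β)) (B v a) =
          B ((F₁ - algebraMap K (Module.End K V₁) α) v) (F₂ a) +
            α • B v ((F₂ - algebraMap K (Module.End K V₂) β) a) := by
        simp only [LinearMap.sub_apply, Module.algebraMap_end_apply, hB, map_sub, map_smul,
          LinearMap.smul_apply, smul_sub, smul_smul]
        abel
      have hcomm : ((F₂ - algebraMap K (Module.End K V₂) β) ^ M) (F₂ a) = 0 := by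
        have hc : Commute (F₂ - algebraMap K (Module.End K V₂) β) F₂ :=
          (Commute.refl F₂).sub_left (Algebra.commutes β F₂)
        have := congrArg (fun T => T a) (hc.pow_left M).eq
        simp only [Module.End.mul_apply] at this
        rw [this, ha, map_zero]
      rw [pow_succ, Module.End.mul_apply, h1, map_add, map_smul,
        ih (N - 1) M (by omega) _ _ (by
          rw [← Module.End.mul_apply, ← pow_succ, Nat.sub_add_cancel hN]; exact hv) hcomm,
        ih N (M - 1) (by omega) _ _ hv (by
          rw [← Module.End.mul_apply, ← pow_succ, Nat.sub_add_cancel hM]; exact ha),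
        smul_zero, add_zero]
  exact ⟨N + M, key (N + M) N M le_rfl v a hN hM⟩

/-- A pole vector which is a combination of generalized eigenvectors for other eigenvalues is
zero. -/
lemma eq_zero_of_bad {F : Module.End K V} {q j : ℕ} {s : Set V}
    (hs : ∀ v ∈ s, ∃ α : K, GenEig F α v ∧ ∀ m ≥ 1, α ^ m ≠ (q : K) ^ (m * j)) {b : V}
    (hb : b ∈ Submodule.span K s) (hP : IsPoleVector F q j b) : b = 0 := by
  obtain ⟨m, hm, hN⟩ := IsPoleVector.iff.1 hP
  rw [genEig_iff] at hN
  have h0 : Submodule.span K s ≤
      ⨆ μ, ⨆ (_ : μ ≠ (q : K) ^ (m * j)), (F ^ m).maxGenEigenspace μ := by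
    rw [Submodule.span_le]
    intro v hv
    obtain ⟨α, hα, hne⟩ := hs v hv
    have h2 := genEig_iff.1 (hα.pow m)
    exact Submodule.mem_iSup_of_mem (α ^ m) (Submodule.mem_iSup_of_mem (hne m hm) h2)
  have h2 := (Module.End.independent_maxGenEigenspace (F ^ m)) ((q : K) ^ (m * j))
  exact (Submodule.mem_bot K).1 (h2.le_bot ⟨hN, h0 hb⟩)

variable {gr : ℕ → Submodule K V}

/-- The projections commute with homogeneous operators of degree zero. -/
lemma proj_comm (h : DirectSum.IsInternal gr) {F : Module.End K V} (hF : ∀ i, ∀ a ∈ gr i, F a ∈ gr i)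
    (d : ℕ) : Commute (proj h d) F := by
  apply gr_ext h
  intro i a ha
  rw [Module.End.mul_apply, Module.End.mul_apply]
  by_cases hi : i = d
  · subst hi
    rw [proj_same h ha, proj_same h (hF i a ha)]
  · rw [proj_ne h ha hi, proj_ne h (hF i a ha) hi, map_zero]

/-- Homogeneous generalized eigenvectors generate. -/
lemma span_letters [IsAlgClosed K] [FiniteDimensional K V] (h : DirectSum.IsInternal gr)
    {F : Module.End K V} (hF : ∀ i, ∀ a ∈ gr i, F a ∈ gr i) :
    Submodule.span K {v | ∃ d α, v ∈ gr d ∧ GenEig F α v} = ⊤ := by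
  rw [eq_top_iff]
  intro x _
  refine gr_induction h (p := fun x => x ∈ Submodule.span K {v | ∃ d α, v ∈ gr d ∧ GenEig F α v})
    ?_ (fun a b => Submodule.add_mem _) x
  intro d a ha
  have h1 : a ∈ ⨆ μ, F.maxGenEigenspace μ := by
    rw [Module.End.iSup_maxGenEigenspace_eq_top]
    trivial
  rw [← proj_same h ha]
  refine Submodule.iSup_induction _ (motive := fun a => proj h d a ∈
    Submodule.span K {v | ∃ d α, v ∈ gr d ∧ GenEig F α v}) h1 ?_ ?_ ?_
  · intro μ v hv
    apply Submodule.subset_span
    refine ⟨d, μ, proj_mem h d v, ?_⟩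
    obtain ⟨N, hN⟩ := genEig_iff.2 hv
    refine ⟨N, ?_⟩
    have hc : Commute (proj h d) (F - algebraMap K (Module.End K V) μ) :=
      (proj_comm h hF d).sub_right (Algebra.commutes μ (proj h d)).symm
    have := congrArg (fun T => T v) (hc.pow_right N).eq
    simp only [Module.End.mul_apply] at this
    rw [← this, hN, map_zero]
  · rw [map_zero]; exact Submodule.zero_mem _
  · intro a b ha hb
    rw [map_add]
    exact Submodule.add_mem _ ha hb

end Alg

end Pool.Agent.H447
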