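import Pool.Agent.H447R3.FgA
import Mathlib.Order.WellQuasiOrder

/-!
# Finite generation of submonoids of multisets closed under subtraction
-/

namespace Pool.Agent.H447

/-- **Dickson's lemma.** -/
theorem dickson {Λ : Type*} [Finite Λ] (S : Multiset Λ → Prop)
    (hsub : ∀ t u, S t → S (t + u) → S u) : ∃ N : ℕ, ∀ s, S s → N < Multiset.card s →
      ∃ t u, s = t + u ∧ t ≠ 0 ∧ u ≠ 0 ∧ S t ∧ S u := by
  classical
  by_contra hcon
  have hcon' : ∀ N : ℕ, ∃ s, S s ∧ N < Multiset.card s ∧
      ¬ ∃ t u, s = t + u ∧ t ≠ 0 ∧ u ≠ 0 ∧ S t ∧ S u := by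
    intro N
    by_contra h
    apply hcon
    refine ⟨N, fun s hs hN => ?_⟩
    by_contra h2
    exact h ⟨s, hs, hN, h2⟩
  choose g hgS hgN hgI using hcon'
  let F : ℕ → Multiset Λ := fun n => Nat.rec (g 0) (fun _ s => g (Multiset.card s)) n
  have hF : ∀ n, F (n + 1) = g (Multiset.card (F n)) := fun n => rfl
  have hF0 : F 0 = g 0 := rfl
  have hex : ∀ n, ∃ N, F n = g N := by
    intro n
    cases n with
    | zero => exact ⟨0, rfl⟩
    | succ n => exact ⟨_, hF n⟩
  have hmono : StrictMono (fun n => Multiset.card (F n)) := by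
    apply strictMono_nat_of_lt_succ
    intro n
    change Multiset.card (F n) < Multiset.card (F (n + 1))
    rw [hF]
    exact hgN _
  have hpos : ∀ n, 0 < Multiset.card (F n) := by
    intro n
    obtain ⟨N, hN⟩ := hex n
    rw [hN]
    exact lt_of_le_of_lt (Nat.zero_le _) (hgN N)
  obtain ⟨m, n, hmn, hle⟩ := (inferInstance : WellQuasiOrderedLE (Λ → ℕ)).wqo
    (fun n x => (F n).count x)
  have hle' : F m ≤ F n := Multiset.le_iff_count.2 hle
  obtain ⟨u, hu⟩ := Multiset.le_iff_exists_add.1 hle'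
  have hcard : Multiset.card (F m) < Multiset.card (F n) := hmono hmn
  obtain ⟨N, hN⟩ := hex n
  obtain ⟨M, hM⟩ := hex m
  apply hgI N
  refine ⟨F m, u, by rw [← hN, hu], ?_, ?_, ?_, ?_⟩
  · intro h0
    have := hpos m
    rw [h0, Multiset.card_zero] at this
    exact lt_irrefl _ this
  · rintro rfl
    rw [hu, add_zero] at hcard
    exact lt_irrefl _ hcard
  · rw [hM]; exact hgS M
  · apply hsub (F m) u
    · rw [hM]; exact hgS M
    · rw [← hu, hN]; exact hgS N

section Words

variable {K : Type*} [Field K] [CharZero K] {Λ : Type*}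

/-- A multiset of letters with degrees `deg` and eigenvalues `ev`: the sum of the degrees is even,
say `2 j`, and the product of the eigenvalues is `q ^ j` times a root of unity. -/
def TateWord (deg : Λ → ℕ) (ev : Λ → K) (q : ℕ) (s : Multiset Λ) : Prop :=
  ∃ j, (s.map deg).sum = 2 * j ∧ ∃ m ≥ 1, (s.map ev).prod ^ m = (q : K) ^ (m * j)

lemma tateWord_sub (deg : Λ → ℕ) (ev : Λ → K) {q : ℕ} (hq : q ≠ 0) (t u : Multiset Λ)
    (ht : TateWord deg ev q t) (hs : TateWord deg ev q (t + u)) : TateWord deg ev q u := by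
  obtain ⟨j, hj, m, hm, hA⟩ := ht
  obtain ⟨j', hj', m', hm', hA'⟩ := hs
  have hq0 : (q : K) ≠ 0 := by exact_mod_cast hq
  rw [Multiset.map_add, Multiset.sum_add] at hj'
  rw [Multiset.map_add, Multiset.prod_add, mul_pow] at hA'
  refine ⟨j' - j, by omega, m * m', Nat.mul_pos hm hm', ?_⟩
  set x := (t.map ev).prod with hx
  set y := (u.map ev).prod with hy
  have h1 : x ^ (m * m') = (q : K) ^ (m * m' * j) := by
    rw [pow_mul, hA, ← pow_mul]
    congr 1
    ring
  have h2 : x ^ (m * m') * y ^ (m * m') = (q : K) ^ (m * m' * j') := by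
    have h3 := congrArg (fun x => x ^ m) hA'
    simp only [mul_pow, ← pow_mul] at h3
    rw [show m * m' = m' * m by ring, h3]
    congr 1
    ring
  rw [h1] at h2
  have h4 : (q : K) ^ (m * m' * j') = (q : K) ^ (m * m' * j) *
      (q : K) ^ (m * m' * (j' - j)) := by
    rw [← pow_add, ← mul_add]
    congr 2
    omega
  rw [h4] at h2
  exact mul_left_cancel₀ (pow_ne_zero _ hq0) h2

/-- Lifting decompositions of multisets. -/
lemma exists_lift {Λ R : Type*} (r : Λ → R) (s : Multiset Λ) : ∀ t' u', s.map r = t' + u' →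
    ∃ t u, s = t + u ∧ t.map r = t' ∧ u.map r = u' := by
  classical
  induction s using Multiset.induction_on with
  | empty =>
    intro t' u' h
    rw [Multiset.map_zero] at h
    have h1 := congrArg Multiset.card h
    rw [Multiset.card_zero, Multiset.card_add] at h1
    have h2 : t' = 0 := Multiset.card_eq_zero.1 (by omega)
    have h3 : u' = 0 := Multiset.card_eq_zero.1 (by omega)
    exact ⟨0, 0, by simp, by simp [h2], by simp [h3]⟩
  | cons x s ih =>
    intro t' u' h
    rw [Multiset.map_cons] at h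
    have hx : r x ∈ t' + u' := by rw [← h]; exact Multiset.mem_cons_self _ _
    rcases Multiset.mem_add.1 hx with hx | hx
    · obtain ⟨t'', rfl⟩ := Multiset.exists_cons_of_mem hx
      rw [Multiset.cons_add, Multiset.cons_inj_right] at h
      obtain ⟨t, u, rfl, ht, hu⟩ := ih t'' u' h
      exact ⟨x ::ₘ t, u, by rw [Multiset.cons_add], by rw [Multiset.map_cons, ht], hu⟩
    · obtain ⟨u'', rfl⟩ := Multiset.exists_cons_of_mem hx
      rw [Multiset.add_cons, Multiset.cons_inj_right] at h
      obtain ⟨t, u, rfl, ht, hu⟩ := ih t' u'' h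
      exact ⟨t, x ::ₘ u, by rw [Multiset.add_cons], ht, by rw [Multiset.map_cons, hu]⟩

end Words

end Pool.Agent.H447
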