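import Pool.Agent.H447R3.TaDefs

/-!
# The Tate conjecture for a variety in one codimension: definition
-/

open CategoryTheory AlgebraicGeometry

universe u v w

namespace Pool.Agent.H447

open Pool.Agent.H914 VarClass Obj WeilCohomology

variable {k : Type u} [Field k] {𝒱 : VarClass k} {ops : CycleOps 𝒱}

/-- The Tate conjecture for `X` in codimension `j`: every class of degree `2 j` on `X` on which all
`g` act by `χ g ^ j` (that is, which is invariant after the `j`-th Tate twist) is a `K`-linear
combination of classes of algebraic cycles of codimension `j`. -/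
def TateOnVariety {W : WeilCohomology.{u, v} ops} {X : 𝒱.Obj} {Γ : Type w}
    (A : SquareAction W X Γ) (j : ℕ) : Prop :=
  ∀ a ∈ W.gr X (2 * j), (∀ g, ActsBy (A.act g) (A.χ g ^ j) a) → a ∈ spanCycles W X j

end Pool.Agent.H447
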