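import Pool.Agent.H447R3.TaB
import Pool.Agent.H447R3.TaDefs2
import Pool.Agent.H447R3.SimB
import Pool.Agent.H914R2.Blocks

/-!
# The Tate conjecture on a variety from the one on its square
-/

open CategoryTheory AlgebraicGeometry Finset

universe u v w

namespace Pool.Agent.H447

open Pool.Agent.H914 VarClass Obj WeilCohomology

variable {k : Type u} [Field k] {𝒱 : VarClass k} {ops : CycleOps 𝒱}
  {W : WeilCohomology.{u, v} ops} {X : 𝒱.Obj} {Γ : Type w} {D : X.Cycles}

lemma divPow_fund (hD : X.IsCyc 1 D) (i : ℕ) : X.IsCyc i (divPow ops D i X.V.fundCycle) := by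
  have := divPow_mem (ops := ops) hD i X.V.fundCycle_mem
  rwa [zero_add] at this

lemma mulLeft_pow_one (i : ℕ) : (LinearMap.mulLeft W.K (W.cl X D) ^ i) 1 = W.cl X D ^ i := by
  rw [LinearMap.pow_mulLeft, LinearMap.mulLeft_apply, mul_one]

lemma cl_divPow_fund (i : ℕ) : W.cl X (divPow ops D i X.V.fundCycle) = W.cl X D ^ i := by
  rw [cl_divPow, W.cl_fund, mulLeft_pow_one]

lemma pow_span (hD : X.IsCyc 1 D) (i : ℕ) : W.cl X D ^ i ∈ spanCycles W X i := by
  rw [← cl_divPow_fund (ops := ops)]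
  exact mem_span_cl (divPow_fund hD i)

lemma tr_top_ne (hD : X.IsCyc 1 D) (hHL : HardLefschetz W X D) (h1 : (1 : W.H X) ≠ 0) :
    W.tr X (W.cl X D ^ X.dim) ≠ 0 := by
  intro h0
  have hmem : W.cl X D ^ X.dim ∈ W.gr X (2 * X.dim) := Pool.Agent.H447.span_gr (pow_span hD _)
  have h2 := eq_zero_of_top hmem h0
  apply h1
  refine (hHL 0 (Nat.zero_le _)).1 1 (W.one_mem X) ?_
  rw [Nat.sub_zero, mulLeft_pow_one]
  exact h2

/-- The classes in the top degree are algebraic. -/
lemma span_top (hD : X.IsCyc 1 D) (hHL : HardLefschetz W X D) {a : W.H X}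
    (ha : a ∈ W.gr X (2 * X.dim)) : a ∈ spanCycles W X X.dim := by
  by_cases h1 : (1 : W.H X) = 0
  · rw [← one_mul a, h1, zero_mul]
    exact Submodule.zero_mem _
  have h2 : a - (W.tr X a / W.tr X (W.cl X D ^ X.dim)) • W.cl X D ^ X.dim = 0 := by
    apply eq_zero_of_top
    · exact Submodule.sub_mem _ ha (Submodule.smul_mem _ _
        (Pool.Agent.H447.span_gr (pow_span hD _)))
    · rw [map_sub, map_smul, smul_eq_mul, div_mul_cancel₀ _ (tr_top_ne hD hHL h1), sub_self]
  rw [sub_eq_zero.1 h2]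
  exact Submodule.smul_mem _ _ (pow_span hD _)

/-- Descent from the square. -/
lemma span_of_square (hD : X.IsCyc 1 D) (hHL : HardLefschetz W X D) {j e : ℕ}
    (he : j + e + 1 = X.dim) {a : W.H X}
    (h : W.map (fst X X) (W.cl X D ^ e) * W.map (snd X X) a ∈
      spanCycles W (X.prod X) ((X.dim - 1 : ℕ) : ℤ)) : a ∈ spanCycles W X j := by
  by_cases h1 : (1 : W.H X) = 0
  · rw [← one_mul a, h1, zero_mul]
    exact Submodule.zero_mem _
  set c := W.map (fst X X) (W.cl X D ^ e) * W.map (snd X X) a with hc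
  have hK : W.corr c ∈ KOp W X X (-1) := by
    rw [mem_KOp_iff]
    refine ⟨c, ?_, rfl⟩
    rwa [show (X.dim : ℤ) + -1 = ((X.dim - 1 : ℕ) : ℤ) by omega]
  have h2 := KOp.map_span hK (pow_span (W := W) hD (j + 1))
  have h3 : W.corr c (W.cl X D ^ (j + 1)) = W.tr X (W.cl X D ^ X.dim) • a := by
    have hev : W.map (fst X X) (W.cl X D ^ (j + 1)) ∈ W.gr (X.prod X) (2 * (j + 1)) :=
      W.map_mem _ (Pool.Agent.H447.span_gr (pow_span hD _))
    rw [corr_apply, hc, ← W.even_comm hev, ← mul_assoc, ← map_mul, ← pow_add, push_snd,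
      show j + 1 + e = X.dim by omega]
  rw [h3, show ((j + 1 : ℕ) : ℤ) + -1 = (j : ℤ) by push_cast; ring] at h2
  have h4 := Submodule.smul_mem (spanCycles W X j) (W.tr X (W.cl X D ^ X.dim))⁻¹ h2
  rwa [smul_smul, inv_mul_cancel₀ (tr_top_ne hD hHL h1), one_smul] at h4

/-- The Tate conjecture on the square implies the one on the variety. -/
theorem tateOnVariety_of (hD : X.IsCyc 1 D) (hHL : HardLefschetz W X D)
    (A : SquareAction W X Γ) (hinv : ∀ g, ActsBy (A.act g) (A.χ g) (W.cl X D))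
    (h : TateOnSquare A (X.dim - 1)) (j : ℕ) : TateOnVariety A j := by
  intro a ha hga
  have hinv : ∀ g, A.act g (W.cl X D) = A.χ g • W.cl X D := hinv
  have hga : ∀ g, A.act g a = A.χ g ^ j • a := hga
  rcases lt_trichotomy j X.dim with hj | rfl | hj
  · obtain ⟨e, he⟩ : ∃ e, j + e + 1 = X.dim := ⟨X.dim - 1 - j, by omega⟩
    apply span_of_square hD hHL he
    apply h
    · have h1 := W.mul_mem (W.map_mem (fst X X) (Pool.Agent.H447.span_gr (pow_span (W := W) hD e)))
        (W.map_mem (snd X X) ha)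
      rwa [show 2 * e + 2 * j = 2 * (X.dim - 1) by omega] at h1
    · intro g
      change A.act₂ g _ = A.χ g ^ (X.dim - 1) • _
      rw [map_mul, A.fst, A.snd, map_pow (A.act g), hinv, hga, smul_pow, map_smul, map_smul,
        smul_mul_assoc, mul_smul_comm, smul_smul, ← pow_add, show e + j = X.dim - 1 by omega]
  · exact span_top hD hHL ha
  · rw [W.gr_eq_bot X _ (by omega)] at ha
    rw [(Submodule.mem_bot _).1 ha]
    exact Submodule.zero_mem _

/-- **The Tate conjecture on the square of a variety in one codimension.** -/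
theorem tate_tfae' (hn : 1 ≤ X.dim) (hD : X.IsCyc 1 D)
    (hHL : HardLefschetz W X D) (A : SquareAction W X Γ)
    (hinv : ∀ g, ActsBy (A.act g) (A.χ g) (W.cl X D)) :
    List.TFAE [
      LefschetzB W X D ∧ (∀ j, TateOnVariety A j) ∧ (∀ j, j ≠ X.dim → TateOnSquare A j),
      TateOnSquare A (X.dim - 1), LefschetzB W X D ∧ TateOnSquare A (X.dim + 1)] := by
  have h := tate_tfae hn hD hHL A hinv
  have h21 := h.out 1 0
  have h23 := h.out 1 2
  tfae_have 1 → 2 := fun h => h.2.2 _ (by omega)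
  tfae_have 2 → 1 := fun h => ⟨(h23.1 h).1, tateOnVariety_of hD hHL A hinv h, h21.1 h⟩
  tfae_have 2 ↔ 3 := h23
  tfae_finish

end Pool.Agent.H447
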