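import Pool.Agent.H447R3.FgB
import Pool.Agent.H447R3.TaC
import Pool.Agent.H914R2.CPart

/-!
# Monomials in the cohomology of products
-/

open CategoryTheory AlgebraicGeometry Finset

universe u v w

namespace Pool.Agent.H447

open Pool.Agent.H914 VarClass Obj WeilCohomology

variable {k : Type u} [Field k] {𝒱 : VarClass k} {ops : CycleOps 𝒱}
  {W : WeilCohomology.{u, v} ops} {ι : Type w}

section Prod

variable {Y Z T U : 𝒱.Obj}

lemma gen_prod {f : Y ⟶ Y} {g : Z ⟶ Z} {α β : W.K} {v : W.H Y} {a : W.H Z}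
    (hv : GenEig (W.map f).toLinearMap α v) (ha : GenEig (W.map g).toLinearMap β a) :
    GenEig (W.map (Obj.lift (fst Y Z ≫ f) (snd Y Z ≫ g) : Y.prod Z ⟶ Y.prod Z)).toLinearMap
      (α * β) (W.map (fst Y Z) v * W.map (snd Y Z) a) :=
  GenEig.bilin (B := (LinearMap.mul W.K (W.H (Y.prod Z))).compl₁₂
    (W.map (fst Y Z)).toLinearMap (W.map (snd Y Z)).toLinearMap)
    (F := (W.map (Obj.lift (fst Y Z ≫ f) (snd Y Z ≫ g) : Y.prod Z ⟶ Y.prod Z)).toLinearMap) (by
      intro v a
      change W.map (Obj.lift (fst Y Z ≫ f) (snd Y Z ≫ g)) (W.map (fst Y Z) v *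
        W.map (snd Y Z) a) = W.map (fst Y Z) (W.map f v) * W.map (snd Y Z) (W.map g a)
      rw [map_mul, ← W.map_comp, ← W.map_comp, ← W.map_comp, ← W.map_comp, Obj.lift_fst,
        Obj.lift_snd]) hv ha

lemma span_prod {s : Set (W.H Y)} {t : Set (W.H Z)} (hs : Submodule.span W.K s = ⊤)
    (ht : Submodule.span W.K t = ⊤) {u : Set (W.H (Y.prod Z))}
    (h : ∀ a ∈ s, ∀ b ∈ t, W.map (fst Y Z) a * W.map (snd Y Z) b ∈ u) :
    Submodule.span W.K u = ⊤ := by
  rw [eq_top_iff]
  intro y _
  refine W.kunneth_induction (p := fun y => y ∈ Submodule.span W.K u) ?_ ?_ y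
  · intro a b ha hb
    exact Submodule.add_mem _ ha hb
  · intro d e a _ b _
    have key : ∀ a ∈ Submodule.span W.K s, ∀ b ∈ Submodule.span W.K t,
        W.map (fst Y Z) a * W.map (snd Y Z) b ∈ Submodule.span W.K u := by
      intro a ha b hb
      induction ha using Submodule.span_induction with
      | mem a ha =>
        induction hb using Submodule.span_induction with
        | mem b hb => exact Submodule.subset_span (h a ha b hb)
        | zero => rw [map_zero, mul_zero]; exact Submodule.zero_mem _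
        | add b c _ _ hb hc => rw [map_add, mul_add]; exact Submodule.add_mem _ hb hc
        | smul t b _ hb => rw [map_smul, mul_smul_comm]; exact Submodule.smul_mem _ _ hb
      | zero => rw [map_zero, zero_mul]; exact Submodule.zero_mem _
      | add b c _ _ hb hc => rw [map_add, add_mul]; exact Submodule.add_mem _ hb hc
      | smul t b _ hb => rw [map_smul, smul_mul_assoc]; exact Submodule.smul_mem _ _ hb
    exact key a (by rw [hs]; trivial) b (by rw [ht]; trivial)

lemma split_aux (p : Z ⟶ T) (r : Z ⟶ U) (v : W.H Y) (b : W.H T) (c : W.H U) (ε : W.K) :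
    W.map (fst Y Z) v * W.map (snd Y Z) (ε • (W.map p b * W.map r c)) =
      ε • (W.map (Obj.lift (fst Y Z) (snd Y Z ≫ p) : Y.prod Z ⟶ Y.prod T)
        (W.map (fst Y T) v * W.map (snd Y T) b) * W.map (snd Y Z ≫ r) c) := by
  rw [map_smul, map_mul (W.map (snd Y Z)), mul_smul_comm, map_mul (W.map (Obj.lift _ _)),
    ← W.map_comp, ← W.map_comp, ← W.map_comp, ← W.map_comp, Obj.lift_fst, Obj.lift_snd, mul_assoc]

end Prod

/-- Homogeneous generalized eigenvectors which generate the cohomology of the varieties `X i`. -/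
structure Letters (W : WeilCohomology.{u, v} ops) (X : ι → 𝒱.Obj) (f : ∀ i, X i ⟶ X i) where
  /-- the number of letters -/
  n : ι → ℕ
  /-- the vectors -/
  vec : ∀ i, Fin (n i) → W.H (X i)
  /-- the degrees -/
  deg : ∀ i, Fin (n i) → ℕ
  /-- the eigenvalues -/
  ev : ∀ i, Fin (n i) → W.K
  mem : ∀ i a, vec i a ∈ W.gr (X i) (deg i a)
  gen : ∀ i a, GenEig (W.map (f i)).toLinearMap (ev i a) (vec i a)
  span : ∀ i, Submodule.span W.K (Set.range (vec i)) = ⊤
  ne_zero : ∀ i a, vec i a ≠ 0

variable {X : ι → 𝒱.Obj} {f : ∀ i, X i ⟶ X i}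

lemma exists_letters [IsAlgClosed W.K] : Nonempty (Letters W X f) := by
  have key : ∀ i, ∃ (n : ℕ) (v : Fin n → W.H (X i)) (d : Fin n → ℕ) (α : Fin n → W.K),
      (∀ a, v a ∈ W.gr (X i) (d a)) ∧ (∀ a, GenEig (W.map (f i)).toLinearMap (α a) (v a)) ∧
        Submodule.span W.K (Set.range v) = ⊤ ∧ ∀ a, v a ≠ 0 := by
    intro i
    have h1 := span_letters (W.isInternal (X i)) (F := (W.map (f i)).toLinearMap)
      (fun j a ha => W.map_mem (f i) ha)
    obtain ⟨v, hv, hspan, hli⟩ := Submodule.exists_fun_fin_finrank_span_eq W.K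
      {v | ∃ d α, v ∈ W.gr (X i) d ∧ GenEig (W.map (f i)).toLinearMap α v}
    choose d α hd hα using hv
    exact ⟨_, v, d, α, hd, hα, by rw [hspan, h1], fun a => hli.ne_zero a⟩
  choose n v d α h1 h2 h3 h4 using key
  exact ⟨⟨n, v, d, α, h1, h2, h3, h4⟩⟩

variable (L : Letters W X f)

/-- The set of all letters. -/
abbrev Letters.Λ : Type w := Σ i, Fin (L.n i)

/-- The degree of a word. -/
def Letters.D (s : Multiset L.Λ) : ℕ := (s.map (fun x => L.deg x.1 x.2)).sum

/-- The eigenvalue of a word. -/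
def Letters.A (s : Multiset L.Λ) : W.K := (s.map (fun x => L.ev x.1 x.2)).prod

lemma Letters.D_add (s t : Multiset L.Λ) : L.D (s + t) = L.D s + L.D t := by
  simp [Letters.D]

lemma Letters.A_add (s t : Multiset L.Λ) : L.A (s + t) = L.A s * L.A t := by
  simp [Letters.A]

/-- The monomial classes on the products. -/
inductive IsMon : ∀ (i : ι) (l : List ι), W.H (listProd X i l) → Multiset L.Λ → Prop
  | one (i : ι) (x : Fin (L.n i)) : IsMon i [] (L.vec i x) {⟨i, x⟩}
  | cons (i j : ι) (l : List ι) (x : Fin (L.n i)) (a : W.H (listProd X j l)) (s : Multiset L.Λ) :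
      IsMon j l a s → IsMon i (j :: l) (W.map (fst (X i) (listProd X j l)) (L.vec i x) *
        W.map (snd (X i) (listProd X j l)) a) (⟨i, x⟩ ::ₘ s)

variable {L}

lemma IsMon.card {i : ι} {l : List ι} {a : W.H (listProd X i l)} {s : Multiset L.Λ}
    (h : IsMon L i l a s) : Multiset.card s = l.length + 1 := by
  induction h with
  | one i x => simp
  | cons i j l x a s _ ih => simp [ih]

lemma IsMon.gr {i : ι} {l : List ι} {a : W.H (listProd X i l)} {s : Multiset L.Λ}
    (h : IsMon L i l a s) : a ∈ W.gr (listProd X i l) (L.D s) := by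
  induction h with
  | one i x =>
    rw [show L.D {⟨i, x⟩} = L.deg i x by simp [Letters.D]]
    exact L.mem i x
  | cons i j l x a s _ ih =>
    have h1 := W.mul_mem (W.map_mem (fst (X i) (listProd X j l)) (L.mem i x))
      (W.map_mem (snd (X i) (listProd X j l)) ih)
    have h2 : L.D (⟨i, x⟩ ::ₘ s) = L.deg i x + L.D s := by simp [Letters.D]
    rw [h2]
    exact h1

lemma IsMon.gen {i : ι} {l : List ι} {a : W.H (listProd X i l)} {s : Multiset L.Λ}
    (h : IsMon L i l a s) : GenEig (W.map (listMap X f i l)).toLinearMap (L.A s) a := by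
  induction h with
  | one i x =>
    rw [show L.A {⟨i, x⟩} = L.ev i x by simp [Letters.A]]
    exact L.gen i x
  | cons i j l x a s _ ih =>
    have h2 : L.A (⟨i, x⟩ ::ₘ s) = L.ev i x * L.A s := by simp [Letters.A]
    rw [h2]
    exact gen_prod (L.gen i x) ih

/-- The monomials generate. -/
lemma span_mon (i : ι) (l : List ι) :
    Submodule.span W.K {a | ∃ s, IsMon L i l a s} = ⊤ := by
  induction l generalizing i with
  | nil =>
    change Submodule.span W.K ({a | ∃ s, IsMon L i [] a s} : Set (W.H (X i))) = ⊤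
    rw [eq_top_iff, ← L.span i]
    apply Submodule.span_mono
    rintro _ ⟨x, rfl⟩
    exact ⟨_, IsMon.one i x⟩
  | cons j l ih =>
    exact span_prod (L.span i) (ih j) (by
      rintro _ ⟨x, rfl⟩ b ⟨s, hs⟩
      exact ⟨_, IsMon.cons i j l x b s hs⟩)

/-- The class `a` is a multiple of the product of the pull-backs of monomials with the words `t`
and `u`. -/
def Splits (L : Letters W X f) (i : ι) (l : List ι) (a : W.H (listProd X i l))
    (t u : Multiset L.Λ) : Prop :=
  ∃ (i₁ : ι) (l₁ : List ι) (b : W.H (listProd X i₁ l₁)) (i₂ : ι) (l₂ : List ι)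
    (c : W.H (listProd X i₂ l₂)) (p : listProd X i l ⟶ listProd X i₁ l₁)
    (r : listProd X i l ⟶ listProd X i₂ l₂) (ε : W.K), IsMon L i₁ l₁ b t ∧ IsMon L i₂ l₂ c u ∧
      a = ε • (W.map p b * W.map r c)

lemma Splits.symm {i : ι} {l : List ι} {a : W.H (listProd X i l)} {t u : Multiset L.Λ}
    (h : Splits L i l a t u) : Splits L i l a u t := by
  obtain ⟨i₁, l₁, b, i₂, l₂, c, p, r, ε, hb, hc, rfl⟩ := h
  refine ⟨i₂, l₂, c, i₁, l₁, b, r, p, ε * (-1) ^ (L.D t * L.D u), hc, hb, ?_⟩
  rw [W.comm (W.map_mem p hb.gr) (W.map_mem r hc.gr), smul_smul]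

lemma IsMon.split {i : ι} {l : List ι} {a : W.H (listProd X i l)} {s : Multiset L.Λ}
    (h : IsMon L i l a s) : ∀ t u, s = t + u → t ≠ 0 → u ≠ 0 → Splits L i l a t u := by
  induction h with
  | one i x =>
    intro t u hs ht hu
    exfalso
    have h1 := congrArg Multiset.card hs
    rw [Multiset.card_singleton, Multiset.card_add] at h1
    have h2 := Multiset.card_pos.2 ht
    have h3 := Multiset.card_pos.2 hu
    omega
  | cons i j l x a s hm ih =>
    have key : ∀ t u, (⟨i, x⟩ ::ₘ s : Multiset L.Λ) = t + u → t ≠ 0 → u ≠ 0 →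
        (⟨i, x⟩ : L.Λ) ∈ t → Splits L i (j :: l) (W.map (fst (X i) (listProd X j l)) (L.vec i x) *
          W.map (snd (X i) (listProd X j l)) a) t u := by
      intro t u hs ht hu hx
      obtain ⟨t', rfl⟩ := Multiset.exists_cons_of_mem hx
      rw [Multiset.cons_add, Multiset.cons_inj_right] at hs
      by_cases ht' : t' = 0
      · subst ht'
        rw [zero_add] at hs
        subst hs
        exact ⟨i, [], L.vec i x, j, l, a, fst (X i) (listProd X j l), snd (X i) (listProd X j l), 1,
          IsMon.one i x, hm, by rw [one_smul]; rfl⟩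
      · obtain ⟨i₁, l₁, b, i₂, l₂, c, p, r, ε, hb, hc, hbc⟩ := ih t' u hs ht' hu
        refine ⟨i, i₁ :: l₁, _, i₂, l₂, c,
          (Obj.lift (fst (X i) (listProd X j l)) (snd (X i) (listProd X j l) ≫ p) :
            (X i).prod (listProd X j l) ⟶ (X i).prod (listProd X i₁ l₁)),
          snd (X i) (listProd X j l) ≫ r, ε, IsMon.cons i i₁ l₁ x b t' hb, hc, ?_⟩
        rw [hbc]
        exact split_aux p r _ b c ε
    intro t u hs ht hu
    have hx : (⟨i, x⟩ : L.Λ) ∈ t + u := by rw [← hs]; exact Multiset.mem_cons_self _ _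
    rcases Multiset.mem_add.1 hx with hx | hx
    · exact key t u hs ht hu hx
    · exact (key u t (by rw [hs, add_comm]) hu ht hx).symm

end Pool.Agent.H447
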