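import Pool.Agent.H447R3.PoDefs

/-!
# The strong Tate conjecture for products: definitions
-/

open CategoryTheory AlgebraicGeometry

universe u v w

namespace Pool.Agent.H447

/-- The polynomial `P` with integer coefficients is monic, of degree at most `B`, and all its complex
roots have absolute value `q ^ (j / 2)`. -/
def IsWeilPoly (q j B : ℕ) (P : Polynomial ℤ) : Prop :=
  P.Monic ∧ P.natDegree ≤ B ∧ ∀ z : ℂ, Polynomial.aeval z P = 0 → ‖z‖ ^ 2 = (q : ℝ) ^ j

section Alg

variable {K : Type*} [Field K] {V : Type*} [AddCommGroup V] [Module K V]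

/-- The polynomial `P` annihilates the operator `F` on the subspace `U`. -/
def KilledBy (F : Module.End K V) (U : Submodule K V) (P : Polynomial ℤ) : Prop :=
  ∀ a ∈ U, Polynomial.aeval F (P.map (algebraMap ℤ K)) a = 0

/-- On the subspace `U` the operator `F` is annihilated by a monic polynomial with integer
coefficients, of degree at most `B`, all of whose complex roots have absolute value
`q ^ (j / 2)`. -/
def HasWeilPoly (F : Module.End K V) (U : Submodule K V) (q j B : ℕ) : Prop :=
  ∃ P, IsWeilPoly q j B P ∧ KilledBy F U P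

end Alg

open Pool.Agent.H914 VarClass Obj WeilCohomology

variable {k : Type u} [Field k] {𝒱 : VarClass k} {ops : CycleOps 𝒱} {ι : Type w}

/-- The product of the varieties `X i` and `X j`, `j` in the list `l`. -/
noncomputable def listProd (X : ι → 𝒱.Obj) : ι → List ι → 𝒱.Obj
  | i, [] => X i
  | i, j :: l => (X i).prod (listProd X j l)

/-- The product of the endomorphisms `f i` and `f j`, `j` in the list `l`. -/
noncomputable def listMap (X : ι → 𝒱.Obj) (f : ∀ i, X i ⟶ X i) :
    ∀ (i : ι) (l : List ι), listProd X i l ⟶ listProd X i l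
  | i, [] => f i
  | i, j :: l => Obj.lift (fst (X i) (listProd X j l) ≫ f i)
      (snd (X i) (listProd X j l) ≫ listMap X f j l)

/-- The cohomology of `Y` vanishes in degrees above `d`, and for `j ≤ d` the polynomial `P j` with
rational coefficients annihilates `f^*` on `H^j(Y)`. -/
def FrobeniusBound (W : WeilCohomology.{u, v} ops) (Y : 𝒱.Obj) (f : Y ⟶ Y) (d : ℕ)
    (P : ℕ → Polynomial ℚ) : Prop :=
  (∀ j, d < j → W.gr Y j = ⊥) ∧ ∀ j ≤ d, ∀ a ∈ W.gr Y j,
    Polynomial.aeval (W.map f).toLinearMap ((P j).map (algebraMap ℚ W.K)) a = 0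

/-- The Weil conjectures for `f` on `Y` with Betti numbers at most `B`: for every `j` the
endomorphism `f^*` of `H^j(Y)` is annihilated by a monic polynomial with integer coefficients, of
degree at most `B`, all of whose complex roots have absolute value `q ^ (j / 2)`. -/
def WeilBound (W : WeilCohomology.{u, v} ops) (Y : 𝒱.Obj) (f : Y ⟶ Y) (q B : ℕ) : Prop :=
  ∀ j : ℕ, HasWeilPoly (W.map f).toLinearMap (W.gr Y j) q j B

/-- The strong Tate conjecture for `Y` with the Frobenius endomorphism `f` relative to a field with
`q` elements, over all finite extensions of this field: for every `j`, every class in `H^(2j)(Y)`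
which is a generalized eigenvector of a power `(f^*) ^ m`, `m ≥ 1`, for the eigenvalue `q ^ (m j)` is
a linear combination of classes of algebraic cycles. -/
def StrongTate (W : WeilCohomology.{u, v} ops) (Y : 𝒱.Obj) (f : Y ⟶ Y) (q : ℕ) : Prop :=
  ∀ j : ℕ, ∀ a ∈ W.gr Y (2 * j), IsPoleVector (W.map f).toLinearMap q j a → a ∈ spanCycles W Y j

end Pool.Agent.H447
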