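import Pool.Agent.H447R3.GpDefs
import Pool.Agent.H447R3.TaC

/-!
# Extension of scalars of Weil cohomology theories
-/

open CategoryTheory AlgebraicGeometry Finset

universe u v v₁ v₂

namespace Pool.Agent.H447

open Pool.Agent.H914 VarClass Obj WeilCohomology

variable {k : Type u} [Field k] {𝒱 : VarClass k} {ops : CycleOps 𝒱}
  {W₁ : WeilCohomology.{u, v₁} ops} {W : WeilCohomology.{u, v} ops} {X Y : 𝒱.Obj}

section Ext

variable (e : Extension W₁ W)

lemma Extension.smul (c : W₁.K) (a : W₁.H Y) : e.φ Y (c • a) = e.σ c • e.φ Y a :=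
  (e.isExtension Y).smul c a

lemma Extension.gr {i : ℕ} {a : W₁.H Y} (ha : a ∈ W₁.gr Y i) : e.φ Y a ∈ W.gr Y i :=
  (e.isExtension Y).gr i a ha

lemma Extension.tr (a : W₁.H Y) : W.tr Y (e.φ Y a) = e.σ (W₁.tr Y a) := (e.isExtension Y).tr a

lemma Extension.span (Y : 𝒱.Obj) : Submodule.span W.K (Set.range (e.φ Y)) = ⊤ :=
  (e.isExtension Y).span

lemma Extension.inj {a : W₁.H Y} (h : e.φ Y a = 0) : a = 0 := by
  apply W₁.nondeg
  intro b
  apply e.σ.injective
  rw [map_zero, ← e.tr, map_mul, h, zero_mul, map_zero]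

lemma Extension.inj' {a b : W₁.H Y} (h : e.φ Y a = e.φ Y b) : a = b := by
  rw [← sub_eq_zero]
  apply e.inj
  rw [map_sub, h, sub_self]

/-- Functionals are given by Poincare duality. -/
lemma exists_dual_class (f : W₁.H Y →ₗ[W₁.K] W₁.K) : ∃ y, ∀ a, f a = W₁.tr Y (a * y) := by
  set Ψ : W₁.H Y →ₗ[W₁.K] Module.Dual W₁.K (W₁.H Y) :=
    ((LinearMap.mul W₁.K (W₁.H Y)).flip.compr₂ (W₁.tr Y)) with hΨ
  have hΨa : ∀ y a, Ψ y a = W₁.tr Y (a * y) := fun y a => rfl
  have hinj : Function.Injective Ψ := by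
    rw [← LinearMap.ker_eq_bot, LinearMap.ker_eq_bot']
    intro y hy
    apply nondeg_right
    intro b
    rw [← hΨa, hy, LinearMap.zero_apply]
  have hsurj : Function.Surjective Ψ :=
    (LinearMap.injective_iff_surjective_of_finrank_eq_finrank
      Subspace.dual_finrank_eq.symm).1 hinj
  obtain ⟨y, hy⟩ := hsurj f
  exact ⟨y, fun a => by rw [← hΨa, hy]⟩

/-- Descent of the membership in a subspace. -/
lemma Extension.mem_of_span {S : Submodule W₁.K (W₁.H Y)} {b : W₁.H Y}
    (h : e.φ Y b ∈ Submodule.span W.K (e.φ Y '' S)) : b ∈ S := by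
  by_contra hb
  obtain ⟨f, hfb, hfS⟩ := Submodule.exists_le_ker_of_notMem hb
  obtain ⟨y, hy⟩ := exists_dual_class f
  have key : ∀ x ∈ Submodule.span W.K (e.φ Y '' S), W.tr Y (x * e.φ Y y) = 0 := by
    intro x hx
    induction hx using Submodule.span_induction with
    | mem x hx =>
      obtain ⟨s, hs, rfl⟩ := hx
      rw [← map_mul, e.tr, ← hy, show f s = 0 from hfS hs, map_zero]
    | zero => rw [zero_mul, map_zero]
    | add x y _ _ hx hy => rw [add_mul, map_add, hx, hy, add_zero]
    | smul c x _ hx => rw [smul_mul_assoc, map_smul, hx, smul_zero]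
  have h1 := key _ h
  rw [← map_mul, e.tr, ← hy] at h1
  apply hfb
  apply e.σ.injective
  rw [h1, map_zero]

/-- The homogeneous parts. -/
lemma Extension.gr_eq (Y : 𝒱.Obj) (i : ℕ) :
    W.gr Y i = Submodule.span W.K (e.φ Y '' (W₁.gr Y i)) := by
  apply le_antisymm
  · intro x hx
    have key : ∀ x ∈ Submodule.span W.K (Set.range (e.φ Y)),
        proj (W.isInternal Y) i x ∈ Submodule.span W.K (e.φ Y '' (W₁.gr Y i)) := by
      intro x hx
      induction hx using Submodule.span_induction with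
      | mem x hx =>
        obtain ⟨a, rfl⟩ := hx
        refine gr_induction (W₁.isInternal Y) (p := fun a => proj (W.isInternal Y) i (e.φ Y a) ∈
          Submodule.span W.K (e.φ Y '' (W₁.gr Y i))) ?_ ?_ a
        · intro j a ha
          by_cases hj : j = i
          · subst hj
            rw [proj_same _ (e.gr ha)]
            exact Submodule.subset_span ⟨a, ha, rfl⟩
          · rw [proj_ne _ (e.gr ha) hj]
            exact Submodule.zero_mem _
        · intro a b ha hb
          rw [map_add, map_add]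
          exact Submodule.add_mem _ ha hb
      | zero => rw [map_zero]; exact Submodule.zero_mem _
      | add x y _ _ hx hy => rw [map_add]; exact Submodule.add_mem _ hx hy
      | smul c x _ hx => rw [map_smul]; exact Submodule.smul_mem _ _ hx
    have h1 := key x (by rw [e.span]; trivial)
    rwa [proj_same _ hx] at h1
  · rw [Submodule.span_le]
    rintro _ ⟨a, ha, rfl⟩
    exact e.gr ha

/-- Linear independence is preserved. -/
lemma Extension.linearIndependent {ι : Type*} {v : ι → W₁.H Y}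
    (hv : LinearIndependent W₁.K v) : LinearIndependent W.K (fun i => e.φ Y (v i)) := by
  rw [linearIndependent_iff_notMem_span] at hv ⊢
  intro i hi
  apply hv i
  apply e.mem_of_span
  refine Submodule.span_mono ?_ hi
  rintro _ ⟨l, hl, rfl⟩
  exact ⟨v l, Submodule.subset_span ⟨l, hl, rfl⟩, rfl⟩

/-- Images of operators. -/
lemma span_image {T : Module.End W₁.K (W₁.H Y)} {T' : Module.End W.K (W.H Y)}
    (hT : ∀ a, e.φ Y (T a) = T' (e.φ Y a)) (S : Submodule W₁.K (W₁.H Y)) :
    (Submodule.span W.K (e.φ Y '' S)).map T' = Submodule.span W.K (e.φ Y '' (S.map T)) := by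
  rw [Submodule.map_span]
  congr 1
  ext x
  constructor
  · rintro ⟨_, ⟨a, ha, rfl⟩, rfl⟩
    exact ⟨T a, ⟨a, ha, rfl⟩, hT a⟩
  · rintro ⟨_, ⟨a, ha, rfl⟩, rfl⟩
    exact ⟨e.φ Y a, ⟨a, ha, rfl⟩, (hT a).symm⟩

/-- Injectivity of operators is preserved. -/
lemma Extension.injOn {T : Module.End W₁.K (W₁.H Y)} {T' : Module.End W.K (W.H Y)}
    (hT : ∀ a, e.φ Y (T a) = T' (e.φ Y a)) {S : Submodule W₁.K (W₁.H Y)}
    (hinj : ∀ a ∈ S, T a = 0 → a = 0) {x : W.H Y} (hx : x ∈ Submodule.span W.K (e.φ Y '' S))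
    (h0 : T' x = 0) : x = 0 := by
  classical
  set b := Module.finBasis W₁.K S with hb
  set v : Fin (Module.finrank W₁.K S) → W₁.H Y := fun i => (b i : W₁.H Y) with hv
  have hvT : LinearIndependent W₁.K (fun i => T (v i)) := by
    have h1 : LinearIndependent W₁.K (fun i => (T.domRestrict S) (b i)) := by
      apply b.linearIndependent.map'
      rw [LinearMap.ker_eq_bot']
      intro a ha
      exact Subtype.ext (hinj a a.2 ha)
    exact h1
  have hsp : x ∈ Submodule.span W.K (Set.range fun i => e.φ Y (v i)) := by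
    refine Submodule.span_le.2 ?_ hx
    rintro _ ⟨a, ha, rfl⟩
    have h1 : a = ∑ i, b.repr ⟨a, ha⟩ i • v i := by
      have h2 := congrArg (S.subtype) (b.sum_repr ⟨a, ha⟩)
      rw [map_sum] at h2
      exact h2.symm
    rw [h1, map_sum]
    apply Submodule.sum_mem
    intro i _
    rw [e.smul]
    exact Submodule.smul_mem _ _ (Submodule.subset_span ⟨i, rfl⟩)
  rw [Submodule.mem_span_range_iff_exists_fun] at hsp
  obtain ⟨c, rfl⟩ := hsp
  have h1 := e.linearIndependent hvT
  rw [Fintype.linearIndependent_iff] at h1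
  have h2 : ∀ i, c i = 0 := by
    apply h1 c
    rw [← h0, map_sum]
    apply Finset.sum_congr rfl
    intro i _
    rw [map_smul, hT]
  apply Finset.sum_eq_zero
  intro i _
  rw [h2 i, zero_smul]

/-- Push-forward along the second projection. -/
lemma Extension.push {Z : 𝒱.Obj} (f : Y ⟶ Z) (y : W₁.H Y) :
    e.φ Z (W₁.push f y) = W.push f (e.φ Y y) := by
  rw [← sub_eq_zero]
  apply W.nondeg
  intro b
  have hb : b ∈ Submodule.span W.K (Set.range (e.φ Z)) := by rw [e.span]; trivial
  induction hb using Submodule.span_induction with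
  | mem b hb =>
    obtain ⟨b, rfl⟩ := hb
    rw [sub_mul, map_sub, ← map_mul, e.tr, W₁.tr_push, ← e.tr, map_mul, e.map, W.tr_push,
      sub_self]
  | zero => rw [mul_zero, map_zero]
  | add x y _ _ hx hy => rw [mul_add, map_add, hx, hy, add_zero]
  | smul c x _ hx => rw [mul_smul_comm, map_smul, hx, smul_zero]

lemma Extension.corr (c : W₁.H (X.prod Y)) (a : W₁.H X) :
    e.φ Y (W₁.corr c a) = W.corr (e.φ _ c) (e.φ X a) := by
  rw [corr_apply, corr_apply, e.push, map_mul, e.map]

lemma Extension.mulLeft_pow (D : Y.Cycles) (m : ℕ) (a : W₁.H Y) :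
    e.φ Y ((LinearMap.mulLeft W₁.K (W₁.cl Y D) ^ m) a) =
      (LinearMap.mulLeft W.K (W.cl Y D) ^ m) (e.φ Y a) := by
  rw [LinearMap.pow_mulLeft, LinearMap.pow_mulLeft, LinearMap.mulLeft_apply,
    LinearMap.mulLeft_apply, map_mul, map_pow, e.cl]

include e in
/-- Hard Lefschetz and extension of scalars. -/
lemma Extension.hardLefschetz_iff (D : X.Cycles) : HardLefschetz W₁ X D ↔ HardLefschetz W X D := by
  constructor
  · intro h i hi
    constructor
    · intro a ha h0
      rw [e.gr_eq] at ha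
      exact e.injOn (e.mulLeft_pow D _) (h i hi).1 ha h0
    · intro b hb
      have h1 : (W₁.gr X i).map (LinearMap.mulLeft W₁.K (W₁.cl X D) ^ (X.dim - i)) ≥
          W₁.gr X (2 * X.dim - i) := by
        intro b hb
        obtain ⟨a, ha, hab⟩ := (h i hi).2 b hb
        exact ⟨a, ha, hab⟩
      rw [e.gr_eq] at hb
      have h2 : b ∈ Submodule.span W.K (e.φ X '' ((W₁.gr X i).map
          (LinearMap.mulLeft W₁.K (W₁.cl X D) ^ (X.dim - i)))) :=
        Submodule.span_mono (Set.image_mono h1) hb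
      rw [← span_image e (e.mulLeft_pow D _), ← e.gr_eq] at h2
      obtain ⟨a, ha, hab⟩ := h2
      exact ⟨a, ha, hab⟩
  · intro h i hi
    constructor
    · intro a ha h0
      apply e.inj
      apply (h i hi).1 _ (e.gr ha)
      rw [← e.mulLeft_pow, h0, map_zero]
    · intro b hb
      obtain ⟨a, ha, hab⟩ := (h i hi).2 _ (e.gr hb)
      have h2 : e.φ X b ∈ Submodule.span W.K (e.φ X '' ((W₁.gr X i).map
          (LinearMap.mulLeft W₁.K (W₁.cl X D) ^ (X.dim - i)))) := by
        rw [← span_image e (e.mulLeft_pow D _), ← e.gr_eq]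
        exact ⟨a, ha, hab⟩
      obtain ⟨a, ha, hab⟩ := e.mem_of_span h2
      exact ⟨a, ha, hab⟩

end Ext

end Pool.Agent.H447
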