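import Pool.Agent.H447R3.FgD
import Pool.Agent.H447R3.GpA
import Pool.Agent.H914R2.WBase2
import Mathlib.FieldTheory.IsAlgClosed.AlgebraicClosure

/-!
# Extension of the coefficients and the strong Tate conjecture
-/

open CategoryTheory AlgebraicGeometry Finset TensorProduct

universe u v v₁ w

namespace Pool.Agent.H447

open Pool.Agent.H914 VarClass Obj WeilCohomology

variable {k : Type u} [Field k] {𝒱 : VarClass k} {ops : CycleOps 𝒱}

/-- The extension of the coefficients as an extension of Weil cohomology theories. -/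
noncomputable def extBase (W : WeilCohomology.{u, v} ops) (L : Type v) [Field L]
    [Algebra W.K L] : Extension W (baseW W L) where
  σ := algebraMap W.K L
  φ Y := (Algebra.TensorProduct.includeRight : W.H Y →ₐ[W.K] L ⊗[W.K] W.H Y).toRingHom
  isExtension Y :=
    { smul := fun c a => by
        change (1 : L) ⊗ₜ[W.K] (c • a) = algebraMap W.K L c • ((1 : L) ⊗ₜ[W.K] a)
        rw [TensorProduct.tmul_smul, algebraMap_smul]
      gr := fun i a ha => Submodule.tmul_mem_baseChange_of_mem 1 ha
      tr := fun a => by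
        change formBase L (W.tr Y) ((1 : L) ⊗ₜ[W.K] a) = _
        rw [formBase_tmul, one_mul]
        rfl
      span := by
        rw [eq_top_iff]
        intro x _
        change x ∈ Submodule.span L (Set.range fun a : W.H Y => (1 : L) ⊗ₜ[W.K] a)
        refine tmul_induction (P := fun x => x ∈ Submodule.span L
          (Set.range fun a : W.H Y => (1 : L) ⊗ₜ[W.K] a)) (Submodule.zero_mem _)
          (fun x y => Submodule.add_mem _) ?_ x
        intro l a
        have : l ⊗ₜ[W.K] a = l • ((1 : L) ⊗ₜ[W.K] a) := by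
          rw [TensorProduct.smul_tmul', smul_eq_mul, mul_one]
        rw [this]
        exact Submodule.smul_mem _ _ (Submodule.subset_span ⟨a, rfl⟩) }
  map f a := by
    change (1 : L) ⊗ₜ[W.K] (W.map f a) = mapBase L (W.map f) ((1 : L) ⊗ₜ[W.K] a)
    rw [Algebra.TensorProduct.map_tmul]
    rfl
  cl Y z := rfl

section Ext

variable {W₁ : WeilCohomology.{u, v₁} ops} {W : WeilCohomology.{u, v} ops} {Y : 𝒱.Obj}
  (e : Extension W₁ W)

/-- Kernels of extended operators. -/
lemma Extension.ker {T : Module.End W₁.K (W₁.H Y)} {T' : Module.End W.K (W.H Y)}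
    (hT : ∀ a, e.φ Y (T a) = T' (e.φ Y a)) {S : Submodule W₁.K (W₁.H Y)} {x : W.H Y}
    (hx : x ∈ Submodule.span W.K (e.φ Y '' S)) (h0 : T' x = 0) :
    x ∈ Submodule.span W.K (e.φ Y '' (S ⊓ LinearMap.ker T : Submodule W₁.K (W₁.H Y))) := by
  obtain ⟨C, hC⟩ := (S ⊓ LinearMap.ker T).exists_isCompl
  have hS : (S ⊓ LinearMap.ker T) ⊔ (C ⊓ S) = S := by
    rw [← sup_inf_assoc_of_le C (inf_le_left : S ⊓ LinearMap.ker T ≤ S), hC.sup_eq_top,
      top_inf_eq]
  have hle : Submodule.span W.K (e.φ Y '' S) ≤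
      Submodule.span W.K (e.φ Y '' (S ⊓ LinearMap.ker T : Submodule W₁.K (W₁.H Y))) ⊔
        Submodule.span W.K (e.φ Y '' (C ⊓ S : Submodule W₁.K (W₁.H Y))) := by
    rw [Submodule.span_le]
    rintro _ ⟨a, ha, rfl⟩
    have ha' : a ∈ (S ⊓ LinearMap.ker T) ⊔ (C ⊓ S) := by rw [hS]; exact ha
    obtain ⟨b, hb, c, hc, rfl⟩ := Submodule.mem_sup.1 ha'
    rw [map_add]
    exact Submodule.add_mem_sup (Submodule.subset_span ⟨b, hb, rfl⟩)
      (Submodule.subset_span ⟨c, hc, rfl⟩)
  obtain ⟨y, hy, z, hz, rfl⟩ := Submodule.mem_sup.1 (hle hx)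
  have hy0 : T' y = 0 := by
    have : Submodule.span W.K (e.φ Y '' (S ⊓ LinearMap.ker T : Submodule W₁.K (W₁.H Y))) ≤
        LinearMap.ker T' := by
      rw [Submodule.span_le]
      rintro _ ⟨a, ha, rfl⟩
      rw [SetLike.mem_coe, LinearMap.mem_ker, ← hT, LinearMap.mem_ker.1 ha.2, map_zero]
    exact this hy
  rw [map_add, hy0, zero_add] at h0
  have hz0 : z = 0 := by
    refine e.injOn hT (S := C ⊓ S) ?_ hz h0
    intro a ha ha0
    have h1 : a ∈ (S ⊓ LinearMap.ker T) ⊓ C := ⟨⟨ha.2, LinearMap.mem_ker.2 ha0⟩, ha.1⟩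
    rw [hC.inf_eq_bot] at h1
    exact (Submodule.mem_bot _).1 h1
  rw [hz0, add_zero]
  exact hy

lemma Extension.spanCycles {j : ℕ} {a : W₁.H Y} (ha : a ∈ spanCycles W₁ Y j) :
    e.φ Y a ∈ Pool.Agent.H914.spanCycles W Y j := by
  rw [spanCycles_eq] at ha
  induction ha using Submodule.span_induction with
  | mem a ha =>
    obtain ⟨z, hz, rfl⟩ := ha
    rw [e.cl]
    exact mem_span_cl hz
  | zero => rw [map_zero]; exact Submodule.zero_mem _
  | add x y _ _ hx hy => rw [map_add]; exact Submodule.add_mem _ hx hy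
  | smul c x _ hx => rw [e.smul]; exact Submodule.smul_mem _ _ hx

lemma Extension.mem_spanCycles {j : ℕ} {a : W₁.H Y}
    (h : e.φ Y a ∈ Pool.Agent.H914.spanCycles W Y j) : a ∈ Pool.Agent.H914.spanCycles W₁ Y j := by
  apply e.mem_of_span
  rw [spanCycles_eq] at h
  refine Submodule.span_mono ?_ h
  rintro _ ⟨z, hz, rfl⟩
  exact ⟨W₁.cl Y z, mem_span_cl hz, e.cl Y z⟩

lemma Extension.pole (g : Y ⟶ Y) (q m j N : ℕ) (a : W₁.H Y) :
    e.φ Y ((((W₁.map g).toLinearMap ^ m - algebraMap W₁.K (Module.End W₁.K (W₁.H Y))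
      ((q : W₁.K) ^ (m * j))) ^ N) a) =
      (((W.map g).toLinearMap ^ m - algebraMap W.K (Module.End W.K (W.H Y))
      ((q : W.K) ^ (m * j))) ^ N) (e.φ Y a) := by
  have h1 : ∀ m a, e.φ Y (((W₁.map g).toLinearMap ^ m) a) =
      ((W.map g).toLinearMap ^ m) (e.φ Y a) := by
    intro m
    induction m with
    | zero => intro a; rfl
    | succ m ih =>
      intro a
      rw [pow_succ, Module.End.mul_apply, ih, pow_succ, Module.End.mul_apply]
      congr 1
      exact e.map g a
  induction N generalizing a with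
  | zero => rfl
  | succ N ih =>
    rw [pow_succ, Module.End.mul_apply, ih, pow_succ, Module.End.mul_apply]
    congr 1
    rw [LinearMap.sub_apply, LinearMap.sub_apply, map_sub, h1, Module.algebraMap_end_apply,
      Module.algebraMap_end_apply, e.smul, map_pow, map_natCast]

include e in
/-- The strong Tate conjecture does not change under extension of the coefficients. -/
theorem Extension.strongTate_iff (g : Y ⟶ Y) (q : ℕ) :
    StrongTate W₁ Y g q ↔ StrongTate W Y g q := by
  constructor
  · rintro h j b hb ⟨m, hm, N, hN⟩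
    rw [e.gr_eq] at hb
    have h1 := e.ker (e.pole g q m j N) hb hN
    refine Submodule.span_le.2 ?_ h1
    rintro _ ⟨a, ha, rfl⟩
    exact e.spanCycles (h j a ha.1 ⟨m, hm, N, LinearMap.mem_ker.1 ha.2⟩)
  · rintro h j a ha ⟨m, hm, N, hN⟩
    apply e.mem_spanCycles
    apply h j _ (e.gr ha)
    refine ⟨m, hm, N, ?_⟩
    rw [← e.pole, hN, map_zero]

end Ext

section Main

/-- The eigenvalue of a generalized eigenvector is a root of each polynomial annihilating it. -/
lemma isRoot_of_genEig {K : Type*} [Field K] {V : Type*} [AddCommGroup V] [Module K V]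
    {F : Module.End K V} {α : K} {v : V} (hv : v ≠ 0) (h : GenEig F α v) {P : Polynomial K}
    (hP : Polynomial.aeval F P v = 0) : P.IsRoot α := by
  by_contra hroot
  obtain ⟨N, hN⟩ := h
  have h1 : IsCoprime (Polynomial.X - Polynomial.C α) P := by
    rw [(Polynomial.irreducible_X_sub_C α).coprime_iff_not_dvd, Polynomial.dvd_iff_isRoot]
    exact hroot
  obtain ⟨a, b, hab⟩ := (h1.pow_left (m := N))
  apply hv
  have h2 := congrArg (fun Q => Polynomial.aeval F Q v) hab
  simp only [map_add, map_mul, map_pow, map_sub, Polynomial.aeval_X, Polynomial.aeval_C, map_one,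
    LinearMap.add_apply, Module.End.mul_apply, Module.End.one_apply] at h2
  rw [hN, hP, map_zero, map_zero, add_zero] at h2
  exact h2.symm

lemma isAlgebraic_closure_rat : Algebra.IsAlgebraic ℚ (AlgebraicClosure ℚ) := by
  have h := @AlgebraicClosure.isAlgebraic ℚ _
  have e : (DivisionRing.toRatAlgebra : Algebra ℚ (AlgebraicClosure ℚ)) =
    AlgebraicClosure.instAlgebra ℚ := Subsingleton.elim _ _
  rw [e]
  exact h

/-- The pairs of a degree `j ≤ d` and a root of the polynomial `P j`. -/
abbrev RootData (d : ℕ) (P : ℕ → Polynomial ℚ) : Type :=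
  Σ j : Fin (d + 1), (P j).rootSet (AlgebraicClosure ℚ)

instance (d : ℕ) (P : ℕ → Polynomial ℚ) : Finite (RootData d P) := inferInstance

variable {W₁ : WeilCohomology.{u, v₁} ops} {W : WeilCohomology.{u, v} ops} {Y : 𝒱.Obj}
  (e : Extension W₁ W)

lemma Extension.aeval (g : Y ⟶ Y) (P : Polynomial ℚ) (a : W₁.H Y) :
    e.φ Y (Polynomial.aeval (W₁.map g).toLinearMap (P.map (algebraMap ℚ W₁.K)) a) =
      Polynomial.aeval (W.map g).toLinearMap (P.map (algebraMap ℚ W.K)) (e.φ Y a) := by
  have h1 : ∀ m a, e.φ Y (((W₁.map g).toLinearMap ^ m) a) =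
      ((W.map g).toLinearMap ^ m) (e.φ Y a) := by
    intro m
    induction m with
    | zero => intro a; rfl
    | succ m ih =>
      intro a
      rw [pow_succ, Module.End.mul_apply, ih, pow_succ, Module.End.mul_apply]
      congr 1
      exact e.map g a
  induction P using Polynomial.induction_on' with
  | add p q hp hq =>
    rw [Polynomial.map_add, map_add, LinearMap.add_apply, map_add, hp, hq, Polynomial.map_add,
      map_add, LinearMap.add_apply]
  | monomial n c =>
    rw [Polynomial.map_monomial, Polynomial.map_monomial, Polynomial.aeval_monomial,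
      Polynomial.aeval_monomial, Module.End.mul_apply, Module.End.mul_apply,
      Module.algebraMap_end_apply, Module.algebraMap_end_apply, e.smul, h1]
    congr 1
    rw [eq_ratCast, eq_ratCast, map_ratCast]

include e in
lemma Extension.frobeniusBound {g : Y ⟶ Y} {d : ℕ} {P : ℕ → Polynomial ℚ}
    (h : FrobeniusBound W₁ Y g d P) : FrobeniusBound W Y g d P := by
  refine ⟨?_, ?_⟩
  · intro j hj
    rw [e.gr_eq, h.1 j hj]
    rw [eq_bot_iff, Submodule.span_le]
    rintro _ ⟨a, ha, rfl⟩
    rw [(Submodule.mem_bot _).1 ha, map_zero]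
    exact Submodule.zero_mem _
  · intro j hj a ha
    rw [e.gr_eq] at ha
    induction ha using Submodule.span_induction with
    | mem a ha =>
      obtain ⟨b, hb, rfl⟩ := ha
      rw [← e.aeval, h.2 j hj b hb, map_zero]
    | zero => rw [map_zero]
    | add x y _ _ hx hy => rw [map_add, hx, hy, add_zero]
    | smul c x _ hx => rw [map_smul, hx, smul_zero]

/-- **The strong Tate conjecture for all products follows from finitely many products.** -/
theorem strongTate_uniform (q : ℕ) (hq : q ≠ 0) (d : ℕ) (P : ℕ → Polynomial ℚ)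
    (hP : ∀ j, P j ≠ 0) : ∃ N : ℕ, ∀ {k : Type u} [Field k] {𝒱 : VarClass k} {ops : CycleOps 𝒱}
      (W : WeilCohomology.{u, v} ops) {ι : Type w} (X : ι → 𝒱.Obj) (f : ∀ i, X i ⟶ X i),
      (∀ i, FrobeniusBound W (X i) (f i) d P) →
      (∀ i l, l.length < N → StrongTate W (listProd X i l) (listMap X f i l) q) →
      ∀ i l, StrongTate W (listProd X i l) (listMap X f i l) q := by
  classical
  obtain ⟨N, hN⟩ := dickson (Λ := RootData d P)
    (TateWord (fun x => (x.1 : ℕ)) (fun x => (x.2 : AlgebraicClosure ℚ)) q)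
    (fun t u => tateWord_sub _ _ hq t u)
  refine ⟨N, ?_⟩
  intro k _ 𝒱 ops W₀ ι X f hB hT i l
  set C := AlgebraicClosure W₀.K with hC
  set W := baseW W₀ C with hW
  have hWcl : IsAlgClosed W.K := inferInstanceAs (IsAlgClosed C)
  set e := extBase W₀ C with he
  rw [e.strongTate_iff]
  obtain ⟨L⟩ := exists_letters (W := W) (X := X) (f := f)
  have halg : Algebra.IsAlgebraic ℚ (AlgebraicClosure ℚ) := isAlgebraic_closure_rat
  let τ : AlgebraicClosure ℚ →+* W.K :=
    ((IsAlgClosed.lift : AlgebraicClosure ℚ →ₐ[ℚ] W.K) : AlgebraicClosure ℚ →+* W.K)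
  -- the root attached to a letter
  have hr : ∀ x : L.Λ, ∃ y : RootData d P, (y.1 : ℕ) = L.deg x.1 x.2 ∧
      τ (y.2 : AlgebraicClosure ℚ) = L.ev x.1 x.2 := by
    rintro ⟨i, x⟩
    have hBi := e.frobeniusBound (hB i)
    have hdeg : L.deg i x ≤ d := by
      by_contra hlt
      have h1 := L.mem i x
      rw [hBi.1 _ (by omega)] at h1
      exact L.ne_zero i x ((Submodule.mem_bot _).1 h1)
    have h2 := hBi.2 _ hdeg _ (L.mem i x)
    have h3 := isRoot_of_genEig (L.ne_zero i x) (L.gen i x) h2
    have hP' : (P (L.deg i x)).map (algebraMap ℚ (AlgebraicClosure ℚ)) ≠ 0 :=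
      Polynomial.map_ne_zero (hP _)
    have h4 : ((P (L.deg i x)).map (algebraMap ℚ (AlgebraicClosure ℚ))).map τ =
        (P (L.deg i x)).map (algebraMap ℚ W.K) := by
      rw [Polynomial.map_map]
      congr 1
      exact Subsingleton.elim _ _
    have h5 : L.ev i x ∈ (((P (L.deg i x)).map (algebraMap ℚ (AlgebraicClosure ℚ))).map τ).roots := by
      rw [Polynomial.mem_roots (Polynomial.map_ne_zero hP'), h4]
      exact h3
    rw [(IsAlgClosed.splits _).roots_map τ, Multiset.mem_map] at h5
    obtain ⟨α, hα, hαx⟩ := h5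
    refine ⟨⟨⟨L.deg i x, by omega⟩, ⟨α, ?_⟩⟩, rfl, hαx⟩
    rw [Polynomial.mem_rootSet']
    refine ⟨hP', ?_⟩
    have h6 := (Polynomial.mem_roots hP').1 hα
    rw [Polynomial.IsRoot, Polynomial.eval_map_algebraMap] at h6
    exact h6
  choose r hr1 hr2 using hr
  have hword : ∀ s : Multiset L.Λ, IsTateWord L q s ↔
      TateWord (fun x : RootData d P => (x.1 : ℕ)) (fun x => (x.2 : AlgebraicClosure ℚ)) q
        (s.map r) := by
    intro s
    have h1 : ((s.map r).map (fun x : RootData d P => (x.1 : ℕ))) =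
        s.map (fun x => L.deg x.1 x.2) := by
      rw [Multiset.map_map]
      exact Multiset.map_congr rfl (fun x _ => hr1 x)
    have h2 : τ ((s.map r).map (fun x : RootData d P => (x.2 : AlgebraicClosure ℚ))).prod =
        (s.map (fun x => L.ev x.1 x.2)).prod := by
      rw [map_multiset_prod, Multiset.map_map, Multiset.map_map]
      congr 1
      exact Multiset.map_congr rfl (fun x _ => hr2 x)
    rw [IsTateWord, TateWord, TateWord, h1, ← h2]
    refine exists_congr fun j => and_congr_right fun _ => exists_congr fun m =>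
      and_congr_right fun _ => ?_
    rw [← map_pow, ← τ.injective.eq_iff (a := _ ^ m), map_pow τ (q : AlgebraicClosure ℚ),
      map_natCast]
  refine strongTate_of_letters L (N := N) ?_ ?_ i l
  · intro s hs hcard
    rw [hword] at hs
    obtain ⟨t', u', htu, ht0, hu0, ht, hu⟩ := hN _ hs (by rwa [Multiset.card_map])
    obtain ⟨t, u, rfl, rfl, rfl⟩ := exists_lift r s t' u' htu
    refine ⟨t, u, rfl, ?_, ?_, (hword t).2 ht, (hword u).2 hu⟩
    · rintro rfl
      exact ht0 (Multiset.map_zero _)
    · rintro rfl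
      exact hu0 (Multiset.map_zero _)
  · intro i l hl
    exact (e.strongTate_iff _ _).1 (hT i l hl)

end Main

end Pool.Agent.H447
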