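import Pool.Agent.H447R3.FgE
import Mathlib.Topology.Algebra.Polynomial
import Mathlib.Analysis.Complex.Polynomial.Basic

/-!
# A uniform bound
-/

open CategoryTheory AlgebraicGeometry Finset

universe u v w

namespace Pool.Agent.H447

open Pool.Agent.H914 VarClass Obj WeilCohomology

/-- There are finitely many polynomials with integer coefficients of bounded degree and height. -/
lemma finite_polys (d : ℕ) (C : ℕ) :
    {P : Polynomial ℤ | P.natDegree ≤ d ∧ ∀ i, |P.coeff i| ≤ C}.Finite := by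
  apply Set.Finite.of_finite_image (f := fun P => fun (i : Fin (d + 1)) => P.coeff i)
  · refine (Set.Finite.pi' (t := fun _ : Fin (d + 1) => Set.Icc (-(C : ℤ)) C)
      (fun i => Set.finite_Icc _ _)).subset ?_
    rintro _ ⟨P, hP, rfl⟩ i
    exact abs_le.1 (hP.2 i)
  · intro P hP Q hQ hPQ
    ext i
    by_cases hi : i ≤ d
    · exact congrFun hPQ ⟨i, by omega⟩
    · rw [Polynomial.coeff_eq_zero_of_natDegree_lt (by have := hP.1; omega),
        Polynomial.coeff_eq_zero_of_natDegree_lt (by have := hQ.1; omega)]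

/-- There are finitely many Weil polynomials of bounded degree. -/
lemma finite_weil (q B j : ℕ) : {P : Polynomial ℤ | P.Monic ∧ P.natDegree ≤ B ∧
    ∀ z : ℂ, Polynomial.aeval z P = 0 → ‖z‖ ^ 2 = (q : ℝ) ^ j}.Finite := by
  set R : ℝ := max ((q : ℝ) ^ j) 1 with hR
  set C : ℝ := max R 1 ^ B * B.choose (B / 2) with hC
  obtain ⟨C', hC'⟩ := exists_nat_ge C
  refine (finite_polys B C').subset ?_
  rintro P ⟨hm, hd, hz⟩
  refine ⟨hd, fun i => ?_⟩
  have h1 := Polynomial.coeff_bdd_of_roots_le (B := R) (d := B) (Int.castRingHom ℂ) hm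
    (IsAlgClosed.splits _) hd (by
      intro z hzr
      have hP0 : P.map (Int.castRingHom ℂ) ≠ 0 := (hm.map _).ne_zero
      have h2 := (Polynomial.mem_roots hP0).1 hzr
      have h3 : Polynomial.aeval z P = 0 := by
        rw [Polynomial.aeval_def, ← Polynomial.eval_map]
        exact h2
      have h4 := hz z h3
      have h5 : ‖z‖ ^ 2 ≤ R := by rw [h4]; exact le_max_left _ _
      have h6 : 1 ≤ R := le_max_right _ _
      nlinarith [norm_nonneg z]) i
  rw [Polynomial.coeff_map] at h1
  have h7 : ((|P.coeff i| : ℤ) : ℝ) ≤ (C' : ℝ) := by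
    refine le_trans ?_ (le_trans h1 hC')
    rw [Int.cast_abs, eq_intCast, Complex.norm_intCast]
  exact_mod_cast h7

/-- **The strong Tate conjecture for all products follows from products of boundedly many
varieties.** -/
theorem strongTate_weil (q : ℕ) (hq : q ≠ 0) (n B : ℕ) :
    ∃ N : ℕ, ∀ {k : Type u} [Field k] {𝒱 : VarClass k} {ops : CycleOps 𝒱}
      (W : WeilCohomology.{u, v} ops) {ι : Type w} (X : ι → 𝒱.Obj) (f : ∀ i, X i ⟶ X i),
      (∀ i, (X i).dim ≤ n) → (∀ i, WeilBound W (X i) (f i) q B) →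
      (∀ i l, l.length < N → StrongTate W (listProd X i l) (listMap X f i l) q) →
      ∀ i l, StrongTate W (listProd X i l) (listMap X f i l) q := by
  classical
  set S : ℕ → Finset (Polynomial ℤ) := fun j => (finite_weil q B j).toFinset with hS
  set P : ℕ → Polynomial ℚ := fun j => ∏ p ∈ S j, p.map (Int.castRingHom ℚ) with hP
  have hP0 : ∀ j, P j ≠ 0 := by
    intro j
    rw [hP]
    apply Finset.prod_ne_zero_iff.2
    intro p hp
    have h1 : p.Monic := ((finite_weil q B j).mem_toFinset.1 hp).1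
    exact (h1.map _).ne_zero
  obtain ⟨N, hN⟩ := strongTate_uniform.{u, v, w} q hq (2 * n) P hP0
  refine ⟨N, ?_⟩
  intro k _ 𝒱 ops W ι X f hdim hW hT
  apply hN W X f _ hT
  intro i
  refine ⟨fun j hj => W.gr_eq_bot (X i) j (by have := hdim i; omega), ?_⟩
  intro j _ a ha
  obtain ⟨p, ⟨hp1, hp2, hp3⟩, hp4⟩ := hW i j
  have hmem : p ∈ S j := (finite_weil q B j).mem_toFinset.2 ⟨hp1, hp2, hp3⟩
  have h1 : (p.map (Int.castRingHom ℚ)).map (algebraMap ℚ W.K) = p.map (algebraMap ℤ W.K) := by
    rw [Polynomial.map_map]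
    congr 1
    exact Subsingleton.elim _ _
  have h2 : (P j).map (algebraMap ℚ W.K) = (∏ p ∈ (S j).erase p,
      p.map (Int.castRingHom ℚ)).map (algebraMap ℚ W.K) * p.map (algebraMap ℤ W.K) := by
    rw [← h1, ← Polynomial.map_mul, Finset.prod_erase_mul _ _ hmem]
  rw [h2, map_mul, Module.End.mul_apply, hp4 a ha, map_zero]

end Pool.Agent.H447
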