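import Pool.Agent.H914R2.KDefs2

/-!
# Comparison of Weil cohomology theories and the period conjecture for algebraic cycles:
definitions
-/

open CategoryTheory AlgebraicGeometry

universe u v v₁ v₂

namespace Pool.Agent.H447

section Alg

variable {K : Type*} [Field K] {L : Type*} [Field L] {A : Type*} [Ring A] [Algebra K A]
  {B : Type*} [Ring B] [Algebra L B]

/-- The ring homomorphism `φ` from the graded `K`-algebra `A` to the graded `L`-algebra `B` is
semilinear with respect to the embedding of fields `σ : K → L`, it preserves the degrees and is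
compatible with the orientations, and its image generates `B` as a vector space over `L`. (Then `B`
is the extension of scalars of `A` if `A` satisfies Poincare duality.) -/
structure IsExtension (σ : K →+* L) (grA : ℕ → Submodule K A) (grB : ℕ → Submodule L B)
    (trA : A →ₗ[K] K) (trB : B →ₗ[L] L) (φ : A →+* B) : Prop where
  smul : ∀ c a, φ (c • a) = σ c • φ a
  gr : ∀ i, ∀ a ∈ grA i, φ a ∈ grB i
  tr : ∀ a, trB (φ a) = σ (trA a)
  span : Submodule.span L (Set.range φ) = ⊤

end Alg

open Pool.Agent.H914 VarClass Obj WeilCohomology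

variable {k : Type u} [Field k] {𝒱 : VarClass k} {ops : CycleOps 𝒱}

/-- The Weil cohomology theory `W` is the extension of scalars of the Weil cohomology theory `W₁`
to a larger field: there are an embedding `σ` of the coefficient fields and semilinear ring
homomorphisms `φ Y` from `H₁(Y)` to `H(Y)`, compatible with degrees, orientations, pull-backs and
cycle classes, whose images generate `H(Y)`. -/
structure Extension (W₁ : WeilCohomology.{u, v₁} ops) (W : WeilCohomology.{u, v} ops) where
  /-- the embedding of the coefficients -/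
  σ : W₁.K →+* W.K
  /-- the comparison map -/
  φ : ∀ Y, W₁.H Y →+* W.H Y
  isExtension : ∀ Y, IsExtension σ (W₁.gr Y) (W.gr Y) (W₁.tr Y) (W.tr Y) (φ Y)
  map : ∀ {Y Z : 𝒱.Obj} (f : Y ⟶ Z) (a : W₁.H Z), φ Y (W₁.map f a) = W.map f (φ Z a)
  cl : ∀ (Y : 𝒱.Obj) (z : Y.Cycles), φ Y (W₁.cl Y z) = W.cl Y z

/-- The period conjecture for algebraic cycles of codimension `j` on `Y`, for two Weil cohomology
theories `W₁` and `W₂` which are compared in their common extension of scalars `W`: every class
`a ∈ H₂^(2j)(Y)` whose image in `H^(2j)(Y)` is also the image of a class `b ∈ H₁^(2j)(Y)` is a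
linear combination of classes of algebraic cycles of codimension `j`, with coefficients in the
coefficient field of `W₂`. -/
def PeriodConj {W₁ : WeilCohomology.{u, v₁} ops} {W₂ : WeilCohomology.{u, v₂} ops}
    {W : WeilCohomology.{u, v} ops} (e₁ : Extension W₁ W) (e₂ : Extension W₂ W) (Y : 𝒱.Obj)
    (j : ℕ) : Prop :=
  ∀ a ∈ W₂.gr Y (2 * j), (∃ b ∈ W₁.gr Y (2 * j), e₁.φ Y b = e₂.φ Y a) → a ∈ spanCycles W₂ Y j

end Pool.Agent.H447
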