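import Pool.Agent.H447R3.SpA

/-!
# Operators with the traces of a projector
-/

open Polynomial Finset

namespace Pool.Agent.H447

open Pool.Agent.H914

variable {K : Type*} [Field K] [CharZero K] {V : Type*} [AddCommGroup V] [Module K V]
  [Module.Finite K V]

/-- **Operators with the traces of a projector.** Let `p` be a projector commuting with `T` and let
`ε` act as `1` on the image of `p` and as the nonzero scalar `σ` on the kernel of `p`. If the
powers of `T` have the same traces against `ε T` and `ε p`, and `T ^ 2` has the same traces as `T`,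
then `p` is a polynomial in `T`. -/
theorem exists_poly_of_proj {p T ε : Module.End K V} {σ : K} (hp : p * p = p) (hT : Commute T p)
    (h1 : ε * p = p) (h2 : ε * (1 - p) = σ • (1 - p)) (hσ : σ ≠ 0)
    (hi : ∀ k : ℕ, LinearMap.trace K V (ε * T ^ (k + 1)) = LinearMap.trace K V (ε * (p * T ^ k)))
    (hii : ∀ k : ℕ, 1 ≤ k →
      LinearMap.trace K V (ε * T ^ (k + 1)) = LinearMap.trace K V (ε * T ^ k)) :
    ∃ g : ℚ[X], p = ev T g := by
  have ha : ∀ k : ℕ, LinearMap.trace K V (ε * T ^ (k + 1)) = LinearMap.trace K V (p * T ^ k) := by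
    intro k
    rw [hi, ← mul_assoc, h1]
  have ha' : ∀ k : ℕ, LinearMap.trace K V (p * T ^ k) = LinearMap.trace K V p := by
    intro k
    induction k with
    | zero => rw [pow_zero, mul_one]
    | succ k ih => rw [← ih, ← ha, ← ha, hii (k + 1) (by omega)]
  have hb : ∀ k : ℕ, LinearMap.trace K V ((1 - p) * T ^ (k + 1)) = 0 := by
    intro k
    have e1 : ε * T ^ (k + 1) = p * T ^ (k + 1) + σ • ((1 - p) * T ^ (k + 1)) := by
      rw [← smul_mul_assoc, ← h2, mul_sub, mul_one, h1]; noncomm_ring
    have e2 := congrArg (LinearMap.trace K V) e1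
    rw [map_add, map_smul, ha, ha', ha', smul_eq_mul] at e2
    have e3 : σ * LinearMap.trace K V ((1 - p) * T ^ (k + 1)) = 0 := by
      linear_combination -e2
    exact (mul_eq_zero.1 e3).resolve_left hσ
  have hpoly : ∀ g : K[X], LinearMap.trace K V (p * aeval T g) =
      g.eval 1 * LinearMap.trace K V p := by
    intro g
    induction g using Polynomial.induction_on' with
    | add a b ha hb => rw [map_add, mul_add, map_add, ha, hb, eval_add, add_mul]
    | monomial k c =>
      rw [aeval_monomial, Algebra.algebraMap_eq_smul_one, smul_mul_assoc, one_mul, mul_smul_comm,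
        map_smul, ha', eval_monomial, one_pow, mul_one, smul_eq_mul]
  -- the two parts are nilpotent
  have hn1 : IsNilpotent (p * (T - 1)) := by
    apply isNilpotent_of_trace_pow
    intro k
    have hc : Commute p (T - 1) := hT.symm.sub_right (Commute.one_right p)
    have hpk : p ^ (k + 1) = p := by
      induction k with
      | zero => rw [zero_add, pow_one]
      | succ k ih => rw [pow_succ, ih, hp]
    have e1 : (T - 1) ^ (k + 1) = aeval T ((X - 1) ^ (k + 1) : K[X]) := by simp
    rw [hc.mul_pow, hpk, e1, hpoly]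
    simp
  have hn2 : IsNilpotent ((1 - p) * T) := by
    apply isNilpotent_of_trace_pow
    intro k
    have hc : Commute (1 - p) T := (Commute.one_left T).sub_left hT.symm
    have hq : (1 - p) * (1 - p) = 1 - p := by rw [mul_sub, sub_mul, sub_mul, hp]; simp
    have hpk : (1 - p) ^ (k + 1) = 1 - p := by
      induction k with
      | zero => rw [zero_add, pow_one]
      | succ k ih => rw [pow_succ, ih, hq]
    rw [hc.mul_pow, hpk, hb]
  obtain ⟨N1, hN1⟩ := hn1
  obtain ⟨N2, hN2⟩ := hn2
  set N := N1 + N2 + 1 with hN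
  have hc1 : Commute p (T - 1) := hT.symm.sub_right (Commute.one_right p)
  have hc2 : Commute (1 - p) T := (Commute.one_left T).sub_left hT.symm
  have hA : p * (T - 1) ^ N = 0 := by
    have e1 : p ^ N = p := by
      rw [hN]
      generalize N1 + N2 = m
      induction m with
      | zero => rw [zero_add, pow_one]
      | succ k ih => rw [pow_succ, ih, hp]
    have e2 : (p * (T - 1)) ^ N = 0 := by
      rw [hN, add_assoc, pow_add, hN1, zero_mul]
    rw [hc1.mul_pow, e1] at e2
    exact e2
  have hB : (1 - p) * T ^ N = 0 := by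
    have hq : (1 - p) * (1 - p) = 1 - p := by rw [mul_sub, sub_mul, sub_mul, hp]; simp
    have e1 : (1 - p) ^ N = 1 - p := by
      rw [hN]
      generalize N1 + N2 = m
      induction m with
      | zero => rw [zero_add, pow_one]
      | succ k ih => rw [pow_succ, ih, hq]
    have e2 : ((1 - p) * T) ^ N = 0 := by
      rw [hN, show N1 + N2 + 1 = N2 + (N1 + 1) by ring, pow_add, hN2, zero_mul]
    rw [hc2.mul_pow, e1] at e2
    exact e2
  refine ⟨1 - (1 - X ^ N) ^ N, ?_⟩
  have hev : ev T (1 - (1 - X ^ N) ^ N) = 1 - (1 - T ^ N) ^ N := by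
    rw [map_sub, map_one, map_pow, map_sub, map_one, map_pow, ev_X]
  rw [hev]
  have e1 : p * (1 - T ^ N) ^ N = 0 := by
    have e2 : (1 - T ^ N : Module.End K V) = (T - 1) * (-(∑ i ∈ range N, T ^ i)) := by
      rw [mul_neg, mul_geom_sum]; abel
    have e3 : Commute (T - 1) (-(∑ i ∈ range N, T ^ i)) := by
      apply Commute.neg_right
      apply Commute.sum_right
      intro i _
      exact ((Commute.refl T).sub_left (Commute.one_left T)).pow_right i
    rw [e2, e3.mul_pow, ← mul_assoc, hA, zero_mul]
  have e2 : (1 - p) * (1 - T ^ N) ^ N = 1 - p := by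
    have e3 : ∀ m : ℕ, (1 - p) * (1 - T ^ N) ^ m = 1 - p := by
      intro m
      induction m with
      | zero => rw [pow_zero, mul_one]
      | succ m ih => rw [pow_succ, ← mul_assoc, ih, mul_sub, mul_one, hB, sub_zero]
    exact e3 N
  have e3 : (1 - T ^ N) ^ N = 1 - p := by
    have e4 : (1 - T ^ N : Module.End K V) ^ N = p * (1 - T ^ N) ^ N + (1 - p) * (1 - T ^ N) ^ N := by
      noncomm_ring
    rw [e4, e1, e2, zero_add]
  rw [e3]; abel

end Pool.Agent.H447
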