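import Pool.Agent.H447R3.WtDefs

/-!
# Numerically central correspondences: definitions
-/

open CategoryTheory AlgebraicGeometry

universe u v

namespace Pool.Agent.H447

/-- The trace of `H ∘ u` is zero. -/
def TraceZero {K : Type*} [Field K] {V : Type*} [AddCommGroup V] [Module K V]
    (H u : Module.End K V) : Prop :=
  LinearMap.trace K V (H * u) = 0

/-- The operator `u` commutes with the multiplication by `a`. -/
def CommutesWithMul {K : Type*} [Field K] {A : Type*} [Ring A] [Algebra K A] (a : A)
    (u : A →ₗ[K] A) : Prop :=
  ∀ x, u (a * x) = a * u x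

open Pool.Agent.H914 VarClass Obj WeilCohomology

variable {k : Type u} [Field k] {𝒱 : VarClass k} {ops : CycleOps 𝒱}

/-- The cycles `z` and `z'` of codimension `p` on `Y` are numerically equivalent: they have the
same intersection numbers with all cycles of codimension `dim Y - p`. -/
def NumEquiv (ops : CycleOps 𝒱) (Y : 𝒱.Obj) (p : ℕ) (z z' : Y.Cycles) : Prop :=
  ∀ y, Y.IsCyc (Y.dim - p) y → Y.V.degCycle (ops.mul z y) = Y.V.degCycle (ops.mul z' y)

/-- The correspondence `u` of degree zero (a cycle of codimension `dim X` on `X × X`) commutes up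
to numerical equivalence with all correspondences (cycles of any codimension `p` on `X × X`). -/
def NumCentral (ops : CycleOps 𝒱) (X : 𝒱.Obj) (u : (X.prod X).Cycles) : Prop :=
  ∀ p ≤ 2 * X.dim, ∀ x, (X.prod X).IsCyc p x →
    NumEquiv ops (X.prod X) p (compCyc ops u x) (compCyc ops x u)

/-- The sum of the numbers `(j - n)` times the trace of `u` on `H^j(X)` is zero, where
`n = dim X`. -/
def WeightedTraceZero (W : WeilCohomology.{u, v} ops) (X : 𝒱.Obj) (u : (X.prod X).Cycles) :
    Prop :=
  ∀ H, IsWeightOp (W.gr X) X.dim H → TraceZero H (W.corr (W.cl (X.prod X) u))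

/-- The action of `u` on the cohomology commutes with the Lefschetz operator of `D`. -/
def CommutesWithL (W : WeilCohomology.{u, v} ops) (X : 𝒱.Obj) (D : X.Cycles)
    (u : (X.prod X).Cycles) : Prop :=
  CommutesWithMul (W.cl X D) (W.corr (W.cl (X.prod X) u))

/-- Every correspondence of degree zero which commutes up to numerical equivalence with all
correspondences is numerically equivalent to one which commutes with the Lefschetz operator. -/
def CentralCommute (W : WeilCohomology.{u, v} ops) (X : 𝒱.Obj) (D : X.Cycles) : Prop :=
  ∀ u, (X.prod X).IsCyc X.dim u → NumCentral ops X u →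
    ∃ u', (X.prod X).IsCyc X.dim u' ∧ NumEquiv ops (X.prod X) X.dim u u' ∧
      CommutesWithL W X D u'

/-- For every correspondence `u` of degree zero which commutes up to numerical equivalence with
all correspondences, the weighted sum of the traces of `u` on the `H^j(X)` is zero. -/
def CentralTraceZero (W : WeilCohomology.{u, v} ops) (X : 𝒱.Obj) : Prop :=
  ∀ u, (X.prod X).IsCyc X.dim u → NumCentral ops X u → WeightedTraceZero W X u

end Pool.Agent.H447
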