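import Pool.Agent.H447R3.SpDefs
import Pool.Agent.H447R3.NcDefs

/-!
# Numerical Kunneth projectors: definitions
-/

open CategoryTheory AlgebraicGeometry

universe u v

namespace Pool.Agent.H447

section Alg

variable {K : Type*} [Field K] {V : Type*} [AddCommGroup V] [Module K V]

/-- The operator `P` is the projector onto `gr i`. -/
def IsProjTo (gr : ℕ → Submodule K V) (i : ℕ) (P : Module.End K V) : Prop :=
  ∀ j, ∀ a ∈ gr j, P a = if j = i then a else 0

end Alg

open Pool.Agent.H914 VarClass Obj WeilCohomology

variable {k : Type u} [Field k] {𝒱 : VarClass k} {ops : CycleOps 𝒱}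

/-- The cycle `z` on `Y` has the same intersection numbers as the class `τ` with all cycles of
codimension `q`. -/
def NumRep (W : WeilCohomology.{u, v} ops) (Y : 𝒱.Obj) (q : ℕ) (z : Y.Cycles) (τ : W.H Y) :
    Prop :=
  ∀ u, Y.IsCyc q u → inter W Y τ (W.cl Y u) = (Y.V.degCycle (ops.mul z u) : W.K)

/-- `τ` is the `i`-th Kunneth component of the diagonal of `X`: the class of degree `2 dim X` on
`X × X` which induces the projector onto `H^i(X)`. -/
def IsKunnethClass (W : WeilCohomology.{u, v} ops) (X : 𝒱.Obj) (i : ℕ) (τ : W.H (X.prod X)) :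
    Prop :=
  τ ∈ W.gr (X.prod X) (2 * X.dim) ∧ IsProjTo (W.gr X) i (W.corr τ)

/-- `τ` is the class of degree `2 dim X` on `X × X` which induces the projector onto the even
cohomology of `X`. -/
def IsEvenClass (W : WeilCohomology.{u, v} ops) (X : 𝒱.Obj) (τ : W.H (X.prod X)) : Prop :=
  τ ∈ W.gr (X.prod X) (2 * X.dim) ∧ IsEvenProj (W.gr X) (W.corr τ)

/-- There are cycles `z i` of codimension `n = dim X` on `X × X` which have the same intersection
numbers with all cycles of codimension `n` as the Kunneth components of the diagonal, and which are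
orthogonal projectors up to numerical equivalence: `z i ∘ z j` is numerically equivalent to `z i`
if `i = j` and to `0` otherwise. -/
def KunnethNum (W : WeilCohomology.{u, v} ops) (X : 𝒱.Obj) : Prop :=
  ∃ z : ℕ → (X.prod X).Cycles, (∀ i, (X.prod X).IsCyc X.dim (z i)) ∧
    (∀ i τ, IsKunnethClass W X i τ → NumRep W (X.prod X) X.dim (z i) τ) ∧
    ∀ i j, NumEquiv ops (X.prod X) X.dim (compCyc ops (z i) (z j)) (if i = j then z i else 0)

/-- There is a cycle `z` of codimension `n = dim X` on `X × X` which has the same intersection
numbers with all cycles of codimension `n` as the class inducing the projector onto the even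
cohomology, and which is a projector up to numerical equivalence: `z ∘ z` is numerically equivalent
to `z`. -/
def SignNum (W : WeilCohomology.{u, v} ops) (X : 𝒱.Obj) : Prop :=
  ∃ z, (X.prod X).IsCyc X.dim z ∧
    (∀ τ, IsEvenClass W X τ → NumRep W (X.prod X) X.dim z τ) ∧
    NumEquiv ops (X.prod X) X.dim (compCyc ops z z) z

/-- The automorphism of `X × X` which exchanges the two factors. -/
noncomputable def flip (X : 𝒱.Obj) : X.prod X ⟶ X.prod X := Obj.lift (snd X X) (fst X X)

/-- The classes `a` and `b` on `X × X` have the same intersection number with the transpose of the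
class `c`. -/
def SameInterT (W : WeilCohomology.{u, v} ops) (X : 𝒱.Obj) (a b c : W.H (X.prod X)) : Prop :=
  inter W (X.prod X) a (W.map (flip X) c) = inter W (X.prod X) b (W.map (flip X) c)

/-- The `i`-th Kunneth component `π` of the diagonal of `X` is algebraic. -/
def KunnethAt (W : WeilCohomology.{u, v} ops) (X : 𝒱.Obj) (i : ℕ) : Prop :=
  ∃ P, (X.prod X).IsCyc X.dim P ∧ InducesProjector W X i P

/-- There is a cycle `z` of codimension `n = dim X` on `X × X` which has the same intersection
numbers as the `i`-th Kunneth component `π` of the diagonal with all cycles of codimension `n`, and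
also with the transpose of `π`. -/
def KunnethNumAt (W : WeilCohomology.{u, v} ops) (X : 𝒱.Obj) (i : ℕ) : Prop :=
  ∃ z, (X.prod X).IsCyc X.dim z ∧ ∀ τ, IsKunnethClass W X i τ →
    NumRep W (X.prod X) X.dim z τ ∧ SameInterT W X (W.cl (X.prod X) z) τ τ

end Pool.Agent.H447
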