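import Pool.Agent.H447R3.NumDefs

/-!
# The sign conjecture and the lowering operator: definitions
-/

open CategoryTheory AlgebraicGeometry

universe u v

namespace Pool.Agent.H447

section Alg

variable {K : Type*} [Field K] {V : Type*} [AddCommGroup V] [Module K V]

/-- The operator `P` is the projector onto the sum of the `gr j` with `j` even. -/
def IsEvenProj (gr : ℕ → Submodule K V) (P : Module.End K V) : Prop :=
  ∀ j, ∀ a ∈ gr j, P a = if Even j then a else 0

/-- The commutator `L T - T L` acts as multiplication by `j - n` on `gr j`. -/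
def IsLower (gr : ℕ → Submodule K V) (n : ℕ) (L T : Module.End K V) : Prop :=
  ∀ j, ∀ a ∈ gr j, L (T a) - T (L a) = ((j : K) - (n : K)) • a

end Alg

open Pool.Agent.H914 VarClass Obj WeilCohomology

variable {k : Type u} [Field k] {𝒱 : VarClass k} {ops : CycleOps 𝒱}

/-- The sign conjecture for `X`: the projector onto the even cohomology is induced by an algebraic
cycle on `X × X`. -/
def SignStd (W : WeilCohomology.{u, v} ops) (X : 𝒱.Obj) : Prop :=
  ∃ P, (X.prod X).IsCyc X.dim P ∧ IsEvenProj (W.gr X) (W.corr (W.cl (X.prod X) P))

/-- `τ` is the class of degree `2 (n - 1)` on `X × X`, `n = dim X`, which induces the lowering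
operator attached to `D`: the operator of degree `-2` whose commutator with the cup product with
`D` is the weight operator, acting as `j - n` on `H^j(X)`. -/
def IsLoweringClass (W : WeilCohomology.{u, v} ops) (X : 𝒱.Obj) (D : X.Cycles)
    (τ : W.H (X.prod X)) : Prop :=
  τ ∈ W.gr (X.prod X) (2 * (X.dim - 1)) ∧
    IsLower (W.gr X) X.dim (LinearMap.mulLeft W.K (W.cl X D)) (W.corr τ)

/-- The class which induces the lowering operator attached to `D` has the property `P`. -/
def ForLoweringClass (W : WeilCohomology.{u, v} ops) (X : 𝒱.Obj) (D : X.Cycles)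
    (P : W.H (X.prod X) → Prop) : Prop :=
  ∀ τ, IsLoweringClass W X D τ → P τ

end Pool.Agent.H447
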