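import Pool.Agent.H447R3.SpB
import Pool.Agent.H447R3.SpDefs
import Pool.Agent.H447R3.AoC
import Pool.Agent.H447R3.DegB

/-!
# The sign conjecture, the lowering operator and the conjecture B
-/

open CategoryTheory AlgebraicGeometry Finset

universe u v

namespace Pool.Agent.H447

open Pool.Agent.H914 VarClass Obj WeilCohomology

variable {k : Type u} [Field k] {𝒱 : VarClass k} {ops : CycleOps 𝒱}
  {W : WeilCohomology.{u, v} ops} {X Y : 𝒱.Obj}

lemma par_rop_of_sign (hS : SignStd W X) : ROp W X 0 (par (W.isInternal X)) := by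
  have hOA := rop_opAlg (W := W) (X := X)
  obtain ⟨P, hP, hP'⟩ := hS
  have h1 : par (W.isInternal X) = ((2 : ℚ) : W.K) • W.corr (W.cl _ P) - 1 := by
    apply gr_ext (W.isInternal X)
    intro j a ha
    rw [par, scal_apply _ _ ha, LinearMap.sub_apply, LinearMap.smul_apply, hP' j a ha,
      Module.End.one_apply]
    split_ifs with hj
    · rw [hj.neg_one_pow, one_smul]
      push_cast
      rw [two_smul, add_sub_cancel_right]
    · rw [(Nat.not_even_iff_odd.1 hj).neg_one_pow, smul_zero, zero_sub, neg_one_smul]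
  rw [h1]
  exact hOA.sub (hOA.smul _ (rop_corr (by simp) hP)) hOA.one

lemma sign_of_kunneth (hP : ∀ i, ROp W X 0 (proj (W.isInternal X) i)) : SignStd W X := by
  have hOA := rop_opAlg (W := W) (X := X)
  have h1 : ROp W X 0 (∑ i ∈ (range (2 * X.dim + 1)).filter Even, proj (W.isInternal X) i) :=
    hOA.sum (fun i _ => hP i)
  obtain ⟨P, hP', hPe⟩ := exists_of_rop (p := X.dim) (by simp) h1
  refine ⟨P, hP', fun j a ha => ?_⟩
  rw [hPe, LinearMap.sum_apply]
  split_ifs with hj
  · by_cases hj2 : j < 2 * X.dim + 1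
    · rw [Finset.sum_eq_single j]
      · exact proj_same _ ha
      · intro i _ hi; exact proj_ne _ ha (Ne.symm hi)
      · intro h; exact absurd (Finset.mem_filter.2 ⟨Finset.mem_range.2 hj2, hj⟩) h
    · rw [W.gr_eq_bot X j (by omega)] at ha
      rw [(Submodule.mem_bot _).1 ha]
      simp
  · apply Finset.sum_eq_zero
    intro i hi
    rw [Finset.mem_filter] at hi
    apply proj_ne _ ha
    rintro rfl
    exact hj hi.2

/-- **The sign conjecture, the lowering operator and the conjecture B.** -/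
theorem lowering_tfae (hn : 1 ≤ X.dim) {D : X.Cycles} (hD : X.IsCyc 1 D)
    (hHL : HardLefschetz W X D) :
    List.TFAE [LefschetzB W X D,
      SignStd W X ∧ ForLoweringClass W X D (NumAlgebraic W (X.prod X) (X.dim - 1) (X.dim + 1)),
      SignStd W X ∧
        ForLoweringClass W X D (NumOrthogonal W (X.prod X) (X.dim - 1) (X.dim + 1))] := by
  have h := W.isInternal X
  have hLR := rop_mulLeft (W := W) hD
  have hLh : IsHom (W.gr X) 2 (LinearMap.mulLeft W.K (W.cl X D)) := by
    simpa using rop_opAlg.hom hLR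
  have hOA := rop_opAlg (W := W) (X := X)
  obtain ⟨f, t, hf, hfv⟩ := exists_sl2 h hLh W_hbd hHL
  have huniq : ∀ τ, IsLoweringClass W X D τ → W.corr τ = f := by
    rintro τ ⟨hτ, hlow⟩
    have h1 : IsHom (W.gr X) (-2) (W.corr τ) := by
      have h2 := W.corr_isHom hτ
      rwa [show (2 * (((X.dim - 1 : ℕ) : ℤ) - X.dim)) = -2 by omega] at h2
    have h2 : LinearMap.mulLeft W.K (W.cl X D) * W.corr τ -
        W.corr τ * LinearMap.mulLeft W.K (W.cl X D) = wt h X.dim := by
      apply gr_ext h
      intro j a ha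
      rw [LinearMap.sub_apply, Module.End.mul_apply, Module.End.mul_apply, hlow j a ha, wt,
        scal_apply _ _ ha, node]
      push_cast
      rfl
    have h3 := t.ef
    refine sub_eq_zero.1 (eq_zero_of_ad_ad h hLh W_hbd hHL (h1.sub hf) ?_)
    have h4 : LinearMap.mulLeft W.K (W.cl X D) * (W.corr τ - f) -
        (W.corr τ - f) * LinearMap.mulLeft W.K (W.cl X D) = 0 := by
      rw [mul_sub, sub_mul, sub_sub_sub_comm, h2, h3, sub_self]
    rw [h4, mul_zero, zero_mul]
  tfae_have 1 → 2 := by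
    intro hB
    obtain ⟨Φ, hΦ, hLam⟩ := lefschetzB_iff_rop.1 hB
    have hP : ∀ i, ROp W X 0 (proj h i) := fun i => hOA.proj_mem h W_hbd hLR hHL hΦ hLam i
    have hfR := lower_of_lam hOA h W_hbd hLR hHL hΦ hLam hfv
    refine ⟨sign_of_kunneth hP, fun τ hτ => ?_⟩
    obtain ⟨z, hz, hzf⟩ := exists_of_rop (p := X.dim - 1) (by omega) hfR
    have h1 : W.cl _ z = τ := by
      rw [← sub_eq_zero]
      apply corr_inj
      rw [corr_sub', hzf, huniq τ hτ, sub_self]
    refine ⟨z, hz, fun u hu => ?_⟩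
    rw [← h1]
    exact tr_mul_cl hz hu (by rw [dim_prod]; omega)
  tfae_have 2 → 3 := by
    rintro ⟨hS, hnum⟩
    refine ⟨hS, fun τ hτ => ?_⟩
    obtain ⟨z, hz, hzu⟩ := hnum τ hτ
    exact NumRational.numOrthogonal (by rw [dim_prod]; omega)
      (fun u hu => ⟨_, hzu u hu, fun h0 => h0 z hz⟩)
  tfae_have 3 → 1 := by
    rintro ⟨hS, hnum⟩
    apply lefschetzB_of_inj hD hHL
    obtain ⟨τ, hτf⟩ := exists_corr f
    have hτm : τ ∈ W.gr (X.prod X) (2 * (X.dim - 1)) := by
      apply mem_gr_of_isHom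
      rw [hτf]
      rwa [show (2 * (((X.dim - 1 : ℕ) : ℤ) - X.dim)) = -2 by omega]
    have hτ : IsLoweringClass W X D τ := by
      refine ⟨hτm, fun j a ha => ?_⟩
      have h1 := congrArg (fun F => F a) t.ef
      rw [LinearMap.sub_apply, Module.End.mul_apply, Module.End.mul_apply, wt,
        scal_apply _ _ ha, node] at h1
      rw [hτf, h1]
      push_cast
      rfl
    obtain ⟨γ, hγ, hγ'⟩ := exists_rep_of_orth (bil W (X.prod X))
      (spanCycles W (X.prod X) ((X.dim - 1 : ℕ) : ℤ))
      (spanCycles W (X.prod X) ((X.dim + 1 : ℕ) : ℤ))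
      (W.tr (X.prod X) ∘ₗ LinearMap.mulLeft W.K τ) (by
        intro δ hδ h0
        exact hnum τ hτ δ hδ (fun w hw => h0 _ (mem_span_cl hw)))
    have hγR : W.corr γ ∈ KS (ROp W X) (-1) := by
      rw [mem_KS_iff, mem_KOp_iff]
      refine ⟨γ, ?_, rfl⟩
      rwa [show (X.dim : ℤ) + -1 = ((X.dim - 1 : ℕ) : ℤ) by omega]
    have hKS := hOA.kspan
    have hLK : LinearMap.mulLeft W.K (W.cl X D) ∈ KS (ROp W X) 1 := Submodule.subset_span hLR
    have hcn := nilp_of_num hKS h W_hbd hLK (Submodule.subset_span (par_rop_of_sign hS)) t hγR (by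
      intro u hu
      rw [mem_KS_iff, mem_KOp_iff] at hu
      obtain ⟨δ, hδ, rfl⟩ := hu
      have hδ' : δ ∈ spanCycles W (X.prod X) ((X.dim + 1 : ℕ) : ℤ) := by
        rwa [show ((X.dim + 1 : ℕ) : ℤ) = (X.dim : ℤ) + 1 by push_cast; rfl]
      have e1 := hγ' _ (swap_span hδ')
      rw [bil_apply, LinearMap.comp_apply, LinearMap.mulLeft_apply,
        tr_mul_eq_trace (span_gr hγ), tr_mul_eq_trace hτm, map_swap_swap, mul_assoc,
        mul_assoc, hτf] at e1
      exact e1)
    set L := LinearMap.mulLeft W.K (W.cl X D) with hL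
    set z := W.corr γ with hz
    set c := L * z - z * L - wt h X.dim with hc
    have hTK : L * z - z * L ∈ KS (ROp W X) 0 :=
      hKS.sub (hKS.cast (hKS.mul hLK hγR) (by ring)) (hKS.cast (hKS.mul hγR hLK) (by ring))
    have hch : IsHom (W.gr X) 0 c :=
      (by simpa using hKS.hom hTK : IsHom (W.gr X) 0 (L * z - z * L)).sub (isHom_scal h _)
    have hP : ∀ i, proj h i ∈ KS (ROp W X) 0 := by
      intro i
      obtain ⟨N, hN⟩ := hcn
      by_cases hi : i < 2 * X.dim + 1
      · rw [← ev_herm_of_nilp h W_hbd hch hN (Finset.mem_range.2 hi),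
          show wt h X.dim + c = L * z - z * L by rw [hc]; abel]
        exact hKS.ev hTK _
      · have : proj h i = 0 := by
          apply gr_ext h
          intro j a ha
          by_cases hj : j = i
          · subst hj
            rw [W.gr_eq_bot X j (by omega)] at ha
            rw [(Submodule.mem_bot _).1 ha, map_zero, map_zero]
          · rw [proj_ne h ha hj, LinearMap.zero_apply]
        rw [this]
        exact hKS.zero 0
    have key := exists_inverse_of_comm (A := tot (ROp W X)) (s := 1) h W_hbd hLh hHL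
      (mem_tot (Submodule.subset_span hOA.one)) (tot_mul hOA)
      (mem_tot hLK) (fun i => mem_tot (hP i)) (u := fun _ => L) (v := fun _ => z)
      (fun _ => mem_tot hLK) (fun _ => mem_tot hγR) (c := c)
      (by rw [hc, Fin.sum_univ_one]; abel) hcn
    intro m hm
    obtain ⟨y, hy, hy1, hy2, hy3⟩ := key m hm
    refine ⟨y, ?_, ?_⟩
    · rw [← mem_KS_iff]
      have h1 := tot_extract hOA h hP hm hy
      rwa [hy1, hy2] at h1
    · intro a ha h0
      have h1 := congrArg (fun F => F a) hy3
      rw [Module.End.mul_apply, h0, map_zero, proj_same h ha] at h1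
      exact h1.symm
  tfae_finish

end Pool.Agent.H447
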