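import Pool.Agent.H447R3.KuB
import Pool.Agent.H447R3.SpB

/-!
# Single Kunneth components modulo numerical equivalence
-/

open CategoryTheory AlgebraicGeometry Finset Polynomial

universe u v

namespace Pool.Agent.H447

open Pool.Agent.H914 VarClass Obj WeilCohomology

section Abs

variable {K : Type*} [Field K] [CharZero K] {V : Type*} [AddCommGroup V] [Module K V]
  [Module.Finite K V] {gr : ℕ → Submodule K V} {n : ℕ} {R : ℤ → Module.End K V → Prop}

/-- If `T - p` is nilpotent, where `p` is a projector commuting with `T`, then `p` is a polynomial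
in `T`. -/
lemma exists_poly_of_nilp {p T : Module.End K V} (hp : p * p = p) (hT : Commute T p)
    (hn : IsNilpotent (T - p)) : ∃ g : ℚ[X], p = ev T g := by
  have hpow : ∀ k : ℕ, LinearMap.trace K V (T ^ (k + 1)) = LinearMap.trace K V p ∧
      LinearMap.trace K V (p * T ^ k) = LinearMap.trace K V p := by
    have hc : Commute (T - p) p := hT.sub_left (Commute.refl p)
    have hTc : Commute T (T - p) := (Commute.refl T).sub_right hT
    have hpp : ∀ k : ℕ, p ^ (k + 1) = p := by
      intro k
      induction k with
      | zero => rw [zero_add, pow_one]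
      | succ k ih => rw [pow_succ, ih, hp]
    have h1 : ∀ k : ℕ, ∃ r, Commute (T - p) r ∧ T ^ (k + 1) - p = (T - p) * r := by
      intro k
      induction k with
      | zero => exact ⟨1, Commute.one_right _, by rw [zero_add, pow_one, mul_one]⟩
      | succ k ih =>
        obtain ⟨r, hr, hr'⟩ := ih
        refine ⟨r * T + p, (hr.mul_right hTc.symm).add_right hc, ?_⟩
        have h2 : T ^ (k + 1 + 1) - p = (T ^ (k + 1) - p) * T + (p * T - p * p) := by
          rw [pow_succ T (k + 1), hp]; noncomm_ring
        rw [h2, hr', mul_add, hc.eq]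
        noncomm_ring
    intro k
    constructor
    · obtain ⟨r, hr, hr'⟩ := h1 k
      have h2 : IsNilpotent (T ^ (k + 1) - p) := by rw [hr']; exact hr.isNilpotent_mul_right hn
      have h3 := (LinearMap.isNilpotent_trace_of_isNilpotent h2).eq_zero
      rw [map_sub, sub_eq_zero] at h3
      exact h3
    · rcases Nat.eq_zero_or_pos k with rfl | hk
      · rw [pow_zero, mul_one]
      · obtain ⟨k, rfl⟩ : ∃ k', k = k' + 1 := ⟨k - 1, by omega⟩
        obtain ⟨r, hr, hr'⟩ := h1 k
        have h2 : IsNilpotent (p * (T ^ (k + 1) - p)) := by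
          rw [hr']
          have h4 : Commute p ((T - p) * r) := by
            rw [← hr']
            exact (hT.symm.pow_right (k + 1)).sub_right (Commute.refl p)
          apply h4.isNilpotent_mul_left
          exact hr.isNilpotent_mul_right hn
        have h3 := (LinearMap.isNilpotent_trace_of_isNilpotent h2).eq_zero
        rw [mul_sub, hp, map_sub, sub_eq_zero] at h3
        exact h3
  apply exists_poly_of_proj (ε := 1) (σ := (1 : K)) hp hT (one_mul _)
    (by rw [one_mul, one_smul]) one_ne_zero
  · intro k
    rw [one_mul, one_mul, (hpow k).1, (hpow k).2]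
  · intro k hk
    obtain ⟨k, rfl⟩ : ∃ k', k = k' + 1 := ⟨k - 1, by omega⟩
    rw [one_mul, one_mul, (hpow (k + 1)).1, (hpow k).1]

/-- A single projector from its traces. -/
theorem proj_of_num_self (hR : OpAlg gr R) (h : DirectSum.IsInternal gr)
    (hbd : ∀ i, 2 * n + 1 ≤ i → gr i = ⊥) (hpar : R 0 (par h)) {T : Module.End K V}
    (hT : R 0 T) {i : ℕ} (hi : i < 2 * n + 1) (hnum : ∀ y, R 0 y →
      LinearMap.trace K V (par h * (T * y)) = LinearMap.trace K V (par h * (proj h i * y)))
    (hself : LinearMap.trace K V (T * proj h i) = LinearMap.trace K V (proj h i * proj h i)) :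
    R 0 (proj h i) := by
  have hTh : IsHom gr 0 T := by simpa using hR.hom hT
  have hc : Commute T (proj h i) := (hTh.proj_comm h i).symm
  have hpp : par h * par h = 1 := par_mul_par h
  have hparT : par h * T = T * par h := IsHom.par_comm (d := 0) h (by simpa using hTh)
  have hpari : par h * proj h i = proj h i * par h :=
    IsHom.par_comm (d := 0) h (by rw [mul_zero]; exact isHom_scal h _)
  have hkey : ∀ u, R 0 u → LinearMap.trace K V (T * u) = LinearMap.trace K V (proj h i * u) := by
    intro u hu
    have e1 := hnum (par h * u) (hR.cast (hR.mul hpar hu) (by ring))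
    have e2 : ∀ x : Module.End K V, par h * x = x * par h →
        par h * (x * (par h * u)) = x * u := by
      intro x hx
      rw [← mul_assoc, ← mul_assoc, hx, mul_assoc x, hpp, mul_one]
    rwa [e2 _ hparT, e2 _ hpari] at e1
  have hTk : ∀ k : ℕ, R 0 (T ^ k) := fun k => hR.cast (hR.pow hT k) (by simp)
  have hH : proj h i = ∑ j ∈ range (2 * n + 1), ((if j = i then 1 else 0 : ℚ) : K) • proj h j := by
    rw [Finset.sum_eq_single i]
    · rw [if_pos rfl, Rat.cast_one, one_smul]
    · intro j _ hj
      rw [if_neg hj, Rat.cast_zero, zero_smul]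
    · intro h'; exact absurd (Finset.mem_range.2 hi) h'
  have hn := nilp_of_traces (projSys h hbd) (fun j => if j = i then 1 else 0) (T := T)
    (fun j => (hTh.proj_comm h j).symm) hH
    (fun k => by rw [sub_mul, map_sub, hkey _ (hTk k), sub_self])
    (by
      rw [sub_mul, mul_sub, mul_sub, map_sub, map_sub, map_sub, hkey T hT, hself,
        LinearMap.trace_mul_comm K (proj h i) T, hself]
      ring)
  obtain ⟨g, hg⟩ := exists_poly_of_nilp (proj_mul_proj h i) hc hn
  rw [hg]
  exact hR.ev hT g

end Abs

variable {k : Type u} [Field k] {𝒱 : VarClass k} {ops : CycleOps 𝒱}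
  {W : WeilCohomology.{u, v} ops} {X Y : 𝒱.Obj}

lemma kunnethAt_iff {i : ℕ} : KunnethAt W X i ↔ ROp W X 0 (proj (W.isInternal X) i) := by
  constructor
  · rintro ⟨P, hP, hP'⟩
    have : W.corr (W.cl _ P) = proj (W.isInternal X) i := isProjTo_iff.1 hP'
    rw [← this]
    exact rop_corr (by simp) hP
  · intro hi
    obtain ⟨P, hP, hP'⟩ := exists_of_rop (p := X.dim) (by simp) hi
    exact ⟨P, hP, isProjTo_iff.2 hP'⟩

/-- **Single Kunneth components.** -/
theorem component_iff_num (hS : SignStd W X) (i : ℕ) : KunnethAt W X i ↔ KunnethNumAt W X i := by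
  have h := W.isInternal X
  have hOA := rop_opAlg (W := W) (X := X)
  rw [kunnethAt_iff]
  constructor
  · intro hi
    obtain ⟨z, hz, hz'⟩ := exists_of_rop (p := X.dim) (by simp) hi
    refine ⟨z, hz, ?_⟩
    rintro τ ⟨hτ, hτi⟩
    rw [isProjTo_iff] at hτi
    have hzτ : W.cl _ z = τ := by
      rw [← sub_eq_zero]
      apply corr_inj
      rw [corr_sub', hz', hτi, sub_self]
    refine ⟨?_, ?_⟩
    · rw [numRep_iff hz hτ, hzτ]
      exact fun _ _ => rfl
    · rw [SameInterT, hzτ]
  · rintro ⟨z, hz, hnum⟩
    by_cases hi : i < 2 * X.dim + 1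
    · obtain ⟨τ, hτ, hτi⟩ := exists_class_zero (X := X) (isHom_scal h
        (fun j => if j = i then (1 : W.K) else 0))
      obtain ⟨h1, h2⟩ := hnum τ ⟨hτ, isProjTo_iff.2 hτi⟩
      rw [numRep_iff hz hτ, hτi] at h1
      apply proj_of_num_self hOA h W_hbd (par_rop_of_sign hS) (rop_corr (by simp) hz) hi h1
      rw [SameInterT, show flip X = swap X X from rfl, inter, inter,
        tr_mul_eq_trace (W.cl_mem hz), tr_mul_eq_trace hτ, map_swap_swap, hτi] at h2
      change LinearMap.trace W.K (W.H X) (par h * W.corr (W.cl _ z) * proj h i) =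
        LinearMap.trace W.K (W.H X) (par h * proj h i * proj h i) at h2
      have hTh : IsHom (W.gr X) 0 (W.corr (W.cl _ z)) := by
        simpa using hOA.hom (rop_corr (W := W) (d := 0) (by simp) hz)
      have e1 : ∀ x : Module.End W.K (W.H X), par h * x = x * par h →
          par h * x * proj h i = (-1 : W.K) ^ i • (x * proj h i) := by
        intro x hx
        have e2 : par h * proj h i = (-1 : W.K) ^ i • proj h i := by
          apply LinearMap.ext
          intro a
          rw [Module.End.mul_apply, par, scal_apply h _ (H914.proj_mem h _ a),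
            LinearMap.smul_apply]
        rw [hx, mul_assoc, e2, mul_smul_comm]
      rw [e1 _ (IsHom.par_comm (d := 0) h (by simpa using hTh)),
        e1 _ (IsHom.par_comm (d := 0) h (by rw [mul_zero]; exact isHom_scal h _)), map_smul,
        map_smul] at h2
      exact smul_right_injective W.K (pow_ne_zero i (by norm_num : (-1 : W.K) ≠ 0)) h2
    · have : proj h i = 0 := by
        apply gr_ext h
        intro j a ha
        by_cases hj : j = i
        · subst hj
          rw [W.gr_eq_bot X j (by omega)] at ha
          rw [(Submodule.mem_bot _).1 ha, map_zero, map_zero]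
        · rw [proj_ne h ha hj, LinearMap.zero_apply]
      rw [this]
      exact hOA.zero 0

end Pool.Agent.H447
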