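import Pool.Agent.H447R3.TaA
import Pool.Agent.H447R3.TaDefs
import Pool.Agent.H447R3.AoC
import Pool.Agent.H447R3.NumB

/-!
# The Tate conjecture on the square of a variety in one codimension
-/

open CategoryTheory AlgebraicGeometry Finset

universe u v w

namespace Pool.Agent.H447

open Pool.Agent.H914 VarClass Obj WeilCohomology

variable {k : Type u} [Field k] {𝒱 : VarClass k} {ops : CycleOps 𝒱}
  {W : WeilCohomology.{u, v} ops} {X : 𝒱.Obj} {Γ : Type w}

/-- The operators given by classes on the square with the property `P`. -/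
def OpsOf (W : WeilCohomology.{u, v} ops) (X : 𝒱.Obj) (P : ℕ → W.H (X.prod X) → Prop) (d : ℤ)
    (y : Module.End W.K (W.H X)) : Prop :=
  (∃ p : ℕ, (p : ℤ) = X.dim + d ∧ ∃ c ∈ W.gr (X.prod X) (2 * p), P p c ∧ W.corr c = y) ∨
    ((X.dim : ℤ) + d < 0 ∧ y = 0)

/-- Properties of classes which give distinguished families of operators. -/
lemma opsOf_distinguished {D : X.Cycles} (hD : X.IsCyc 1 D)
    {P : ℕ → W.H (X.prod X) → Prop} (h0 : P 0 0)
    (hmul : ∀ p c, c ∈ W.gr (X.prod X) (2 * p) → P p c → P (p + 1) (W.cl _ (boxSum ops D) * c))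
    (hrefl : ∀ (e p : ℕ) c, c ∈ W.gr (X.prod X) (2 * p) →
      P (p + e) ((LinearMap.mulLeft W.K (W.cl _ (boxSum ops D)) ^ e) c) →
      (∀ z ∈ W.gr (X.prod X) (2 * p),
        (LinearMap.mulLeft W.K (W.cl _ (boxSum ops D)) ^ e) z = 0 → z = 0) → P p c) :
    Distinguished (W.gr X) (LinearMap.mulLeft W.K (W.cl X D)) (OpsOf W X P) where
  hom := by
    rintro d y (⟨p, hp, c, hc, _, rfl⟩ | ⟨_, rfl⟩)
    · have h1 := W.corr_isHom hc
      rwa [hp, add_sub_cancel_left] at h1
    · exact isHom_zero _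
  raise := by
    rintro d y (⟨p, hp, c, hc, hP, rfl⟩ | ⟨hd, rfl⟩)
    · refine Or.inl ⟨p + 1, by push_cast; omega, W.cl _ (boxSum ops D) * c, ?_, hmul p c hc hP,
        corr_boxSum hD c⟩
      have := W.mul_mem (W.cl_mem (boxSum_mem (ops := ops) hD)) hc
      rwa [show 2 * 1 + 2 * p = 2 * (p + 1) by ring] at this
    · rw [dbl_apply, mul_zero, zero_mul, add_zero]
      by_cases h1 : (X.dim : ℤ) + (d + 1) < 0
      · exact Or.inr ⟨h1, rfl⟩
      · exact Or.inl ⟨0, by omega, 0, Submodule.zero_mem _, h0, corr_zero W⟩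
  refl := by
    rintro e d y hy hT hinj
    by_cases hd : (X.dim : ℤ) + d < 0
    · refine Or.inr ⟨hd, ?_⟩
      apply gr_ext (W.isInternal X)
      intro i a ha
      rw [LinearMap.zero_apply]
      by_cases hi : 2 * X.dim < i
      · rw [W.gr_eq_bot X i hi] at ha
        rw [(Submodule.mem_bot _).1 ha, map_zero]
      · have h1 := hy i a (by rw [grZ_natCast]; exact ha)
        rw [grZ_of_neg (by omega)] at h1
        exact (Submodule.mem_bot _).1 h1
    · obtain ⟨p, hp⟩ := Int.eq_ofNat_of_zero_le (not_lt.1 hd)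
      obtain ⟨c, rfl⟩ := exists_corr y
      have hc : c ∈ W.gr (X.prod X) (2 * p) := by
        apply mem_gr_of_isHom
        rwa [show ((p : ℕ) : ℤ) - X.dim = d by omega]
      refine Or.inl ⟨p, hp.symm, c, hc, ?_, rfl⟩
      apply hrefl e p c hc
      · rcases hT with ⟨p', hp', c', _, hP', hcc⟩ | ⟨h1, _⟩
        · obtain rfl : p' = p + e := by omega
          rw [← corr_boxSum_pow hD] at hcc
          have : c' = (LinearMap.mulLeft W.K (W.cl _ (boxSum ops D)) ^ e) c := by
            rw [← sub_eq_zero]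
            apply corr_inj
            rw [corr_sub', hcc, sub_self]
          rwa [this] at hP'
        · omega
      · intro z hz h0
        apply corr_inj
        apply hinj
        · have h1 := W.corr_isHom hz
          rwa [show ((p : ℕ) : ℤ) - X.dim = d by omega] at h1
        · rw [← corr_boxSum_pow hD, h0, corr_zero]

/-- Membership in the span of the algebraic operators. -/
lemma span_of_ops {P : ℕ → W.H (X.prod X) → Prop} {j : ℕ} {a : W.H (X.prod X)}
    (h : ∀ y, OpsOf W X P ((j : ℤ) - X.dim) y → y ∈ KS (ROp W X) ((j : ℤ) - X.dim))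
    (ha : a ∈ W.gr (X.prod X) (2 * j)) (hP : P j a) : a ∈ spanCycles W (X.prod X) j := by
  have h1 := h (W.corr a) (Or.inl ⟨j, by ring, a, ha, hP, rfl⟩)
  rw [mem_KS_iff, mem_KOp_iff] at h1
  obtain ⟨γ, hγ, hγ'⟩ := h1
  have h2 : γ = a := by
    rw [← sub_eq_zero]
    apply corr_inj
    rw [corr_sub', hγ', sub_self]
  rw [← h2]
  rwa [show (X.dim : ℤ) + ((j : ℤ) - X.dim) = j by ring] at hγ

lemma ops_of_span {P : ℕ → W.H (X.prod X) → Prop} {j : ℕ}
    (h : ∀ a ∈ W.gr (X.prod X) (2 * j), P j a → a ∈ spanCycles W (X.prod X) j)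
    {y : Module.End W.K (W.H X)} (hy : OpsOf W X P ((j : ℤ) - X.dim) y) :
    y ∈ KS (ROp W X) ((j : ℤ) - X.dim) := by
  rcases hy with ⟨p, hp, c, hc, hP, rfl⟩ | ⟨h1, _⟩
  · obtain rfl : p = j := by omega
    rw [mem_KS_iff, mem_KOp_iff]
    refine ⟨c, ?_, rfl⟩
    rw [show (X.dim : ℤ) + ((p : ℤ) - X.dim) = p by ring]
    exact h c hc hP
  · omega

/-- The conjecture B from the lowering operator, with coefficients. -/
lemma lefschetzB_of_lowerK {D : X.Cycles} (hD : X.IsCyc 1 D) (hHL : HardLefschetz W X D)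
    {f : Module.End W.K (W.H X)}
    (t : Sl2 (wt (W.isInternal X) X.dim) (LinearMap.mulLeft W.K (W.cl X D)) f)
    (hfR : f ∈ KS (ROp W X) (-1)) : LefschetzB W X D := by
  apply lefschetzB_of_inj hD hHL
  intro c _
  refine ⟨f ^ c, ?_, ?_⟩
  · rw [← mem_KS_iff]
    exact rop_opAlg.kspan.cast (rop_opAlg.kspan.pow hfR c) (by ring)
  · intro a ha h0
    apply f_pow_inj t _ h0
    rw [wt, scal_apply _ _ ha]
    congr 1
    rw [node]
    push_cast; ring

section Action

variable (A : SquareAction W X Γ)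

lemma SquareAction.ne_zero (g : Γ) : A.χ g ≠ 0 := (A.aut g).ne_zero

lemma SquareAction.gr (g : Γ) {i : ℕ} {a : W.H X} (ha : a ∈ W.gr X i) : A.act g a ∈ W.gr X i :=
  (A.aut g).gr i a ha

lemma SquareAction.gr₂ (g : Γ) {i : ℕ} {a : W.H (X.prod X)} (ha : a ∈ W.gr (X.prod X) i) :
    A.act₂ g a ∈ W.gr (X.prod X) i := (A.aut g).gr₂ i a ha

lemma SquareAction.fst (g : Γ) (a : W.H X) :
    A.act₂ g (W.map (Obj.fst X X) a) = W.map (Obj.fst X X) (A.act g a) := (A.aut g).fst a

lemma SquareAction.snd (g : Γ) (a : W.H X) :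
    A.act₂ g (W.map (Obj.snd X X) a) = W.map (Obj.snd X X) (A.act g a) := (A.aut g).snd a

lemma SquareAction.tr (g : Γ) (a : W.H X) :
    W.tr X (A.act g a) = A.χ g ^ X.dim * W.tr X a := (A.aut g).tr a

lemma push_act (g : Γ) (y : W.H (X.prod X)) :
    W.push (snd X X) (A.act₂ g y) = A.χ g ^ X.dim • A.act g (W.push (snd X X) y) := by
  refine W.kunneth_induction (p := fun y => W.push (snd X X) (A.act₂ g y) =
    A.χ g ^ X.dim • A.act g (W.push (snd X X) y)) ?_ ?_ y
  · intro a b ha hb
    rw [map_add, map_add, ha, hb, map_add, map_add, smul_add]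
  · intro i j a _ b _
    rw [map_mul, A.fst, A.snd, push_snd, push_snd, A.tr, map_smul, smul_smul]

lemma corr_act (g : Γ) (c : W.H (X.prod X)) (a : W.H X) :
    W.corr (A.act₂ g c) (A.act g a) = A.χ g ^ X.dim • A.act g (W.corr c a) := by
  rw [corr_apply, corr_apply, ← A.fst, ← map_mul (A.act₂ g), push_act]

lemma wt_act (g : Γ) (a : W.H X) :
    wt (W.isInternal X) X.dim (A.act g a) = A.act g (wt (W.isInternal X) X.dim a) := by
  refine gr_induction (W.isInternal X) (p := fun a => wt (W.isInternal X) X.dim (A.act g a) =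
    A.act g (wt (W.isInternal X) X.dim a)) ?_ ?_ a
  · intro i a ha
    rw [wt, scal_apply _ _ ha, scal_apply _ _ (A.gr g ha), map_smul]
  · intro a b ha hb
    rw [map_add, map_add, ha, hb, map_add, map_add]

/-- The lowering operator is given by an invariant class. -/
lemma lower_inv (hn : 1 ≤ X.dim) {D : X.Cycles} (hD : X.IsCyc 1 D) (hHL : HardLefschetz W X D)
    (hinv : ∀ g, A.act g (W.cl X D) = A.χ g • W.cl X D) {f : Module.End W.K (W.H X)}
    (t : Sl2 (wt (W.isInternal X) X.dim) (LinearMap.mulLeft W.K (W.cl X D)) f)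
    (hf : IsHom (W.gr X) (-2) f) {τ : W.H (X.prod X)} (hτ : W.corr τ = f) (g : Γ) :
    A.act₂ g τ = A.χ g ^ (X.dim - 1) • τ := by
  set L := LinearMap.mulLeft W.K (W.cl X D) with hL
  have hLh : IsHom (W.gr X) 2 L := mulLeft_isHom hD
  have hχ := A.ne_zero g
  set f' := (A.χ g ^ (X.dim - 1))⁻¹ • W.corr (A.act₂ g τ) with hf'
  have hf'a : ∀ a, f' (A.act g a) = A.χ g • A.act g (f a) := by
    intro a
    rw [hf', LinearMap.smul_apply, corr_act, hτ, smul_smul]
    congr 1
    rw [show X.dim = X.dim - 1 + 1 by omega, pow_succ, Nat.add_sub_cancel, ← mul_assoc,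
      inv_mul_cancel₀ (pow_ne_zero _ hχ), one_mul]
  have hLa : ∀ a, A.act g (L a) = A.χ g • L (A.act g a) := by
    intro a
    rw [hL, LinearMap.mulLeft_apply, LinearMap.mulLeft_apply, map_mul, hinv, smul_mul_assoc]
  have hsurj : ∀ b, ∃ a, A.act g a = b := (A.act g).surjective
  have hcomm : L * f' - f' * L = wt (W.isInternal X) X.dim := by
    apply LinearMap.ext
    intro b
    obtain ⟨a, rfl⟩ := hsurj b
    have e1 : f' (L (A.act g a)) = A.act g (f (L a)) := by
      have h1 : L (A.act g a) = (A.χ g)⁻¹ • A.act g (L a) := by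
        rw [hLa, smul_smul, inv_mul_cancel₀ hχ, one_smul]
      rw [h1, map_smul, hf'a, smul_smul, inv_mul_cancel₀ hχ, one_smul]
    rw [LinearMap.sub_apply, Module.End.mul_apply, Module.End.mul_apply, hf'a, map_smul, ← hLa,
      e1, ← map_sub, wt_act]
    congr 1
    have h2 := congrArg (fun Z => Z a) t.ef
    exact h2
  have hf'h : IsHom (W.gr X) (-2) f' := by
    intro i b hb
    by_cases hi : 0 ≤ i
    · lift i to ℕ using hi
      rw [grZ_natCast] at hb
      obtain ⟨a, rfl⟩ := hsurj b
      have ha : a ∈ W.gr X i := by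
        have h1 : proj (W.isInternal X) i a = a := by
          apply (A.act g).injective
          have h2 : ∀ x, A.act g (proj (W.isInternal X) i x) =
              proj (W.isInternal X) i (A.act g x) := by
            intro x
            refine gr_induction (W.isInternal X) (p := fun x =>
              A.act g (proj (W.isInternal X) i x) = proj (W.isInternal X) i (A.act g x)) ?_ ?_ x
            · intro j x hx
              by_cases hj : j = i
              · subst hj
                rw [proj_same _ hx, proj_same _ (A.gr g hx)]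
              · rw [proj_ne _ hx hj, proj_ne _ (A.gr g hx) hj, map_zero]
            · intro x y hx hy
              rw [map_add, map_add, hx, hy, map_add, map_add]
          rw [h2, proj_same _ hb]
        rw [← h1]
        exact proj_mem _ i a
      rw [hf'a]
      have h3 := hf i a (by rw [grZ_natCast]; exact ha)
      by_cases hi2 : (i : ℤ) + -2 < 0
      · rw [grZ_of_neg hi2] at h3
        rw [(Submodule.mem_bot _).1 h3, map_zero, smul_zero]
        exact Submodule.zero_mem _
      · obtain ⟨m, hm⟩ := Int.eq_ofNat_of_zero_le (not_lt.1 hi2)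
        rw [hm, grZ_natCast] at h3 ⊢
        exact Submodule.smul_mem _ _ (A.gr g h3)
    · rw [grZ_of_neg (by omega)] at hb
      rw [(Submodule.mem_bot _).1 hb, map_zero]
      exact Submodule.zero_mem _
  have hzero : f' - f = 0 := by
    apply eq_zero_of_ad_ad (W.isInternal X) hLh W_hbd hHL (hf'h.sub hf)
    have h1 : L * (f' - f) - (f' - f) * L = 0 := by
      have h2 := t.ef
      have h3 : L * f' - L * f - (f' * L - f * L) = (L * f' - f' * L) - (L * f - f * L) := by abel
      rw [mul_sub, sub_mul, h3, hcomm, h2, sub_self]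
    rw [h1, mul_zero, zero_mul]
  rw [← sub_eq_zero]
  apply corr_inj
  rw [corr_sub', corr_smul, hτ]
  rw [sub_eq_zero] at hzero ⊢
  rw [← hzero, hf', smul_smul, mul_inv_cancel₀ (pow_ne_zero _ hχ), one_smul]

end Action

/-- **The Tate conjecture on the square of a variety in one codimension.** -/
theorem tate_tfae (hn : 1 ≤ X.dim) {D : X.Cycles} (hD : X.IsCyc 1 D)
    (hHL : HardLefschetz W X D) (A : SquareAction W X Γ)
    (hinv : ∀ g, ActsBy (A.act g) (A.χ g) (W.cl X D)) :
    List.TFAE [∀ j, j ≠ X.dim → TateOnSquare A j, TateOnSquare A (X.dim - 1),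
      LefschetzB W X D ∧ TateOnSquare A (X.dim + 1)] := by
  have h := W.isInternal X
  have hLR := rop_mulLeft (W := W) hD
  have hLh : IsHom (W.gr X) 2 (LinearMap.mulLeft W.K (W.cl X D)) := mulLeft_isHom hD
  have hOA := (rop_opAlg (W := W) (X := X))
  have hKA := hOA.kspan
  have hLK : LinearMap.mulLeft W.K (W.cl X D) ∈ KS (ROp W X) 1 := Submodule.subset_span hLR
  obtain ⟨f, t, hf, hfv⟩ := exists_sl2 h hLh W_hbd hHL
  set P : ℕ → W.H (X.prod X) → Prop := fun p c => ∀ g, A.act₂ g c = A.χ g ^ p • c with hP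
  have hinv : ∀ g, A.act g (W.cl X D) = A.χ g • W.cl X D := hinv
  have hξ : ∀ g, A.act₂ g (W.cl _ (boxSum ops D)) = A.χ g • W.cl _ (boxSum ops D) := by
    intro g
    rw [boxSum, map_add, W.cl_pull, W.cl_pull, map_add, A.fst, A.snd, hinv, map_smul, map_smul,
      smul_add]
  have hξe : ∀ g (e : ℕ) c, A.act₂ g ((LinearMap.mulLeft W.K (W.cl _ (boxSum ops D)) ^ e) c) =
      A.χ g ^ e • (LinearMap.mulLeft W.K (W.cl _ (boxSum ops D)) ^ e) (A.act₂ g c) := by
    intro g e
    induction e with
    | zero => intro c; simp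
    | succ e ih =>
      intro c
      rw [pow_succ', Module.End.mul_apply, LinearMap.mulLeft_apply, map_mul, hξ, ih,
        smul_mul_assoc, mul_smul_comm, smul_smul, Module.End.mul_apply, LinearMap.mulLeft_apply,
        pow_succ']
  have hT : Distinguished (W.gr X) (LinearMap.mulLeft W.K (W.cl X D)) (OpsOf W X P) := by
    apply opsOf_distinguished hD
    · intro g
      rw [map_zero, smul_zero]
    · intro p c _ hc g
      rw [map_mul, hξ, hc g, smul_mul_assoc, mul_smul_comm, smul_smul, pow_succ']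
    · intro e p c hc hPc hinj g
      have h1 := hPc g
      rw [hξe, pow_add, mul_comm, ← smul_smul] at h1
      have h2 : (LinearMap.mulLeft W.K (W.cl _ (boxSum ops D)) ^ e) (A.act₂ g c) =
          A.χ g ^ p • (LinearMap.mulLeft W.K (W.cl _ (boxSum ops D)) ^ e) c :=
        smul_right_injective _ (pow_ne_zero e (A.ne_zero g)) h1
      have h3 := hinj (A.act₂ g c - A.χ g ^ p • c)
        (Submodule.sub_mem _ (A.gr₂ g hc) (Submodule.smul_mem _ _ hc)) (by
          rw [map_sub, map_smul, h2, sub_self])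
      exact sub_eq_zero.1 h3
  have hlow : LefschetzB W X D → f ∈ KS (ROp W X) (-1) := by
    intro hB
    obtain ⟨Φ, hΦ, hLam⟩ := lefschetzB_iff_rop.1 hB
    exact Submodule.subset_span (lower_of_lam hOA h W_hbd hLR hHL hΦ hLam hfv)
  have hcast : ((X.dim - 1 : ℕ) : ℤ) - X.dim = -1 := by omega
  have hcast' : ((X.dim + 1 : ℕ) : ℤ) - X.dim = 1 := by omega
  -- from the conjecture in codimension `n - 1` to the operators
  have h1 : TateOnSquare A (X.dim - 1) → ∀ y, OpsOf W X P (-1) y → y ∈ KS (ROp W X) (-1) := by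
    intro hTa y hy
    have := ops_of_span (P := P) (j := X.dim - 1) (fun a ha hPa => hTa a ha hPa) (y := y)
      (by rw [hcast]; exact hy)
    rwa [hcast] at this
  have hfin : f ∈ KS (ROp W X) (-1) → (∀ y, OpsOf W X P (-1) y → y ∈ KS (ROp W X) (-1)) →
      ∀ j, j ≠ X.dim → TateOnSquare A j := by
    intro hfK hlowT j hj a ha hPa
    apply span_of_ops (P := P) _ ha hPa
    exact all_of_low hKA hT h t hLK hfK hlowT _ (by omega)
  tfae_have 1 → 2 := fun hA => hA _ (by omega)
  tfae_have 2 → 3 := by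
    intro hA
    have hfT : OpsOf W X P (-1) f := by
      obtain ⟨τ, hτ⟩ := exists_corr f
      refine Or.inl ⟨X.dim - 1, by omega, τ, ?_, ?_, hτ⟩
      · apply mem_gr_of_isHom
        rw [hτ, hcast]
        exact hf
      · intro g
        exact lower_inv A hn hD hHL hinv t hf hτ g
    have hfK := h1 hA f hfT
    exact ⟨lefschetzB_of_lowerK hD hHL t hfK, hfin hfK (h1 hA) _ (by omega)⟩
  tfae_have 3 → 1 := by
    rintro ⟨hB, hA⟩
    have hfK := hlow hB
    apply hfin hfK
    apply low_of_high hKA hT h t hLK hfK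
    intro y hy
    have := ops_of_span (P := P) (j := X.dim + 1) (fun a ha hPa => hA a ha hPa) (y := y)
      (by rw [hcast']; exact hy)
    rwa [hcast'] at this
  tfae_finish

end Pool.Agent.H447
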