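import Pool.Agent.H447R3.PoA
import Pool.Agent.H447R3.TaB
import Pool.Agent.H447R3.DegB
import Pool.Agent.H914R2.CPart

/-!
# Tate's conjecture on the orders of the poles on the square of a variety
-/

open CategoryTheory AlgebraicGeometry Finset

universe u v w

namespace Pool.Agent.H447

open Pool.Agent.H914 VarClass Obj WeilCohomology

variable {k : Type u} [Field k] {𝒱 : VarClass k} {ops : CycleOps 𝒱}
  {W : WeilCohomology.{u, v} ops} {X Y : 𝒱.Obj}

section General

variable {g : Y ⟶ Y} {q : ℕ}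

/-- The powers of the multiplication by a divisor. -/
noncomputable abbrev EE (W : WeilCohomology.{u, v} ops) {Y : 𝒱.Obj} (D : Y.Cycles) (e : ℕ) :
    Module.End W.K (W.H Y) := LinearMap.mulLeft W.K (W.cl Y D) ^ e

/-- Algebraic classes are pole vectors. -/
lemma span_le_pole (hF : FrobeniusOnCycles W Y g q) {j : ℕ} {a : W.H Y}
    (ha : a ∈ spanCycles W Y j) : a ∈ poleSpace (W.gr Y (2 * j)) (W.map g).toLinearMap q j := by
  rw [spanCycles_eq] at ha
  induction ha using Submodule.span_induction with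
  | mem a ha =>
    obtain ⟨z, hz, rfl⟩ := ha
    refine ⟨W.cl_mem hz, ?_⟩
    obtain ⟨m, hm, h⟩ := hF j z hz
    refine ⟨m, hm, 1, ?_⟩
    rw [cl_pull_iter] at h
    rw [pow_one, LinearMap.sub_apply, h, Module.algebraMap_end_apply, sub_self]
  | zero => exact Submodule.zero_mem _
  | add x y _ _ hx hy => exact Submodule.add_mem _ hx hy
  | smul c x _ hx => exact Submodule.smul_mem _ _ hx

/-- The intertwining relation. -/
lemma inter_rel {D : Y.Cycles} {M : ℕ}
    (hM : ((W.map g).toLinearMap ^ M) (W.cl Y D) = ((q : W.K) ^ M) • W.cl Y D) (e p N : ℕ)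
    (c : W.H Y) :
    (((W.map g).toLinearMap ^ M - algebraMap W.K (Module.End W.K (W.H Y))
      ((q : W.K) ^ (M * (p + e)))) ^ N) (EE W D e c) =
      (((q : W.K) ^ (M * e)) ^ N) • EE W D e ((((W.map g).toLinearMap ^ M -
        algebraMap W.K (Module.End W.K (W.H Y)) ((q : W.K) ^ (M * p))) ^ N) c) := by
  have h1 : ∀ (e : ℕ) c, ((W.map g).toLinearMap ^ M) (EE W D e c) =
      ((q : W.K) ^ (M * e)) • EE W D e (((W.map g).toLinearMap ^ M) c) := by
    intro e
    induction e with
    | zero => intro c; simp [EE]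
    | succ e ih =>
      intro c
      rw [EE, pow_succ' (LinearMap.mulLeft W.K (W.cl Y D)), Module.End.mul_apply,
        LinearMap.mulLeft_apply, ← map_iter, map_mul, map_iter, map_iter, hM, ih, smul_mul_assoc,
        mul_smul_comm, smul_smul, Module.End.mul_apply, LinearMap.mulLeft_apply, ← pow_add]
      congr 2
      ring
  have h2 : ∀ c, ((W.map g).toLinearMap ^ M - algebraMap W.K (Module.End W.K (W.H Y))
      ((q : W.K) ^ (M * (p + e)))) (EE W D e c) = ((q : W.K) ^ (M * e)) • EE W D e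
        (((W.map g).toLinearMap ^ M -
        algebraMap W.K (Module.End W.K (W.H Y)) ((q : W.K) ^ (M * p))) c) := by
    intro c
    rw [LinearMap.sub_apply, LinearMap.sub_apply, Module.algebraMap_end_apply,
      Module.algebraMap_end_apply, h1, map_sub, map_smul, smul_sub, smul_smul, ← pow_add]
    congr 3
    ring
  induction N generalizing c with
  | zero => simp
  | succ N ih =>
    rw [pow_succ (((W.map g).toLinearMap ^ M - algebraMap W.K (Module.End W.K (W.H Y))
      ((q : W.K) ^ (M * (p + e))))), Module.End.mul_apply, h2, map_smul, ih, smul_smul,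
      pow_succ' ((q : W.K) ^ (M * e)), pow_succ (((W.map g).toLinearMap ^ M -
        algebraMap W.K (Module.End W.K (W.H Y)) ((q : W.K) ^ (M * p)))), Module.End.mul_apply]

lemma exists_M (hF : FrobeniusOnCycles W Y g q) {D : Y.Cycles} (hD : Y.IsCyc 1 D) :
    ∃ m ≥ 1, ∀ e, ((W.map g).toLinearMap ^ (m * e)) (W.cl Y D) =
      ((q : W.K) ^ (m * e)) • W.cl Y D := by
  obtain ⟨m, hm, h⟩ := hF 1 D hD
  rw [cl_pull_iter] at h
  refine ⟨m, hm, fun e => ?_⟩
  have := pow_mul_smul h e
  rwa [mul_one] at this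

lemma pole_mul (hF : FrobeniusOnCycles W Y g q) {D : Y.Cycles} (hD : Y.IsCyc 1 D) {p : ℕ}
    {c : W.H Y} (hc : IsPoleVector (W.map g).toLinearMap q p c) (e : ℕ) :
    IsPoleVector (W.map g).toLinearMap q (p + e) (EE W D e c) := by
  obtain ⟨m, hm, hmD⟩ := exists_M hF hD
  obtain ⟨e', he', N, hN⟩ := hc.exists_mul hm
  refine ⟨m * e', Nat.mul_pos hm he', N, ?_⟩
  rw [inter_rel (hmD e'), hN, map_zero, smul_zero]

lemma frob_gr {i : ℕ} {a : W.H Y} (ha : a ∈ W.gr Y i) (M : ℕ) (x : W.K) (N : ℕ) :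
    (((W.map g).toLinearMap ^ M - algebraMap W.K (Module.End W.K (W.H Y)) x) ^ N) a ∈
      W.gr Y i := by
  have h1 : ∀ b ∈ W.gr Y i, ((W.map g).toLinearMap ^ M) b ∈ W.gr Y i := by
    intro b hb
    rw [← map_iter]
    exact W.map_mem _ hb
  induction N with
  | zero => simpa using ha
  | succ N ih =>
    rw [pow_succ', Module.End.mul_apply, LinearMap.sub_apply, Module.algebraMap_end_apply]
    exact Submodule.sub_mem _ (h1 _ ih) (Submodule.smul_mem _ _ ih)

lemma pole_refl (hq : q ≠ 0) (hF : FrobeniusOnCycles W Y g q) {D : Y.Cycles} (hD : Y.IsCyc 1 D)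
    {p e : ℕ} {c : W.H Y} (hc : c ∈ W.gr Y (2 * p))
    (h : IsPoleVector (W.map g).toLinearMap q (p + e) (EE W D e c))
    (hinj : ∀ z ∈ W.gr Y (2 * p), EE W D e z = 0 → z = 0) :
    IsPoleVector (W.map g).toLinearMap q p c := by
  obtain ⟨m, hm, hmD⟩ := exists_M hF hD
  obtain ⟨e', he', N, hN⟩ := h.exists_mul hm
  refine ⟨m * e', Nat.mul_pos hm he', N, ?_⟩
  rw [inter_rel (hmD e')] at hN
  have hq0 : (q : W.K) ≠ 0 := by exact_mod_cast hq
  have h1 := (smul_eq_zero.1 hN).resolve_left (pow_ne_zero _ (pow_ne_zero _ hq0))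
  exact hinj _ (frob_gr hc _ _ _) h1

/-- Nondegeneracy of the intersection pairing on the span of the algebraic classes of codimension
`j`. -/
def ND (W : WeilCohomology.{u, v} ops) (Y : 𝒱.Obj) (j : ℕ) : Prop :=
  ∀ u ∈ spanCycles W Y j, (∀ w, Y.IsCyc (Y.dim - j) w → W.tr Y (u * W.cl Y w) = 0) → u = 0

lemma gram_eq {j r : ℕ} (hj : j ≤ Y.dim) {z w : Fin r → Y.Cycles} (hz : ∀ i, Y.IsCyc j (z i))
    (hw : ∀ i, Y.IsCyc (Y.dim - j) (w i)) :
    (Matrix.of fun i l => bil W Y (W.cl Y (z i)) (W.cl Y (w l))).det =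
      (((interMatrix ops Y z w).det : ℚ) : W.K) := by
  have h1 : (Matrix.of fun i l => bil W Y (W.cl Y (z i)) (W.cl Y (w l))) =
      (interMatrix ops Y z w).map (Rat.castHom W.K) := by
    ext i l
    rw [Matrix.of_apply, Matrix.map_apply, interMatrix, Matrix.of_apply, bil_apply,
      tr_mul_cl (hz i) (hw l) (by omega)]
    rfl
  rw [h1, ← RingHom.mapMatrix_apply, ← RingHom.map_det]
  rfl

/-- The consequences of Tate's conjecture on the order of the pole. -/
lemma pole_cons (hF : FrobeniusOnCycles W Y g q) {j : ℕ} (hj : j ≤ Y.dim)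
    (h : HasNonsingular ops Y j (poleOrder W Y g q j)) :
    (∀ a ∈ W.gr Y (2 * j), IsPoleVector (W.map g).toLinearMap q j a → a ∈ spanCycles W Y j) ∧
      ND W Y j ∧ (poleOrder W Y g q (Y.dim - j) ≤ poleOrder W Y g q j → ND W Y (Y.dim - j)) := by
  obtain ⟨z, w, hz, hw, hdet⟩ := h
  have hG : (Matrix.of fun i l => bil W Y (W.cl Y (z i)) (W.cl Y (w l))).det ≠ 0 := by
    rw [gram_eq hj hz hw]
    exact_mod_cast hdet
  obtain ⟨hsp, hnd⟩ := gram_nondeg hG (U := poleSpace (W.gr Y (2 * j)) (W.map g).toLinearMap q j)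
    le_rfl (fun i => span_le_pole hF (mem_span_cl (hz i)))
  refine ⟨?_, ?_, ?_⟩
  · intro a ha hP
    have h1 : a ∈ poleSpace (W.gr Y (2 * j)) (W.map g).toLinearMap q j := ⟨ha, hP⟩
    rw [← hsp] at h1
    refine Submodule.span_le.2 ?_ h1
    rintro _ ⟨i, rfl⟩
    exact mem_span_cl (hz i)
  · intro u hu h0
    exact hnd u (span_le_pole hF hu) (fun l => h0 _ (hw l))
  · intro hle u hu h0
    have hG' := gram_flip hG
    obtain ⟨-, hnd'⟩ := gram_nondeg hG' (U := poleSpace (W.gr Y (2 * (Y.dim - j)))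
      (W.map g).toLinearMap q (Y.dim - j)) hle (fun i => span_le_pole hF (mem_span_cl (hw i)))
    apply hnd' u (span_le_pole hF hu)
    intro l
    rw [LinearMap.flip_apply, bil_apply, W.even_comm (W.cl_mem (hz l))]
    apply h0
    rw [show Y.dim - (Y.dim - j) = j by omega]
    exact hz l

/-- The converse. -/
lemma pole_of (hF : FrobeniusOnCycles W Y g q) {j : ℕ} (hj : j ≤ Y.dim)
    (hT : ∀ a ∈ W.gr Y (2 * j), IsPoleVector (W.map g).toLinearMap q j a → a ∈ spanCycles W Y j)
    (hN : ND W Y j) : PoleConj W Y g q j := by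
  have hU : Submodule.span W.K (algClasses W Y j) =
      poleSpace (W.gr Y (2 * j)) (W.map g).toLinearMap q j := by
    rw [← spanCycles_eq]
    apply le_antisymm
    · exact fun a ha => span_le_pole hF ha
    · exact fun a ha => hT a ha.1 ha.2
  have hr : Module.finrank W.K (Submodule.span W.K (algClasses W Y j)) =
      poleOrder W Y g q j := by rw [hU]; rfl
  constructor
  · have key := exists_gram (B := bil W Y) (s := algClasses W Y j)
      (s' := algClasses W Y (Y.dim - j)) (by
        intro x hx h0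
        rw [← spanCycles_eq] at hx
        exact hN x hx (fun w hw => h0 _ ⟨w, hw, rfl⟩))
    rw [hr] at key
    obtain ⟨u, u', hu, hu', hdet⟩ := key
    choose z hz hzu using hu
    choose w hw hwu using hu'
    refine ⟨z, w, hz, hw, ?_⟩
    intro h0
    apply hdet
    have := gram_eq (W := W) hj hz hw
    rw [h0, Rat.cast_zero] at this
    simpa only [hzu, hwu] using this
  · rintro ⟨z, w, hz, hw, hdet⟩
    have hG : (Matrix.of fun i l => bil W Y (W.cl Y (z i)) (W.cl Y (w l))).det ≠ 0 := by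
      rw [gram_eq hj hz hw]
      exact_mod_cast hdet
    have h1 := finrank_span_eq_card (gram_indep hG)
    have h2 : Submodule.span W.K (Set.range fun i => W.cl Y (z i)) ≤
        poleSpace (W.gr Y (2 * j)) (W.map g).toLinearMap q j := by
      rw [Submodule.span_le]
      rintro _ ⟨i, rfl⟩
      exact span_le_pole hF (mem_span_cl (hz i))
    have h3 := Submodule.finrank_mono h2
    rw [h1, Fintype.card_fin] at h3
    change poleOrder W Y g q j + 1 ≤ poleOrder W Y g q j at h3
    omega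

end General

section Square

variable {D : X.Cycles} {g : X.prod X ⟶ X.prod X} {q : ℕ}

/-- Multiplication by the divisor on the span of the algebraic classes. -/
lemma EE_span {E : Y.Cycles} (hE : Y.IsCyc 1 E) {p : ℕ} {u : W.H Y} (hu : u ∈ spanCycles W Y p)
    (e : ℕ) : EE W E e u ∈ spanCycles W Y ((p + e : ℕ) : ℤ) := by
  rw [spanCycles_eq] at hu
  induction hu using Submodule.span_induction with
  | mem u hu =>
    obtain ⟨z, hz, rfl⟩ := hu
    rw [EE, ← cl_divPow]
    exact mem_span_cl (divPow_mem hE e hz)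
  | zero => rw [map_zero]; exact Submodule.zero_mem _
  | add x y _ _ hx hy => rw [map_add]; exact Submodule.add_mem _ hx hy
  | smul c x _ hx => rw [map_smul]; exact Submodule.smul_mem _ _ hx

lemma EE_gr {E : Y.Cycles} (hE : Y.IsCyc 1 E) {p : ℕ} {u : W.H Y} (hu : u ∈ W.gr Y (2 * p))
    (e : ℕ) : EE W E e u ∈ W.gr Y (2 * (p + e)) := by
  induction e with
  | zero => simpa [EE] using hu
  | succ e ih =>
    rw [EE, pow_succ' (LinearMap.mulLeft W.K (W.cl Y E)), Module.End.mul_apply,
      LinearMap.mulLeft_apply]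
    have := W.mul_mem (W.cl_mem hE) ih
    rwa [show 2 * 1 + 2 * (p + e) = 2 * (p + (e + 1)) by ring] at this

lemma EE_adj {E : Y.Cycles} (hE : Y.IsCyc 1 E) (e : ℕ) (u v : W.H Y) :
    W.tr Y (EE W E e u * v) = W.tr Y (u * EE W E e v) := by
  induction e generalizing u v with
  | zero => simp [EE]
  | succ e ih =>
    rw [EE, pow_succ' (LinearMap.mulLeft W.K (W.cl Y E)), Module.End.mul_apply,
      LinearMap.mulLeft_apply, W.even_comm (W.cl_mem hE), mul_assoc]
    have h1 := ih u (W.cl Y E * v)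
    rw [EE] at h1
    rw [h1, ← pow_succ' (LinearMap.mulLeft W.K (W.cl Y E)), pow_succ, Module.End.mul_apply,
      LinearMap.mulLeft_apply]

/-- Tate's conjecture on the order of the pole at one point. -/
theorem pole_one (hn : 1 ≤ X.dim) (hD : X.IsCyc 1 D) (hHL : HardLefschetz W X D) (hq : q ≠ 0)
    (hF : FrobeniusOnCycles W (X.prod X) g q)
    (h : PoleConj W (X.prod X) g q (X.dim + 1) ∨ PoleConj W (X.prod X) g q (X.dim - 1)) :
    LefschetzB W X D ∧ ∀ j ≤ 2 * X.dim, j ≠ X.dim → PoleConj W (X.prod X) g q j := by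
  have hI := W.isInternal X
  have hLR := rop_mulLeft (W := W) hD
  have hLh : IsHom (W.gr X) 2 (LinearMap.mulLeft W.K (W.cl X D)) := mulLeft_isHom hD
  have hOA := (rop_opAlg (W := W) (X := X))
  have hKA := hOA.kspan
  have hLK : LinearMap.mulLeft W.K (W.cl X D) ∈ KS (ROp W X) 1 := Submodule.subset_span hLR
  obtain ⟨f, t, hf, hfv⟩ := exists_sl2 hI hLh W_hbd hHL
  set E := boxSum ops D with hE
  have hE1 : (X.prod X).IsCyc 1 E := boxSum_mem hD
  set P : ℕ → W.H (X.prod X) → Prop := fun p c => IsPoleVector (W.map g).toLinearMap q p c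
    with hP
  have hT : Distinguished (W.gr X) (LinearMap.mulLeft W.K (W.cl X D)) (OpsOf W X P) := by
    apply opsOf_distinguished hD
    · exact ⟨1, le_rfl, 0, by simp⟩
    · intro p c _ hc
      have := pole_mul hF hE1 hc 1
      rwa [EE, pow_one, LinearMap.mulLeft_apply] at this
    · intro e p c hc hPc hinj
      exact pole_refl hq hF hE1 hc hPc hinj
  -- injectivity and surjectivity of the Lefschetz operators
  have hinj : ∀ m ≤ X.dim, ∀ e ≤ 2 * m, ∀ u ∈ W.gr (X.prod X) (2 * (X.dim - m)),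
      EE W E e u = 0 → u = 0 := by
    intro m hm e he u hu h0
    apply corr_inj
    apply dbl_pow_inj' hI t he
    · have h1 := W.corr_isHom hu
      rwa [show ((X.dim - m : ℕ) : ℤ) - X.dim = -m by omega] at h1
    · rw [← corr_boxSum_pow hD, h0, corr_zero]
  have hsurj : ∀ m ≤ X.dim, ∀ u ∈ W.gr (X.prod X) (2 * (X.dim + m)),
      ∃ v ∈ W.gr (X.prod X) (2 * (X.dim - m)), EE W E (2 * m) v = u := by
    intro m hm u hu
    have h1 := W.corr_isHom hu
    rw [show ((X.dim + m : ℕ) : ℤ) - X.dim = m by omega] at h1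
    obtain ⟨z, hz, hzu⟩ := hom_preimage hI t hLh hf m h1
    obtain ⟨v, rfl⟩ := exists_corr z
    refine ⟨v, ?_, ?_⟩
    · apply mem_gr_of_isHom
      rwa [show ((X.dim - m : ℕ) : ℤ) - X.dim = -m by omega]
    · rw [← sub_eq_zero]
      apply corr_inj
      rw [corr_sub', corr_boxSum_pow hD, hzu, sub_self]
  -- the orders of the poles at `n - 1` and at `n + 1`
  have hle1 : poleOrder W (X.prod X) g q (X.dim - 1) ≤ poleOrder W (X.prod X) g q (X.dim + 1) := by
    have h1 : (poleSpace (W.gr (X.prod X) (2 * (X.dim - 1))) (W.map g).toLinearMap q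
        (X.dim - 1)).map (EE W E 2) ≤ poleSpace (W.gr (X.prod X) (2 * (X.dim + 1)))
          (W.map g).toLinearMap q (X.dim + 1) := by
      rintro _ ⟨a, ha, rfl⟩
      have h2 := EE_gr hE1 ha.1 2
      have h3 := pole_mul hF hE1 ha.2 2
      rw [show X.dim - 1 + 2 = X.dim + 1 by omega] at h2 h3
      exact ⟨h2, h3⟩
    have h4 := finrank_map_of_inj (S := poleSpace (W.gr (X.prod X) (2 * (X.dim - 1)))
      (W.map g).toLinearMap q (X.dim - 1)) (f := EE W E 2)
      (fun a ha h0 => hinj 1 hn 2 (by norm_num) a ha.1 h0)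
    rw [poleOrder, poleOrder, ← h4]
    exact Submodule.finrank_mono h1
  have hle2 : poleOrder W (X.prod X) g q (X.dim + 1) ≤ poleOrder W (X.prod X) g q (X.dim - 1) := by
    have h1 : poleSpace (W.gr (X.prod X) (2 * (X.dim + 1)))
          (W.map g).toLinearMap q (X.dim + 1) ≤
        (poleSpace (W.gr (X.prod X) (2 * (X.dim - 1))) (W.map g).toLinearMap q
        (X.dim - 1)).map (EE W E 2) := by
      intro b hb
      obtain ⟨v, hv, rfl⟩ := hsurj 1 hn b hb.1
      refine ⟨v, ⟨hv, ?_⟩, rfl⟩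
      apply pole_refl hq hF hE1 (e := 2) hv
      · rw [show X.dim - 1 + 2 = X.dim + 1 by omega]
        exact hb.2
      · exact fun z hz h0 => hinj 1 hn 2 (by norm_num) z hz h0
    exact (Submodule.finrank_mono h1).trans (Submodule.finrank_map_le _ _)
  -- the consequences of the conjecture at one point
  have hcons : ND W (X.prod X) (X.dim + 1) ∧ ND W (X.prod X) (X.dim - 1) ∧
      ((∀ a ∈ W.gr (X.prod X) (2 * (X.dim + 1)), P (X.dim + 1) a →
        a ∈ spanCycles W (X.prod X) ((X.dim + 1 : ℕ) : ℤ)) ∨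
      (∀ a ∈ W.gr (X.prod X) (2 * (X.dim - 1)), P (X.dim - 1) a →
        a ∈ spanCycles W (X.prod X) ((X.dim - 1 : ℕ) : ℤ))) := by
    rcases h with h | h
    · obtain ⟨h1, h2, h3⟩ := pole_cons hF (by rw [dim_prod]; omega) h.1
      rw [show (X.prod X).dim - (X.dim + 1) = X.dim - 1 by rw [dim_prod]; omega] at h3
      exact ⟨h2, h3 hle1, Or.inl h1⟩
    · obtain ⟨h1, h2, h3⟩ := pole_cons hF (by rw [dim_prod]; omega) h.1
      rw [show (X.prod X).dim - (X.dim - 1) = X.dim + 1 by rw [dim_prod]; omega] at h3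
      exact ⟨h3 hle2, h2, Or.inr h1⟩
  obtain ⟨hNp, hNm, hTor⟩ := hcons
  have hB : LefschetzB W X D := by
    apply lefschetzB_of_homEqNumIn hD hHL
    intro z hz hnum
    apply hNp _ (mem_span_cl hz)
    intro w hw
    rw [tr_mul_cl hz hw (by rw [dim_prod]; omega), hnum w hw, Rat.cast_zero]
  have hfK : f ∈ KS (ROp W X) (-1) := by
    obtain ⟨Φ, hΦ, hLam⟩ := lefschetzB_iff_rop.1 hB
    exact Submodule.subset_span (lower_of_lam hOA hI W_hbd hLR hHL hΦ hLam hfv)
  have hcast : ((X.dim - 1 : ℕ) : ℤ) - X.dim = -1 := by omega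
  have hcast' : ((X.dim + 1 : ℕ) : ℤ) - X.dim = 1 := by omega
  have hlow : ∀ y, OpsOf W X P (-1) y → y ∈ KS (ROp W X) (-1) := by
    rcases hTor with h1 | h1
    · apply low_of_high hKA hT hI t hLK hfK
      intro y hy
      have := ops_of_span (P := P) (j := X.dim + 1) h1 (y := y) (by rw [hcast']; exact hy)
      rwa [hcast'] at this
    · intro y hy
      have := ops_of_span (P := P) (j := X.dim - 1) h1 (y := y) (by rw [hcast]; exact hy)
      rwa [hcast] at this
  have hTall : ∀ j : ℕ, j ≠ X.dim → ∀ a ∈ W.gr (X.prod X) (2 * j), P j a →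
      a ∈ spanCycles W (X.prod X) j := by
    intro j hj a ha hPa
    apply span_of_ops (P := P) _ ha hPa
    exact all_of_low hKA hT hI t hLK hfK hlow _ (by omega)
  -- preimages of algebraic classes
  have hpre : ∀ m ≤ X.dim, ∀ u ∈ spanCycles W (X.prod X) ((X.dim + m : ℕ) : ℤ),
      ∃ v ∈ spanCycles W (X.prod X) ((X.dim - m : ℕ) : ℤ), EE W E (2 * m) v = u := by
    intro m hm u hu
    have h1 : W.corr u ∈ KS (ROp W X) m := by
      rw [mem_KS_iff, mem_KOp_iff]
      exact ⟨u, by rwa [show (X.dim : ℤ) + m = ((X.dim + m : ℕ) : ℤ) by push_cast; rfl], rfl⟩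
    obtain ⟨z, hz, hzu⟩ := alg_preimage hKA hI t hLK hfK m h1
    rw [mem_KS_iff, mem_KOp_iff] at hz
    obtain ⟨v, hv, rfl⟩ := hz
    refine ⟨v, by rwa [show (X.dim : ℤ) + -m = ((X.dim - m : ℕ) : ℤ) by omega] at hv, ?_⟩
    rw [← sub_eq_zero]
    apply corr_inj
    rw [corr_sub', corr_boxSum_pow hD, hzu, sub_self]
  -- nondegeneracy below and above the middle
  have hNlow : ∀ m, 1 ≤ m → m ≤ X.dim → ND W (X.prod X) (X.dim - m) := by
    intro m hm1 hm u hu h0
    have h1 := EE_span hE1 hu (m - 1)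
    rw [show X.dim - m + (m - 1) = X.dim - 1 by omega] at h1
    apply hinj m hm (m - 1) (by omega) u (H914.span_gr hu)
    apply hNm _ h1
    intro w hw
    rw [EE_adj hE1, EE, ← cl_divPow]
    apply h0
    have h2 := divPow_mem (ops := ops) hE1 (m - 1) hw
    rw [dim_prod] at h2 ⊢
    rwa [show X.dim + X.dim - (X.dim - 1) + (m - 1) = X.dim + X.dim - (X.dim - m) by omega] at h2
  have hNhigh : ∀ m, 1 ≤ m → m ≤ X.dim → ND W (X.prod X) (X.dim + m) := by
    intro m hm1 hm u hu h0
    obtain ⟨y, hy, rfl⟩ := hpre m hm u hu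
    have hy0 : y = 0 := by
      apply hNlow m hm1 hm y hy
      intro w hw
      have hw' : W.cl _ w ∈ spanCycles W (X.prod X) ((X.dim + m : ℕ) : ℤ) := by
        apply mem_span_cl
        rwa [dim_prod, show X.dim + X.dim - (X.dim - m) = X.dim + m by omega] at hw
      obtain ⟨w', hw'', hww⟩ := hpre m hm _ hw'
      rw [← hww, ← EE_adj hE1]
      have key : ∀ v ∈ spanCycles W (X.prod X) ((X.dim - m : ℕ) : ℤ),
          W.tr (X.prod X) (EE W E (2 * m) y * v) = 0 := by
        intro v hv
        rw [spanCycles_eq] at hv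
        induction hv using Submodule.span_induction with
        | mem v hv =>
          obtain ⟨z, hz, rfl⟩ := hv
          apply h0
          rw [dim_prod, show X.dim + X.dim - (X.dim + m) = X.dim - m by omega]
          exact hz
        | zero => rw [mul_zero, map_zero]
        | add a b _ _ ha hb => rw [mul_add, map_add, ha, hb, add_zero]
        | smul c a _ ha => rw [mul_smul_comm, map_smul, ha, smul_zero]
      exact key _ hw''
    rw [hy0, map_zero]
  refine ⟨hB, ?_⟩
  intro j hj hjn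
  apply pole_of hF (by rw [dim_prod]; omega) (hTall j hjn)
  rcases lt_or_gt_of_ne hjn with hlt | hgt
  · have := hNlow (X.dim - j) (by omega) (by omega)
    rwa [show X.dim - (X.dim - j) = j by omega] at this
  · have := hNhigh (j - X.dim) (by omega) (by omega)
    rwa [show X.dim + (j - X.dim) = j by omega] at this

/-- **Tate's conjecture on the orders of the poles on the square of a variety.** -/
theorem pole_tfae (hn : 1 ≤ X.dim) (hD : X.IsCyc 1 D) (hHL : HardLefschetz W X D) (hq : q ≠ 0)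
    (hF : FrobeniusOnCycles W (X.prod X) g q) :
    List.TFAE [
      LefschetzB W X D ∧ ∀ j ≤ 2 * X.dim, j ≠ X.dim → PoleConj W (X.prod X) g q j,
      PoleConj W (X.prod X) g q (X.dim - 1), PoleConj W (X.prod X) g q (X.dim + 1)] := by
  tfae_have 1 → 2 := fun h => h.2 _ (by omega) (by omega)
  tfae_have 1 → 3 := fun h => h.2 _ (by omega) (by omega)
  tfae_have 2 → 1 := fun h => pole_one hn hD hHL hq hF (Or.inr h)
  tfae_have 3 → 1 := fun h => pole_one hn hD hHL hq hF (Or.inl h)
  tfae_finish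

end Square

end Pool.Agent.H447
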