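import Pool.Agent.H447R3.PoB
import Pool.Agent.H447R3.TaC

/-!
# Tate's conjecture on the orders of the poles for a variety from the one on its square
-/

open CategoryTheory AlgebraicGeometry Finset

universe u v w

namespace Pool.Agent.H447

open Pool.Agent.H914 VarClass Obj WeilCohomology

variable {k : Type u} [Field k] {𝒱 : VarClass k} {ops : CycleOps 𝒱}
  {W : WeilCohomology.{u, v} ops} {X : 𝒱.Obj} {D : X.Cycles} {f : X ⟶ X} {q : ℕ}

/-- The Frobenius on the cycles of `X`. -/
lemma frobeniusOnCycles_of_square (hD : X.IsCyc 1 D) (hHL : HardLefschetz W X D)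
    (hF : FrobeniusOnCycles W (X.prod X) (squareMap f) q) : FrobeniusOnCycles W X f q := by
  intro j z hz
  by_cases h1 : (1 : W.H X) = 0
  · refine ⟨1, le_rfl, ?_⟩
    rw [← one_mul (W.cl X _), h1, zero_mul, ← one_mul (W.cl X z), h1, zero_mul, smul_zero]
  obtain ⟨m, hm, h⟩ := frob_single hF ⟨_, tr_top_ne hD hHL h1⟩ hz
  refine ⟨m, hm, ?_⟩
  rw [cl_pull_iter, ← map_iter]
  have := h 1
  rwa [mul_one] at this

lemma squareMap_pow_snd (m : ℕ) (a : W.H X) :
    ((W.map (squareMap f)).toLinearMap ^ m) (W.map (snd X X) a) =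
      W.map (snd X X) (((W.map f).toLinearMap ^ m) a) := by
  rw [map_squareMap_pow, ← map_iter]
  have h := map_squareMap (W := W) (iter f m) 1 a
  rwa [map_one, map_one, map_one, one_mul, one_mul] at h

/-- The pull-back of a pole vector. -/
lemma pole_snd {j : ℕ} {a : W.H X} (h : IsPoleVector (W.map f).toLinearMap q j a) :
    IsPoleVector (W.map (squareMap f)).toLinearMap q j (W.map (snd X X) a) := by
  obtain ⟨m, hm, N, hN⟩ := h
  refine ⟨m, hm, N, ?_⟩
  have key : ∀ (N : ℕ) (a : W.H X), (((W.map (squareMap f)).toLinearMap ^ m -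
      algebraMap W.K (Module.End W.K (W.H (X.prod X))) ((q : W.K) ^ (m * j))) ^ N)
        (W.map (snd X X) a) = W.map (snd X X) ((((W.map f).toLinearMap ^ m -
      algebraMap W.K (Module.End W.K (W.H X)) ((q : W.K) ^ (m * j))) ^ N) a) := by
    intro N
    induction N with
    | zero => intro a; simp
    | succ N ih =>
      intro a
      rw [pow_succ, Module.End.mul_apply, LinearMap.sub_apply, Module.algebraMap_end_apply,
        squareMap_pow_snd, ← map_smul, ← map_sub, ih, pow_succ, Module.End.mul_apply,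
        LinearMap.sub_apply, Module.algebraMap_end_apply]
  rw [key, hN, map_zero]

/-- Pole vectors on `X` are algebraic. -/
lemma span_of_pole (hD : X.IsCyc 1 D) (hHL : HardLefschetz W X D)
    (hF : FrobeniusOnCycles W (X.prod X) (squareMap f) q)
    (hT : ∀ a ∈ W.gr (X.prod X) (2 * (X.dim - 1)),
      IsPoleVector (W.map (squareMap f)).toLinearMap q (X.dim - 1) a →
        a ∈ spanCycles W (X.prod X) ((X.dim - 1 : ℕ) : ℤ)) {j : ℕ} (hj : j ≤ X.dim)
    {a : W.H X} (ha : a ∈ W.gr X (2 * j)) (h : IsPoleVector (W.map f).toLinearMap q j a) :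
    a ∈ spanCycles W X j := by
  rcases lt_or_eq_of_le hj with hj | rfl
  · obtain ⟨e, he⟩ : ∃ e, j + e + 1 = X.dim := ⟨X.dim - 1 - j, by omega⟩
    apply span_of_square hD hHL he
    have hE : (X.prod X).IsCyc 1 (ops.pull (fst X X) D) := ops.pull_mem _ hD
    have h2 := pole_mul hF hE (pole_snd h) e
    have h3 := EE_gr (W := W) hE (W.map_mem (snd X X) ha) e
    rw [show j + e = X.dim - 1 by omega] at h2 h3
    have h4 := hT _ h3 h2
    rwa [EE, LinearMap.pow_mulLeft, LinearMap.mulLeft_apply, W.cl_pull, ← map_pow] at h4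
  · exact span_top hD hHL ha

/-- D implies the nondegeneracy with coefficients. -/
lemma nd_of_homEqNum {Y : 𝒱.Obj} (h : HomEqNum W Y) {j : ℕ} (hj : j ≤ Y.dim) : ND W Y j := by
  intro u hu h0
  have hIn : HomEqNumIn W Y j := h j hj
  apply hIn.span (p := Y.dim - j) (by omega) hu
  intro w hw
  rw [W.even_comm (W.cl_mem hw)]
  exact h0 w hw

/-- **Tate's conjecture on the orders of the poles on the square of a variety.** -/
theorem pole_tfae' (hn : 1 ≤ X.dim) (hD : X.IsCyc 1 D) (hHL : HardLefschetz W X D) (hq : q ≠ 0)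
    (hF : FrobeniusOnCycles W (X.prod X) (squareMap f) q) :
    List.TFAE [
      LefschetzB W X D ∧ (∀ j ≤ X.dim, PoleConj W X f q j) ∧
        ∀ j ≤ 2 * X.dim, j ≠ X.dim → PoleConj W (X.prod X) (squareMap f) q j,
      PoleConj W (X.prod X) (squareMap f) q (X.dim - 1),
      PoleConj W (X.prod X) (squareMap f) q (X.dim + 1)] := by
  have h := pole_tfae hn hD hHL hq hF
  have h01 := h.out 0 1
  have h12 := h.out 1 2
  tfae_have 1 → 2 := fun h => h.2.2 _ (by omega) (by omega)
  tfae_have 2 ↔ 3 := h12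
  tfae_have 2 → 1 := by
    intro h1
    have h2 := h01.2 h1
    obtain ⟨hTm, -, -⟩ := pole_cons hF (by rw [dim_prod]; omega) h1.1
    obtain ⟨-, hNp, -⟩ := pole_cons hF (by rw [dim_prod]; omega) (h12.1 h1).1
    have hDX : HomEqNum W X := by
      apply homEqNum_of_square hD hHL
      intro z hz hnum
      apply hNp _ (mem_span_cl hz)
      intro w hw
      rw [tr_mul_cl hz hw (by rw [dim_prod]; omega), hnum w hw, Rat.cast_zero]
    refine ⟨h2.1, ?_, h2.2⟩
    intro j hj
    exact pole_of (frobeniusOnCycles_of_square hD hHL hF) hj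
      (fun a ha h => span_of_pole hD hHL hF hTm hj ha h) (nd_of_homEqNum hDX hj)
  tfae_finish

end Pool.Agent.H447
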