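import Pool.Agent.H447R3.DegDefs

/-!
# Tate's conjecture on the orders of the poles of the zeta function: definitions
-/

open CategoryTheory AlgebraicGeometry

universe u v w

namespace Pool.Agent.H447

section Alg

variable {K : Type*} [Field K] {V : Type*} [AddCommGroup V] [Module K V]

/-- The vector `a` is a generalized eigenvector of a power `F ^ m`, `m ≥ 1`, of the operator `F`
for the eigenvalue `q ^ (m j)`. -/
def IsPoleVector (F : Module.End K V) (q j : ℕ) (a : V) : Prop :=
  ∃ m ≥ 1, ∃ N : ℕ, ((F ^ m - algebraMap K (Module.End K V) ((q : K) ^ (m * j))) ^ N) a = 0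

lemma kill_pow (F : Module.End K V) (x : K) {m N : ℕ} {a : V}
    (h : ((F ^ m - algebraMap K (Module.End K V) x) ^ N) a = 0) (e : ℕ) :
    ((F ^ (m * e) - algebraMap K (Module.End K V) (x ^ e)) ^ N) a = 0 := by
  set A := F ^ m with hA
  set B := algebraMap K (Module.End K V) x with hB
  have hc : Commute A B := (Algebra.commutes' x A).symm
  have h1 := hc.geom_sum₂_mul e
  have h2 := hc.mul_geom_sum₂ e
  have hS : Commute (∑ i ∈ Finset.range e, A ^ i * B ^ (e - 1 - i)) (A - B) := h1.trans h2.symm
  rw [pow_mul, ← hA, map_pow, ← hB, ← h1, hS.mul_pow, Module.End.mul_apply, h, map_zero]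

lemma IsPoleVector.exists_mul {F : Module.End K V} {q j m₀ : ℕ} (hm₀ : 1 ≤ m₀) {a : V}
    (h : IsPoleVector F q j a) : ∃ e ≥ 1, ∃ N : ℕ, ((F ^ (m₀ * e) -
      algebraMap K (Module.End K V) ((q : K) ^ (m₀ * e * j))) ^ N) a = 0 := by
  obtain ⟨m, hm, N, hN⟩ := h
  refine ⟨m, hm, N, ?_⟩
  have := kill_pow F _ hN m₀
  rwa [← pow_mul, show m * j * m₀ = m₀ * m * j by ring, mul_comm m m₀] at this

lemma IsPoleVector.add {F : Module.End K V} {q j : ℕ} {a b : V} (ha : IsPoleVector F q j a)
    (hb : IsPoleVector F q j b) : IsPoleVector F q j (a + b) := by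
  obtain ⟨m, hm, N, hN⟩ := ha
  obtain ⟨e, he, N', hN'⟩ := hb.exists_mul hm
  have h1 := kill_pow F _ hN e
  rw [← pow_mul, show m * j * e = m * e * j by ring] at h1
  refine ⟨m * e, Nat.mul_pos hm he, N + N', ?_⟩
  rw [map_add, pow_add, Module.End.mul_apply, Module.End.mul_apply, hN', map_zero, add_zero,
    ← Module.End.mul_apply, ← pow_add, add_comm N N', pow_add, Module.End.mul_apply, h1, map_zero]

/-- The subspace of `U` of the vectors which are generalized eigenvectors of a power `F ^ m`,
`m ≥ 1`, of the operator `F` for the eigenvalue `q ^ (m j)`. -/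
def poleSpace (U : Submodule K V) (F : Module.End K V) (q j : ℕ) : Submodule K V where
  carrier := {a | a ∈ U ∧ IsPoleVector F q j a}
  zero_mem' := ⟨U.zero_mem, 1, le_rfl, 0, by simp⟩
  add_mem' := fun ha hb => ⟨U.add_mem ha.1 hb.1, ha.2.add hb.2⟩
  smul_mem' := by
    rintro c a ⟨ha, m, hm, N, hN⟩
    exact ⟨U.smul_mem c ha, m, hm, N, by rw [map_smul, hN, smul_zero]⟩

lemma mem_poleSpace {U : Submodule K V} {F : Module.End K V} {q j : ℕ} {a : V} :
    a ∈ poleSpace U F q j ↔ a ∈ U ∧ IsPoleVector F q j a := Iff.rfl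

end Alg

open Pool.Agent.H914 VarClass Obj WeilCohomology

variable {k : Type u} [Field k] {𝒱 : VarClass k} {ops : CycleOps 𝒱}

/-- The number of eigenvalues of `f^*` on `H^(2j)(Y)`, counted with multiplicities, which are
equal to `q ^ j` times a root of unity. (If `f` is the Frobenius endomorphism relative to a field
with `q` elements, this is the order of the pole at `s = j` of the zeta function of `Y` over all
sufficiently large finite extensions.) -/
noncomputable def poleOrder (W : WeilCohomology.{u, v} ops) (Y : 𝒱.Obj) (f : Y ⟶ Y) (q j : ℕ) :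
    ℕ :=
  Module.finrank W.K (poleSpace (W.gr Y (2 * j)) (W.map f).toLinearMap q j)

/-- The matrix of the intersection numbers of the cycles `z i` and `w l`. -/
noncomputable def interMatrix (ops : CycleOps 𝒱) (Y : 𝒱.Obj) {r : ℕ} (z w : Fin r → Y.Cycles) :
    Matrix (Fin r) (Fin r) ℚ :=
  Matrix.of fun i l => Y.V.degCycle (ops.mul (z i) (w l))

/-- There are cycles `z 1, …, z r` of codimension `j` and `w 1, …, w r` of codimension
`dim Y - j` on `Y` whose intersection matrix has nonzero determinant. -/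
def HasNonsingular (ops : CycleOps 𝒱) (Y : 𝒱.Obj) (j r : ℕ) : Prop :=
  ∃ z w : Fin r → Y.Cycles, (∀ i, Y.IsCyc j (z i)) ∧ (∀ i, Y.IsCyc (Y.dim - j) (w i)) ∧
    (interMatrix ops Y z w).det ≠ 0

/-- The group of cycles of codimension `j` on `Y` modulo numerical equivalence has rank `r`. -/
def NumRank (ops : CycleOps 𝒱) (Y : 𝒱.Obj) (j r : ℕ) : Prop :=
  HasNonsingular ops Y j r ∧ ¬ HasNonsingular ops Y j (r + 1)

/-- Tate's conjecture on the order of the pole at `s = j` for `Y`: the rank of the group of cycles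
of codimension `j` modulo numerical equivalence is equal to the number of eigenvalues of `f^*` on
`H^(2j)(Y)` which are `q ^ j` times a root of unity. -/
def PoleConj (W : WeilCohomology.{u, v} ops) (Y : 𝒱.Obj) (f : Y ⟶ Y) (q j : ℕ) : Prop :=
  NumRank ops Y j (poleOrder W Y f q j)

end Pool.Agent.H447
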