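import Pool.Agent.H914R2.Asm
import Pool.Agent.H914R2.PolyPow
import Pool.Agent.H447R3.NumA

/-!
# Operators commuting with an operator with simple spectrum
-/

open Polynomial Finset TensorProduct

namespace Pool.Agent.H447

open Pool.Agent.H914

variable {K : Type*} [Field K] [CharZero K] {V : Type*} [AddCommGroup V] [Module K V]
  [Module.Finite K V]

/-- An operator commuting with an operator `G` with simple spectrum vanishes if all its twisted
traces against the powers of `G` vanish. -/
theorem eq_zero_of_traces {G U ε : Module.End K V} (hG : HasSimple G) (hU : U * G = G * U)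
    (hε : ε * G = G * ε) (hεε : ε * ε = 1)
    (htr : ∀ k : ℕ, LinearMap.trace K V (ε * (U * G ^ k)) = 0) : U = 0 := by
  classical
  set Kb := AlgebraicClosure K
  obtain ⟨S, b, hb⟩ := exists_eigenbasis Kb hG
  set G₁ := G.baseChange Kb with hG₁
  set U₁ := U.baseChange Kb with hU₁
  set ε₁ := ε.baseChange Kb with hε₁
  have hinj : Function.Injective (fun i : S => (i : Kb)) := Subtype.coe_injective
  have hUG : U₁ * G₁ = G₁ * U₁ := by rw [hU₁, hG₁, ← bc_mul, ← bc_mul, hU]
  have hεG : ε₁ * G₁ = G₁ * ε₁ := by rw [hε₁, hG₁, ← bc_mul, ← bc_mul, hε]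
  have hdiag : ∀ {A : Module.End Kb (Kb ⊗[K] V)}, A * G₁ = G₁ * A → ∀ i, ∃ c : Kb,
      A (b i) = c • b i := by
    intro A hA i
    apply eig_unique hb hinj (i := i)
    rw [← Module.End.mul_apply, ← hA, Module.End.mul_apply, hb, map_smul]
  choose u hu using hdiag hUG
  choose e he using hdiag hεG
  have he0 : ∀ i, e i ≠ 0 := by
    intro i h0
    have h1 : (ε₁ * ε₁) (b i) = b i := by rw [hε₁, ← bc_mul, hεε, bc_one]; rfl
    rw [Module.End.mul_apply, he, map_smul, he, h0, zero_smul] at h1
    exact b.ne_zero i h1.symm
  have hpow : ∀ (k : ℕ) (i : S), (G₁ ^ k) (b i) = (i : Kb) ^ k • b i := by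
    intro k i
    induction k with
    | zero => simp
    | succ k ih => rw [pow_succ', Module.End.mul_apply, ih, map_smul, hb, smul_smul, pow_succ]
  have hsum : ∀ k : ℕ, ∑ i : S, e i * u i * (i : Kb) ^ k = 0 := by
    intro k
    have h1 : LinearMap.trace Kb _ (ε₁ * (U₁ * G₁ ^ k)) = 0 := by
      rw [hε₁, hG₁, hU₁, ← bc_pow, ← bc_mul, ← bc_mul, LinearMap.trace_baseChange, htr, map_zero]
    rw [← h1]
    rw [trace_eig b (z := fun i => e i * u i * (i : Kb) ^ k)]
    intro i
    rw [Module.End.mul_apply, Module.End.mul_apply, hpow, map_smul, hu, map_smul, map_smul, he,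
      smul_smul, smul_smul]
    congr 1
    ring
  have hu0 : ∀ i, u i = 0 := by
    set c := Fintype.equivFin S with hc
    have h1 := Matrix.eq_zero_of_forall_pow_sum_mul_pow_eq_zero
      (f := fun j : Fin (Fintype.card S) => ((c.symm j : S) : Kb))
      (v := fun j => e (c.symm j) * u (c.symm j))
      (fun a a' h => c.symm.injective (hinj h)) (by
        intro k
        rw [← hsum k]
        exact Equiv.sum_comp c.symm (fun i : S => e i * u i * (i : Kb) ^ (k : ℕ)))
    intro i
    have h2 := congrFun h1 (c i)
    rw [Equiv.symm_apply_apply] at h2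
    exact (mul_eq_zero.1 h2).resolve_left (he0 i)
  apply bc_inj (Kb := Kb)
  rw [bc_zero]
  apply b.ext
  intro i
  rw [LinearMap.zero_apply]
  change U₁ (b i) = 0
  rw [hu, hu0, zero_smul]

variable {gr : ℕ → Submodule K V} {n : ℕ}

/-- An operator of degree zero with image in a subspace `T`, commuting with an operator with
simple spectrum on `T`, vanishes on `T` if its super traces against the powers of this operator
vanish. -/
theorem eq_zero_on {T : Submodule K V} {G u : Module.End K V} (h : DirectSum.IsInternal gr)
    (hG0 : IsHom gr 0 G)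
    (hTG : ∀ x ∈ T, G x ∈ T) (hTu : ∀ x, u x ∈ T) (hTp : ∀ x ∈ T, par h x ∈ T)
    (hu : u * G = G * u) (hS : HasSimple (G.restrict hTG))
    (htr : ∀ k : ℕ, LinearMap.trace K V (par h * (u * G ^ k)) = 0) : ∀ x ∈ T, u x = 0 := by
  have hcomm : par h * G = G * par h := by
    have h1 : IsHom gr (2 * 0) G := by simpa using hG0
    exact h1.par_comm h
  have hGk : ∀ (k : ℕ), ∀ x ∈ T, (G ^ k) x ∈ T := by
    intro k
    induction k with
    | zero => intro x hx; simpa using hx
    | succ k ih => intro x hx; rw [pow_succ', Module.End.mul_apply]; exact hTG _ (ih x hx)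
  have key := eq_zero_of_traces (G := G.restrict hTG) (U := u.restrict (fun x _ => hTu x))
    (ε := (par h).restrict hTp) hS (by
      apply LinearMap.ext
      intro x
      apply Subtype.ext
      exact congrArg (fun F => F (x : V)) hu) (by
      apply LinearMap.ext
      intro x
      apply Subtype.ext
      exact congrArg (fun F => F (x : V)) hcomm) (by
      apply LinearMap.ext
      intro x
      apply Subtype.ext
      exact congrArg (fun F => F (x : V)) (par_mul_par h)) (by
      intro k
      have h1 : ∀ x, (par h * (u * G ^ k)) x ∈ T := fun x => hTp _ (hTu _)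
      rw [← htr k, ← LinearMap.trace_restrict_eq_of_forall_mem T (par h * (u * G ^ k)) h1]
      congr 1
      apply LinearMap.ext
      intro x
      apply Subtype.ext
      change par h (u (((G.restrict hTG) ^ k) x : V)) = par h (u ((G ^ k) (x : V)))
      rw [restrict_pow])
  intro x hx
  have h1 := congrArg (fun F => ((F ⟨x, hx⟩ : T) : V)) key
  exact h1

end Pool.Agent.H447
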