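import Pool.Agent.H447R3.AoA

/-!
# From one degree to all degrees
-/

open Polynomial Finset

namespace Pool.Agent.H447

open Pool.Agent.H914

section Ops

variable {K : Type*} [Field K] [CharZero K] {V : Type*} [AddCommGroup V] [Module K V]
  [Module.Finite K V] {gr : ℕ → Submodule K V} {n : ℕ} {L f : Module.End K V}

/-- A family of operators, homogeneous, stable under the operator `y ↦ L y + y L` and such that
membership can be tested after applying an injective power of this operator. -/
structure Distinguished (gr : ℕ → Submodule K V) (L : Module.End K V)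
    (T : ℤ → Module.End K V → Prop) : Prop where
  hom : ∀ {d y}, T d y → IsHom gr (2 * d) y
  raise : ∀ {d y}, T d y → T (d + 1) (dbl L y)
  refl : ∀ (c : ℕ) {d y}, IsHom gr (2 * d) y → T (d + c) ((dbl L ^ c) y) →
    (∀ z, IsHom gr (2 * d) z → (dbl L ^ c) z = 0 → z = 0) → T d y

variable {T S : ℤ → Module.End K V → Prop}

omit [CharZero K] [Module.Finite K V] in
lemma Distinguished.pow (hT : Distinguished gr L T) {d : ℤ} {y : Module.End K V} (hy : T d y)
    (c : ℕ) : T (d + c) ((dbl L ^ c) y) := by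
  induction c with
  | zero => simpa using hy
  | succ c ih =>
    rw [pow_succ', Module.End.mul_apply]
    have := hT.raise ih
    rwa [add_assoc, ← Nat.cast_succ] at this

/-- Injectivity of the Lefschetz operators on the operators. -/
lemma dbl_pow_inj (h : DirectSum.IsInternal gr) (t : Sl2 (wt h n) L f) (m : ℕ) {y : Module.End K V}
    (hy : IsHom gr (2 * (-m : ℤ)) y) (h0 : (dbl L ^ (2 * m)) y = 0) : y = 0 := by
  apply e_pow_inj (sl2_dbl t) (c := 2 * m) _ h0
  rw [weight_dbl h hy]
  congr 1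
  push_cast; ring

lemma dbl_pow_inj' (h : DirectSum.IsInternal gr) (t : Sl2 (wt h n) L f) {m c : ℕ} (hc : c ≤ 2 * m)
    {y : Module.End K V} (hy : IsHom gr (2 * (-m : ℤ)) y) (h0 : (dbl L ^ c) y = 0) : y = 0 := by
  apply dbl_pow_inj h t m hy
  rw [show 2 * m = (2 * m - c) + c by omega, pow_add, Module.End.mul_apply, h0, map_zero]

/-- Surjectivity of the Lefschetz operators on all operators. -/
lemma hom_preimage (h : DirectSum.IsInternal gr) (t : Sl2 (wt h n) L f) (hL : IsHom gr 2 L)
    (hf : IsHom gr (-2) f) (m : ℕ) {y : Module.End K V} (hy : IsHom gr (2 * (m : ℤ)) y) :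
    ∃ z, IsHom gr (2 * (-m : ℤ)) z ∧ (dbl L ^ (2 * m)) z = y :=
  exists_preimage (sl2_dbl t) (P := fun d x => IsHom gr (2 * d) x) (fun d => isHom_zero _)
    (fun hx hy => hx.add hy) (fun q _ _ hx => hx.smul _)
    (fun {d x} hx => by
      have h1 := (hL.mul hx).add (by simpa [add_comm] using hx.mul hL : IsHom gr (2 + 2 * d) (x * L))
      rw [show 2 + 2 * d = 2 * (d + 1) by ring] at h1
      exact h1)
    (fun {d x} hx => by
      have h1 := (hf.mul hx).add (by simpa [add_comm] using hx.mul hf : IsHom gr (-2 + 2 * d) (x * f))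
      rw [show -2 + 2 * d = 2 * (d - 1) by ring] at h1
      exact h1)
    (fun {d x} hx => weight_dbl h hx) m hy

/-- Surjectivity of the Lefschetz operators on an algebra of operators containing the lowering
operator. -/
lemma alg_preimage (hS : OpAlg gr S) (h : DirectSum.IsInternal gr) (t : Sl2 (wt h n) L f)
    (hL : S 1 L) (hf : S (-1) f) (m : ℕ) {y : Module.End K V} (hy : S m y) :
    ∃ z, S (-m) z ∧ (dbl L ^ (2 * m)) z = y :=
  exists_preimage (sl2_dbl t) (P := S) hS.zero hS.add (fun q _ _ hx => hS.smul q hx)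
    (fun {d x} hx => hS.add (hS.cast (hS.mul hL hx) (by ring)) (hS.mul hx hL))
    (fun {d x} hx => hS.add (hS.cast (hS.mul hf hx) (by ring)) (hS.mul hx hf))
    (fun {d x} hx => weight_dbl h (hS.hom hx)) m hy

lemma alg_pow (hS : OpAlg gr S) (hL : S 1 L) {d : ℤ} {y : Module.End K V} (hy : S d y) (c : ℕ) :
    S (d + c) ((dbl L ^ c) y) := by
  induction c with
  | zero => simpa using hy
  | succ c ih =>
    rw [pow_succ', Module.End.mul_apply, dbl_apply]
    exact hS.add (hS.cast (hS.mul hL ih) (by push_cast; ring))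
      (hS.cast (hS.mul ih hL) (by push_cast; ring))

/-- An operator of negative degree is in the algebra if its image under a power of the Lefschetz
operator is. -/
lemma alg_of_pow (hS : OpAlg gr S) (h : DirectSum.IsInternal gr) (t : Sl2 (wt h n) L f)
    (hL : S 1 L) (hf : S (-1) f) {m c : ℕ} (hc : c ≤ 2 * m) {y : Module.End K V}
    (hy : IsHom gr (2 * (-m : ℤ)) y) (h1 : S (-m + c) ((dbl L ^ c) y)) : S (-m) y := by
  have h2 := alg_pow hS hL h1 (2 * m - c)
  rw [← Module.End.mul_apply, ← pow_add, show 2 * m - c + c = 2 * m by omega,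
    show (-(m : ℤ) + c + ((2 * m - c : ℕ) : ℤ)) = m by push_cast [Nat.cast_sub hc]; ring] at h2
  obtain ⟨z, hz, hzy⟩ := alg_preimage hS h t hL hf m h2
  have h3 : y - z = 0 := by
    apply dbl_pow_inj h t m (hy.sub (hS.hom hz))
    rw [map_sub, hzy, sub_self]
  rw [sub_eq_zero] at h3
  rw [h3]
  exact hz

/-- From the degree `-1` to all nonzero degrees. -/
theorem all_of_low (hS : OpAlg gr S) (hT : Distinguished gr L T) (h : DirectSum.IsInternal gr)
    (t : Sl2 (wt h n) L f) (hL : S 1 L) (hf : S (-1) f) (h1 : ∀ y, T (-1) y → S (-1) y) :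
    ∀ d ≠ 0, ∀ y, T d y → S d y := by
  have hneg : ∀ m : ℕ, 1 ≤ m → ∀ y, T (-m) y → S (-m) y := by
    intro m hm y hy
    have h2 := hT.pow hy (m - 1)
    rw [show (-(m : ℤ) + ((m - 1 : ℕ) : ℤ)) = -1 by push_cast [Nat.cast_sub hm]; ring] at h2
    have h3 := h1 _ h2
    apply alg_of_pow hS h t hL hf (c := m - 1) (by omega) (hT.hom hy)
    rwa [show (-(m : ℤ) + ((m - 1 : ℕ) : ℤ)) = -1 by push_cast [Nat.cast_sub hm]; ring]
  intro d hd y hy
  rcases lt_or_gt_of_ne hd with hd | hd
  · obtain ⟨m, hm⟩ : ∃ m : ℕ, d = -m := ⟨(-d).toNat, by omega⟩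
    subst hm
    exact hneg m (by omega) y hy
  · obtain ⟨m, hm⟩ : ∃ m : ℕ, d = m := ⟨d.toNat, by omega⟩
    subst hm
    have hLh : IsHom gr 2 L := by simpa using hS.hom hL
    have hfh : IsHom gr (-2) f := by simpa using hS.hom hf
    obtain ⟨z, hz, hzy⟩ := hom_preimage h t hLh hfh m (hT.hom hy)
    have h2 : T (-m) z := by
      apply hT.refl (2 * m) hz
      · rw [hzy]
        rwa [show (-(m : ℤ) + ((2 * m : ℕ) : ℤ)) = m by push_cast; ring]
      · intro w hw h0
        exact dbl_pow_inj h t m hw h0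
    have h3 := alg_pow hS hL (hneg m (by omega) z h2) (2 * m)
    rw [hzy] at h3
    rwa [show (-(m : ℤ) + ((2 * m : ℕ) : ℤ)) = m by push_cast; ring] at h3

/-- From the degree `1` to the degree `-1`. -/
theorem low_of_high (hS : OpAlg gr S) (hT : Distinguished gr L T) (h : DirectSum.IsInternal gr)
    (t : Sl2 (wt h n) L f) (hL : S 1 L) (hf : S (-1) f) (h1 : ∀ y, T 1 y → S 1 y) :
    ∀ y, T (-1) y → S (-1) y := by
  intro y hy
  have h2 := hT.pow hy 2
  rw [show (-1 : ℤ) + ((2 : ℕ) : ℤ) = 1 by norm_num] at h2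
  have h3 := h1 _ h2
  have h4 := alg_of_pow hS h t hL hf (m := 1) (c := 2) (by norm_num) (y := y)
    (by simpa using hT.hom hy) (by
      rw [show (-((1 : ℕ) : ℤ) + ((2 : ℕ) : ℤ)) = 1 by norm_num]; exact h3)
  simpa using h4

end Ops

end Pool.Agent.H447
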